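import Mathlib

/-! Definitions for the covering theorem for cliques of disks (fixed file, no proofs needed). -/

set_option autoImplicit false

namespace Pool.Agent.Work.MP_a5c73b_lc.S

/-- The Euclidean plane. -/
abbrev Plane := EuclideanSpace ℝ (Fin 2)

/-- The disk graph of the closed disks with centres `c i` and radii `r i`:
two different indices are adjacent iff the two closed disks intersect. -/
def diskGraph {ι : Type} (c : ι → Plane) (r : ι → ℝ) : SimpleGraph ι where
  Adj i j := i ≠ j ∧ (Metric.closedBall (c i) (r i) ∩ Metric.closedBall (c j) (r j)).Nonempty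
  symm := ⟨fun i j h => ⟨h.1.symm, by rw [Set.inter_comm]; exact h.2⟩⟩
  loopless := ⟨fun i h => h.1 rfl⟩

/-- `zeta c r i g = ⟪g, c i⟫ - r i`. For a unit vector `g` this is the signed position, in
direction `g`, of the side of the disk `i` that looks against `g`. -/
noncomputable def zeta {ι : Type} (c : ι → Plane) (r : ι → ℝ) (i : ι) (g : Plane) : ℝ :=
  inner ℝ g (c i) - r i

/-- The determinant of two plane vectors. -/
def crs (a w : Plane) : ℝ := a 0 * w 1 - a 1 * w 0

/-- The product of the determinants `crs a w`, `a` in the list `A`. -/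
def chi (A : List Plane) (w : Plane) : ℝ := (A.map (fun a => crs a w)).prod

/-- The disks `d` which equal or meet every disk of `X` and which, in every direction `w` with
`chi A w < 0`, do not exceed all disks of `X`. -/
def Plus {ι : Type} (c : ι → Plane) (r : ι → ℝ) (X : Finset ι) (A : List Plane) : Set ι :=
  {d | (∀ x ∈ X, x = d ∨ (diskGraph c r).Adj x d) ∧
    ∀ w : Plane, ‖w‖ = 1 → chi A w < 0 → ∃ x ∈ X, zeta c r d w ≤ zeta c r x w}

/-- The same for the directions `w` with `0 < chi A w`. -/
def Minus {ι : Type} (c : ι → Plane) (r : ι → ℝ) (X : Finset ι) (A : List Plane) : Set ι :=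
  {d | (∀ x ∈ X, x = d ∨ (diskGraph c r).Adj x d) ∧
    ∀ w : Plane, ‖w‖ = 1 → 0 < chi A w → ∃ x ∈ X, zeta c r d w ≤ zeta c r x w}

/-- The first basis vector. -/
noncomputable def e0 : Plane := EuclideanSpace.single 0 1

/-- The allowed directions: `e0` and the unit vectors `w` orthogonal to a common tangent line
(leaving both disks on the same side) of two disks of `K` with different centres. -/
def dirs {ι : Type} (c : ι → Plane) (r : ι → ℝ) (K : Finset ι) : Set Plane :=
  {w | ‖w‖ = 1 ∧ (w = e0 ∨ ∃ i ∈ K, ∃ j ∈ K, c i ≠ c j ∧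
    |(inner ℝ w (c i - c j) : ℝ)| = |r i - r j|)}

/-- The cell of `i`: the points `g` of the closed unit disk where `zeta c r i g` is maximal
among the disks of `K`. -/
def cell {ι : Type} (c : ι → Plane) (r : ι → ℝ) (K : Finset ι) (i : ι) : Set Plane :=
  {g | ‖g‖ ≤ 1 ∧ ∀ j ∈ K, zeta c r j g ≤ zeta c r i g}

/-- The affine function vanishing on the line through `w1` and `w2`. -/
def lam (w1 w2 g : Plane) : ℝ := crs (w2 - w1) (g - w1)

/-- Two closed sets of a family share a point. -/
def StepE {V : Type} (C : V → Set Plane) (u v : V) : Prop := (C u ∩ C v).Nonempty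

/-- Two closed sets of a family contain antipodal points of the unit circle. -/
def StepO {V : Type} (C : V → Set Plane) (u v : V) : Prop :=
  ∃ w : Plane, ‖w‖ = 1 ∧ w ∈ C u ∧ -w ∈ C v

/-- A finite family of closed preconnected nonempty subsets of the closed unit disk which
covers it. -/
structure Tess {V : Type} (C : V → Set Plane) : Prop where
  closed : ∀ v, IsClosed (C v)
  conn : ∀ v, IsPreconnected (C v)
  nonempty : ∀ v, (C v).Nonempty
  sub : ∀ v, ∀ g ∈ C v, ‖g‖ ≤ 1
  cover : ∀ g : Plane, ‖g‖ ≤ 1 → ∃ v, g ∈ C v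

/-- The signed double cover graph on `V × Bool`: even edges keep the sheet, odd edges change
it. -/
def dcover {V : Type} (C : V → Set Plane) : SimpleGraph (V × Bool) where
  Adj x y := x ≠ y ∧ ((x.2 = y.2 ∧ StepE C x.1 y.1) ∨ (x.2 ≠ y.2 ∧ StepO C x.1 y.1))
  symm := ⟨by
    rintro x y ⟨h0, h⟩
    refine ⟨h0.symm, ?_⟩
    rcases h with ⟨h1, h2⟩ | ⟨h1, w, hw, hu, hv⟩
    · left
      refine ⟨h1.symm, ?_⟩
      unfold StepE
      rw [Set.inter_comm]
      exact h2
    · right
      refine ⟨fun h => h1 h.symm, -w, by simpa using hw, hv, by simpa using hu⟩⟩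
  loopless := ⟨fun x h => h.1 rfl⟩

/-- The sheet exchange. -/
def flip {V : Type} (x : V × Bool) : V × Bool := (x.1, !x.2)

/-- The sign of a sheet. -/
def sg (b : Bool) : ℂ := if b then -1 else 1

/-- The data of a closed walk through the cells: the vertices `x t`, the type `ep t` of the
step from `x t` to `x (t+1)` (`true` = odd) and, for an odd step, its direction `a t`. -/
structure IsLoop {V : Type} (C : V → Set Plane) (s : ℕ) (x : ℕ → V) (ep : ℕ → Bool)
    (a : ℕ → Plane) : Prop where
  even : ∀ t < s, ep t = false → (C (x t) ∩ C (x (t + 1))).Nonempty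
  odd : ∀ t < s, ep t = true → ‖a t‖ = 1 ∧ a t ∈ C (x t) ∧ -(a t) ∈ C (x (t + 1))
  close : x s = x 0

/-- The list of the directions of the odd steps. -/
def alist (s : ℕ) (ep : ℕ → Bool) (a : ℕ → Plane) : List Plane :=
  ((List.range s).filter ep).map a

/-- The disks of `K` with a nonempty cell. -/
abbrev Front {ι : Type} (c : ι → Plane) (r : ι → ℝ) (K : Finset ι) : Type :=
  {i : ι // i ∈ K ∧ (cell c r K i).Nonempty}

/-- The cells of the front. -/
def fcell {ι : Type} (c : ι → Plane) (r : ι → ℝ) (K : Finset ι) (v : Front c r K) : Set Plane :=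
  cell c r K v.1

/-- The potential of a base point `x0` on a graph with an involution. -/
noncomputable def pot {W : Type} (G : SimpleGraph W) (σ : W → W) (x0 x : W) : ℝ :=
  (G.dist x0 x : ℝ) - (G.dist x0 (σ x) : ℝ)

end Pool.Agent.Work.MP_a5c73b_lc.S
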