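import Pool.Agent.Work.MP_a5c73b_lc.S.SampleMain

/-! The sampling theorem in its final form. -/

set_option autoImplicit false

namespace Pool.Agent.Work.MP_a5c73b_lc.S

/-- The pair `(X, A)` is a certificate found in the sample `ρ` which covers `K` up to a fraction
`η`: `X` is a set of at most `b` disks of `K` which occur in the sample, `A` is a list of odd
length at most `b` of directions determined by the disks of `K` which occur in the sample, and at
most `η |K|` disks of `K` lie outside the two cliques `Plus c r X A` and `Minus c r X A`. -/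
def Certifies {ι : Type} (c : ι → Plane) (r : ι → ℝ) (K : Finset ι) {T : ℕ} (ρ : Fin T → ι)
    (b : ℕ) (η : ℝ) (X : Finset ι) (A : List Plane) : Prop :=
  (∀ x ∈ X, x ∈ K ∧ ∃ t, ρ t = x) ∧ X.card ≤ b ∧ Odd A.length ∧ A.length ≤ b ∧
  (∃ R : Finset ι, (∀ i, i ∈ R ↔ i ∈ K ∧ ∃ t, ρ t = i) ∧ ∀ a ∈ A, a ∈ dirs c r R) ∧
  (((K : Set ι) \ (Plus c r X A ∪ Minus c r X A)).ncard : ℝ) ≤ η * K.card

theorem sample_certifies {ι : Type} (c : ι → Plane) (r : ι → ℝ) (K N : Finset ι)
    (hK : K.Nonempty) (hcl : (diskGraph c r).IsClique (K : Set ι)) (hKN : K ⊆ N)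
    (hN : N.card ≤ 9 * K.card) (T : ℕ) (hT : 1 ≤ T) :
    (N.card : ℝ) ^ T ≤ 2 * (({ρ : Fin T → {i // i ∈ N} | ∃ (X : Finset ι) (A : List Plane),
      Certifies c r K (fun t => (ρ t : ι)) (50 * Nat.sqrt T)
        (3000 * (1 + Real.log T) / Real.sqrt T) X A} :
        Set (Fin T → {i // i ∈ N})).ncard : ℝ) := by
  classical
  refine (sample_clique c r K N hK hcl hKN hN T hT).trans ?_
  have hsub : {ρ : Fin T → {i // i ∈ N} | ∃ (X : Finset ι) (A : List Plane),
      X ⊆ hit K (fun t => (ρ t : ι)) ∧ X.card ≤ 50 * Nat.sqrt T ∧ Odd A.length ∧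
      A.length ≤ 50 * Nat.sqrt T ∧ (∀ a ∈ A, a ∈ dirs c r (hit K (fun t => (ρ t : ι)))) ∧
      ((fail c r K X A).card : ℝ) ≤ 3000 * (1 + Real.log T) / Real.sqrt T * K.card} ⊆
      {ρ : Fin T → {i // i ∈ N} | ∃ (X : Finset ι) (A : List Plane),
      Certifies c r K (fun t => (ρ t : ι)) (50 * Nat.sqrt T)
        (3000 * (1 + Real.log T) / Real.sqrt T) X A} := by
    rintro ρ ⟨X, A, h1, h2, h3, h4, h5, h6⟩
    refine ⟨X, A, ?_, h2, h3, h4, ⟨hit K (fun t => (ρ t : ι)), ?_, h5⟩, ?_⟩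
    · intro x hx
      exact Finset.mem_filter.mp (h1 hx)
    · intro i
      exact Finset.mem_filter
    · have : ((K : Set ι) \ (Plus c r X A ∪ Minus c r X A)) = ((fail c r K X A : Finset ι) :
          Set ι) := by
        ext i
        simp only [fail, Finset.coe_filter, Set.mem_sdiff, Finset.mem_coe]
        exact Iff.rfl
      rw [this, Set.ncard_coe_finset]
      exact h6
  have h2 := (Nat.cast_le (α := ℝ)).mpr (Set.ncard_le_ncard hsub (Set.toFinite _))
  linarith

theorem card_larger {ι : Type} (c : ι → Plane) (r : ι → ℝ)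
    (hr : ∀ i, 0 ≤ r i) (ω : ℕ)
    (hω : ∀ K : Finset ι, (diskGraph c r).IsClique (K : Set ι) → K.card ≤ ω)
    (v : ι) (N : Finset ι)
    (hN : ∀ i ∈ N, r v ≤ r i ∧ (i = v ∨ (diskGraph c r).Adj i v)) : N.card ≤ 9 * ω := by
  classical
  let T : Fin 3 × Fin 3 → Finset ι := fun p =>
    N.filter (fun i => piercePt (c v) (r v) p.1 p.2 ∈ Metric.closedBall (c i) (r i))
  have hT : ∀ p, (T p).card ≤ ω := by
    intro p
    apply hω
    intro i hi j hj hij
    have hi' := (Finset.mem_filter.mp (Finset.mem_coe.mp hi)).2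
    have hj' := (Finset.mem_filter.mp (Finset.mem_coe.mp hj)).2
    exact ⟨hij, _, hi', hj'⟩
  have hsub : N ⊆ Finset.univ.biUnion T := by
    intro i hi
    obtain ⟨h1, h2⟩ := hN i hi
    have hd : ‖c i - c v‖ ≤ r i + r v := by
      rcases h2 with h2 | h2
      · rw [h2, sub_self, norm_zero]
        exact add_nonneg (hr v) (hr v)
      · exact (adj_iff_dist hr h2.1).mp h2
    obtain ⟨a, b, hab⟩ := pierce (hr v) h1 hd
    rw [Finset.mem_biUnion]
    exact ⟨(a, b), Finset.mem_univ _, Finset.mem_filter.mpr ⟨hi, hab⟩⟩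
  calc N.card ≤ (Finset.univ.biUnion T).card := Finset.card_le_card hsub
    _ ≤ ∑ p : Fin 3 × Fin 3, (T p).card := Finset.card_biUnion_le
    _ ≤ ∑ _p : Fin 3 × Fin 3, ω := Finset.sum_le_sum fun p _ => hT p
    _ = 9 * ω := by simp

theorem sample_core :
    (∀ (ι : Type) (c : ι → Plane) (r : ι → ℝ), (∀ i, 0 ≤ r i) →
      ∀ K : Finset ι, K.Nonempty → (diskGraph c r).IsClique (K : Set ι) →
      (∀ K' : Finset ι, (diskGraph c r).IsClique (K' : Set ι) → K'.card ≤ K.card) →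
      ∀ v ∈ K, (∀ i ∈ K, r v ≤ r i) →
      ∀ N : Finset ι, (∀ i, i ∈ N ↔ r v ≤ r i ∧ (i = v ∨ (diskGraph c r).Adj i v)) →
      K ⊆ N ∧ N.card ≤ 9 * K.card ∧ ∀ T : ℕ, 1 ≤ T →
        (N.card : ℝ) ^ T ≤ 2 * (({ρ : Fin T → {i // i ∈ N} | ∃ (X : Finset ι) (A : List Plane),
          Certifies c r K (fun t => (ρ t : ι)) (50 * Nat.sqrt T)
            (3000 * (1 + Real.log T) / Real.sqrt T) X A} :
            Set (Fin T → {i // i ∈ N})).ncard : ℝ)) ∧
    (∀ (ι : Type) (c : ι → Plane) (r : ι → ℝ) (K : Finset ι), K.Nonempty →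
      (diskGraph c r).IsClique (K : Set ι) → ∀ T : ℕ, 1 ≤ T →
      ∃ (X : Finset ι) (A : List Plane), X ⊆ K ∧ X.card ≤ 50 * Nat.sqrt T ∧ Odd A.length ∧
        A.length ≤ 50 * Nat.sqrt T ∧ (∀ a ∈ A, a ∈ dirs c r K) ∧
        (((K : Set ι) \ (Plus c r X A ∪ Minus c r X A)).ncard : ℝ) ≤
          3000 * (1 + Real.log T) / Real.sqrt T * K.card) := by
  constructor
  · intro ι c r hr K hKne hcl hmax v hvK hv N hN
    have hKN : K ⊆ N := by
      intro i hi
      rw [hN]
      refine ⟨hv i hi, ?_⟩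
      by_cases h : i = v
      · exact Or.inl h
      · exact Or.inr (hcl (Finset.mem_coe.mpr hi) (Finset.mem_coe.mpr hvK) h)
    have hNc := card_larger c r hr K.card hmax v N (fun i hi => (hN i).mp hi)
    exact ⟨hKN, hNc, fun T hT => sample_certifies c r K N hKne hcl hKN hNc T hT⟩
  · intro ι c r K hKne hcl T hT
    have h1 := sample_certifies c r K K hKne hcl (Finset.Subset.refl K) (by omega) T hT
    have hpos : (0 : ℝ) < (K.card : ℝ) ^ T := by
      have : 0 < K.card := hKne.card_pos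
      positivity
    have h2 : 0 < ({ρ : Fin T → {i // i ∈ K} | ∃ (X : Finset ι) (A : List Plane),
          Certifies c r K (fun t => (ρ t : ι)) (50 * Nat.sqrt T)
            (3000 * (1 + Real.log T) / Real.sqrt T) X A} :
            Set (Fin T → {i // i ∈ K})).ncard := by
      by_contra hno
      have h0 := Nat.eq_zero_of_not_pos hno
      rw [h0] at h1
      simp only [Nat.cast_zero, mul_zero] at h1
      linarith
    obtain ⟨ρ, X, A, h3, h4, h5, h6, ⟨R, hR, h7⟩, h8⟩ := Set.nonempty_of_ncard_ne_zero h2.ne'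
    refine ⟨X, A, fun x hx => (h3 x hx).1, h4, h5, h6, ?_, h8⟩
    intro a ha
    exact dirs_mono c r (fun i hi => ((hR i).mp hi).1) (h7 a ha)

end Pool.Agent.Work.MP_a5c73b_lc.S
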