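import Pool.Agent.Work.MP_a5c73b_lc.S.Family

/-! The covering family of size `n * (9 ω) ^ (350 √ω)`, `ω` the clique number. -/

set_option autoImplicit false

namespace Pool.Agent.Work.MP_a5c73b_lc.S

/-- The covering family for the cliques inside a finite set `N` of disks. -/
theorem cover_family_in {ι : Type} (c : ι → Plane) (r : ι → ℝ) (hr : ∀ i, 0 ≤ r i)
    (N : Finset ι) (m : ℕ) (hm : 2 ≤ m) (hN : N.card ≤ m) (k : ℕ) :
    ∃ F : Finset (Finset ι), F.card ≤ m ^ (350 * Nat.sqrt k) ∧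
      (∀ B ∈ F, ∃ P Q : Finset ι, (∀ i, i ∈ B ↔ i ∈ P ∨ i ∈ Q) ∧
        (diskGraph c r).IsClique (P : Set ι) ∧ (diskGraph c r).IsClique (Q : Set ι)) ∧
      ∀ K : Finset ι, K ⊆ N → (diskGraph c r).IsClique (K : Set ι) → K.card ≤ k →
        ∃ B ∈ F, K ⊆ B := by
  classical
  rcases N.eq_empty_or_nonempty with hN0 | hne
  · refine ⟨{∅}, ?_, ?_, ?_⟩
    · rw [Finset.card_singleton]
      exact Nat.one_le_pow _ _ (by omega)
    · intro B hB
      rw [Finset.mem_singleton] at hB
      exact ⟨∅, ∅, by simp [hB], by simp, by simp⟩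
    · intro K hK _ _
      exact ⟨∅, Finset.mem_singleton_self _, by rw [← hN0]; exact hK⟩
  set s := 50 * Nat.sqrt k with hs
  obtain ⟨hfin, hcard⟩ := dirs_card c r N hne
  set D : Finset Plane := hfin.toFinset with hD
  have hDcard : D.card ≤ 4 * m ^ 2 := by
    rw [hD, ← Set.ncard_eq_toFinset_card _ hfin]
    refine hcard.trans (Nat.mul_le_mul_left _ (Nat.pow_le_pow_left hN 2))
  let XX : (Fin s → Option {i // i ∈ N}) → Finset ι := fun f =>
    N.filter (fun i => ∃ t, ∃ h : i ∈ N, f t = some ⟨i, h⟩)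
  let AA : (Fin s → Option D) → List Plane := fun g =>
    ((List.ofFn g).reduceOption).map Subtype.val
  have hAne : ∀ g, ∀ a ∈ AA g, a ≠ 0 := by
    intro g a ha h0
    obtain ⟨d, _, rfl⟩ := List.mem_map.mp ha
    have h1 : (d : Plane) ∈ dirs c r N := hfin.mem_toFinset.mp d.2
    have h2 := h1.1
    rw [h0, norm_zero] at h2
    exact zero_ne_one h2
  let mem : (Fin s → Option {i // i ∈ N}) × (Fin s → Option D) → Finset ι := fun p =>
    if Odd (AA p.2).length then
      N.filter (fun d => d ∈ Plus c r (XX p.1) (AA p.2)) ∪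
      N.filter (fun d => d ∈ Minus c r (XX p.1) (AA p.2)) else ∅
  refine ⟨Finset.univ.image mem, ?_, ?_, ?_⟩
  · have h1 : (Finset.univ.image mem).card ≤ (N.card + 1) ^ s * (D.card + 1) ^ s := by
      refine Finset.card_image_le.trans ?_
      rw [Finset.card_univ, Fintype.card_prod, Fintype.card_fun, Fintype.card_fun,
        Fintype.card_option, Fintype.card_option, Fintype.card_fin,
        Fintype.card_coe, Fintype.card_coe]
    have h2 : N.card + 1 ≤ m ^ 2 := by nlinarith
    have h3 : D.card + 1 ≤ m ^ 5 := by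
      have h4 : 8 ≤ m ^ 3 := by
        calc 8 = 2 ^ 3 := by norm_num
          _ ≤ m ^ 3 := Nat.pow_le_pow_left hm 3
      have h5 : m ^ 5 = m ^ 2 * m ^ 3 := by ring
      have h6 : m ^ 2 * 8 ≤ m ^ 2 * m ^ 3 := Nat.mul_le_mul_left _ h4
      have h7 : 4 ≤ m ^ 2 := by nlinarith
      omega
    calc (Finset.univ.image mem).card ≤ (N.card + 1) ^ s * (D.card + 1) ^ s := h1
      _ ≤ (m ^ 2) ^ s * (m ^ 5) ^ s :=
        Nat.mul_le_mul (Nat.pow_le_pow_left h2 s) (Nat.pow_le_pow_left h3 s)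
      _ = m ^ (350 * Nat.sqrt k) := by
        rw [← pow_mul, ← pow_mul, ← pow_add, hs]
        congr 1
        ring
  · intro B hB
    obtain ⟨p, _, rfl⟩ := Finset.mem_image.mp hB
    by_cases hodd : Odd (AA p.2).length
    · refine ⟨N.filter (fun d => d ∈ Plus c r (XX p.1) (AA p.2)),
        N.filter (fun d => d ∈ Minus c r (XX p.1) (AA p.2)), ?_, ?_, ?_⟩
      · intro i
        simp only [mem, if_pos hodd, Finset.mem_union]
      · have := plus_clique (c := c) hr (XX p.1) (AA p.2) hodd (hAne p.2)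
        refine this.subset ?_
        intro d hd
        exact (Finset.mem_filter.mp (Finset.mem_coe.mp hd)).2
      · have := minus_clique (c := c) hr (XX p.1) (AA p.2) hodd (hAne p.2)
        refine this.subset ?_
        intro d hd
        exact (Finset.mem_filter.mp (Finset.mem_coe.mp hd)).2
    · refine ⟨∅, ∅, ?_, by simp, by simp⟩
      simp only [mem, if_neg hodd]
      simp
  · intro K hKN hK hKk
    rcases K.eq_empty_or_nonempty with rfl | hKne
    · exact ⟨mem (fun _ => none, fun _ => none), Finset.mem_image_of_mem _ (Finset.mem_univ _),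
        Finset.empty_subset _⟩
    obtain ⟨X, A, hXK, _, hXc, hodd, hAl, hAd, hcov⟩ := cover_one c r K hKne hK
    have hsq : 50 * Nat.sqrt K.card ≤ s := Nat.mul_le_mul_left _ (Nat.sqrt_le_sqrt hKk)
    have hAD : ∀ a ∈ A, a ∈ D := by
      intro a ha
      exact hfin.mem_toFinset.mpr (dirs_mono c r hKN (hAd a ha))
    let L : List D := A.attach.map (fun a => ⟨a.1, hAD a.1 a.2⟩)
    have hLmap : L.map Subtype.val = A := by
      simp [L, List.map_map, Function.comp_def]
    have hLlen : L.length ≤ s := by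
      simpa [L] using hAl.trans hsq
    have hXN : ∀ i ∈ X, i ∈ N := fun i hi => hKN (hXK hi)
    let LX : List {i // i ∈ N} :=
      X.toList.attach.map (fun i => ⟨i.1, hXN i.1 (Finset.mem_toList.mp i.2)⟩)
    have hLXmap : LX.map Subtype.val = X.toList := by
      simp [LX, List.map_map, Function.comp_def]
    have hXlen : LX.length ≤ s := by
      have : LX.length = X.card := by
        have h0 := congrArg List.length hLXmap
        rw [List.length_map, Finset.length_toList] at h0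
        exact h0
      rw [this]
      exact hXc.trans hsq
    let f : Fin s → Option {i // i ∈ N} := fun t => LX[(t : ℕ)]?
    let g : Fin s → Option D := fun t => L[(t : ℕ)]?
    have hXX : XX f = X := by
      ext i
      simp only [XX, f, Finset.mem_filter]
      constructor
      · rintro ⟨_, t, h, ht⟩
        have h1 := List.mem_of_getElem? ht
        have h2 : i ∈ LX.map Subtype.val := List.mem_map.mpr ⟨_, h1, rfl⟩
        rw [hLXmap] at h2
        exact Finset.mem_toList.mp h2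
      · intro hi
        refine ⟨hXN i hi, ?_⟩
        have h2 : i ∈ LX.map Subtype.val := by
          rw [hLXmap]
          exact Finset.mem_toList.mpr hi
        obtain ⟨j, hj, hji⟩ := List.mem_map.mp h2
        obtain ⟨t, ht⟩ := List.mem_iff_getElem?.mp hj
        have htl : t < LX.length := by
          by_contra hno
          rw [List.getElem?_eq_none (not_lt.mp hno)] at ht
          simp at ht
        refine ⟨⟨t, htl.trans_le hXlen⟩, hXN i hi, ?_⟩
        have : j = ⟨i, hXN i hi⟩ := Subtype.ext hji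
        rw [← this]
        exact ht
    have hAA : AA g = A := by
      simp only [AA, g]
      rw [reduce_ofFn L s hLlen, hLmap]
    refine ⟨mem (f, g), Finset.mem_image_of_mem _ (Finset.mem_univ _), ?_⟩
    intro d hd
    have h1 := hcov (Finset.mem_coe.mpr hd)
    simp only [mem]
    rw [hAA, hXX, if_pos hodd, Finset.mem_union, Finset.mem_filter, Finset.mem_filter]
    rcases h1 with h1 | h1
    · exact Or.inl ⟨hKN hd, h1⟩
    · exact Or.inr ⟨hKN hd, h1⟩

/-- The nine points which pierce all disks meeting the disk `(x, ρ)` of radius at least `ρ`. -/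
noncomputable def piercePt (x : Plane) (ρ : ℝ) (a b : Fin 3) : Plane :=
  x + !₂[ρ * (4 / 3) * ((a : ℕ) - 1 : ℝ), ρ * (4 / 3) * ((b : ℕ) - 1 : ℝ)]

theorem third {t : ℝ} (h1 : -2 ≤ t) (h2 : t ≤ 2) :
    ∃ a : Fin 3, |t - (4 / 3) * ((a : ℕ) - 1 : ℝ)| ≤ 2 / 3 := by
  rcases le_or_gt t (-(2 / 3)) with h | h
  · refine ⟨0, ?_⟩
    simp only [Fin.val_zero, Nat.cast_zero]
    rw [abs_le]
    constructor <;> linarith
  · rcases le_or_gt t (2 / 3) with h' | h'
    · refine ⟨1, ?_⟩
      simp only [Fin.val_one, Nat.cast_one]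
      rw [abs_le]
      constructor <;> linarith
    · refine ⟨2, ?_⟩
      simp only [Fin.val_two, Nat.cast_ofNat]
      rw [abs_le]
      constructor <;> linarith

theorem pierce {x y : Plane} {ρ R : ℝ} (hρ : 0 ≤ ρ) (hR : ρ ≤ R) (h : ‖y - x‖ ≤ R + ρ) :
    ∃ a b : Fin 3, piercePt x ρ a b ∈ Metric.closedBall y R := by
  rcases hρ.eq_or_lt with h0 | hpos
  · refine ⟨1, 1, ?_⟩
    rw [Metric.mem_closedBall, dist_eq_norm]
    have : piercePt x ρ 1 1 = x := by
      unfold piercePt
      ext i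
      fin_cases i <;> simp
    rw [this, norm_sub_rev]
    rw [← h0] at h
    simpa using h
  -- the point `z` at distance at most `2ρ` from `x` and at most `R - ρ` from `y`
  obtain ⟨z, hz1, hz2⟩ : ∃ z : Plane, ‖z - x‖ ≤ 2 * ρ ∧ ‖z - y‖ ≤ R - ρ := by
    rcases le_or_gt ‖y - x‖ (2 * ρ) with h1 | h1
    · exact ⟨y, h1, by rw [sub_self, norm_zero]; linarith⟩
    · have hd : 0 < ‖y - x‖ := by linarith
      refine ⟨x + (2 * ρ / ‖y - x‖) • (y - x), ?_, ?_⟩
      · rw [add_sub_cancel_left, norm_smul, Real.norm_of_nonneg (by positivity)]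
        rw [div_mul_cancel₀ _ hd.ne']
      · have : x + (2 * ρ / ‖y - x‖) • (y - x) - y = (-(1 - 2 * ρ / ‖y - x‖)) • (y - x) := by
          rw [neg_smul, sub_smul, one_smul]
          abel
        rw [this, norm_smul, norm_neg, Real.norm_of_nonneg (by
          rw [sub_nonneg, div_le_one hd]
          exact h1.le)]
        rw [sub_mul, one_mul, div_mul_cancel₀ _ hd.ne']
        linarith
  have hcoord : ∀ i : Fin 2, |(z - x) i| ≤ 2 * ρ := by
    intro i
    have h1 : |(z - x) i| ≤ ‖z - x‖ := by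
      have := PiLp.norm_apply_le (z - x) i
      simpa using this
    exact h1.trans hz1
  have hq : ∀ i : Fin 2, ∃ a : Fin 3,
      |(z - x) i - ρ * (4 / 3) * ((a : ℕ) - 1 : ℝ)| ≤ ρ * (2 / 3) := by
    intro i
    have h1 := abs_le.mp (hcoord i)
    obtain ⟨a, ha⟩ := third (t := (z - x) i / ρ) (by
      rw [le_div_iff₀ hpos]; linarith [h1.1]) (by rw [div_le_iff₀ hpos]; linarith [h1.2])
    refine ⟨a, ?_⟩
    have h2 : (z - x) i - ρ * (4 / 3) * ((a : ℕ) - 1 : ℝ) =
        ρ * ((z - x) i / ρ - (4 / 3) * ((a : ℕ) - 1 : ℝ)) := by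
      field_simp
    rw [h2, abs_mul, abs_of_pos hpos]
    exact mul_le_mul_of_nonneg_left ha hpos.le
  obtain ⟨a, ha⟩ := hq 0
  obtain ⟨b, hb⟩ := hq 1
  refine ⟨a, b, ?_⟩
  rw [Metric.mem_closedBall, dist_eq_norm]
  have hnear : ‖piercePt x ρ a b - z‖ ≤ ρ := by
    have hsq : ‖piercePt x ρ a b - z‖ ^ 2 ≤ ρ ^ 2 := by
      rw [norm_sq_coord]
      have e0 : (piercePt x ρ a b - z) 0 = -((z - x) 0 - ρ * (4 / 3) * ((a : ℕ) - 1 : ℝ)) := by
        simp [piercePt]
        ring
      have e1 : (piercePt x ρ a b - z) 1 = -((z - x) 1 - ρ * (4 / 3) * ((b : ℕ) - 1 : ℝ)) := by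
        simp [piercePt]
        ring
      rw [e0, e1, neg_sq, neg_sq]
      have s0 := sq_le_sq' (abs_le.mp ha).1 (abs_le.mp ha).2
      have s1 := sq_le_sq' (abs_le.mp hb).1 (abs_le.mp hb).2
      nlinarith
    exact (pow_le_pow_iff_left₀ (norm_nonneg _) hρ (by norm_num)).mp hsq
  calc ‖piercePt x ρ a b - y‖ = ‖(piercePt x ρ a b - z) + (z - y)‖ := by abel_nf
    _ ≤ ‖piercePt x ρ a b - z‖ + ‖z - y‖ := norm_add_le _ _
    _ ≤ R := by linarith

/-- `n` disks without a clique of more than `ω` elements: `n * (9 ω) ^ (350 √ω)` unions of two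
cliques cover all cliques. -/
theorem fpt_family (n : ℕ) (c : Fin n → Plane) (r : Fin n → ℝ) (hr : ∀ i, 0 ≤ r i) (ω : ℕ)
    (hω : ∀ K : Finset (Fin n), (diskGraph c r).IsClique (K : Set (Fin n)) → K.card ≤ ω) :
    ∃ F : Finset (Finset (Fin n)), F.card ≤ n * (9 * ω) ^ (350 * Nat.sqrt ω) ∧
      (∀ B ∈ F, ∃ P Q : Finset (Fin n), B = P ∪ Q ∧
        (diskGraph c r).IsClique (P : Set (Fin n)) ∧
        (diskGraph c r).IsClique (Q : Set (Fin n))) ∧
      ∀ K : Finset (Fin n), K.Nonempty → (diskGraph c r).IsClique (K : Set (Fin n)) →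
        ∃ B ∈ F, K ⊆ B := by
  classical
  let N : Fin n → Finset (Fin n) := fun v =>
    Finset.univ.filter (fun i => r v ≤ r i ∧ (i = v ∨ (diskGraph c r).Adj i v))
  have hNcard : ∀ v, (N v).card ≤ 9 * ω := by
    intro v
    let T : Fin 3 × Fin 3 → Finset (Fin n) := fun p =>
      Finset.univ.filter (fun i => piercePt (c v) (r v) p.1 p.2 ∈ Metric.closedBall (c i) (r i))
    have hT : ∀ p, (T p).card ≤ ω := by
      intro p
      apply hω
      intro i hi j hj hij
      have hi' := (Finset.mem_filter.mp (Finset.mem_coe.mp hi)).2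
      have hj' := (Finset.mem_filter.mp (Finset.mem_coe.mp hj)).2
      exact ⟨hij, _, hi', hj'⟩
    have hsub : N v ⊆ Finset.univ.biUnion T := by
      intro i hi
      obtain ⟨h1, h2⟩ := (Finset.mem_filter.mp hi).2
      have hd : ‖c i - c v‖ ≤ r i + r v := by
        rcases h2 with h2 | h2
        · rw [h2, sub_self, norm_zero]
          exact add_nonneg (hr v) (hr v)
        · exact (adj_iff_dist hr h2.1).mp h2
      obtain ⟨a, b, hab⟩ := pierce (hr v) h1 hd
      rw [Finset.mem_biUnion]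
      exact ⟨(a, b), Finset.mem_univ _, Finset.mem_filter.mpr ⟨Finset.mem_univ _, hab⟩⟩
    calc (N v).card ≤ (Finset.univ.biUnion T).card := Finset.card_le_card hsub
      _ ≤ ∑ p : Fin 3 × Fin 3, (T p).card := Finset.card_biUnion_le
      _ ≤ ∑ _p : Fin 3 × Fin 3, ω := Finset.sum_le_sum fun p _ => hT p
      _ = 9 * ω := by simp
  have hω1 : ∀ v : Fin n, 1 ≤ ω := by
    intro v
    have := hω {v} (by simp)
    simpa using this
  have hfam : ∀ v : Fin n, ∃ F : Finset (Finset (Fin n)),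
      F.card ≤ (9 * ω) ^ (350 * Nat.sqrt ω) ∧
      (∀ B ∈ F, ∃ P Q : Finset (Fin n), (∀ i, i ∈ B ↔ i ∈ P ∨ i ∈ Q) ∧
        (diskGraph c r).IsClique (P : Set (Fin n)) ∧
        (diskGraph c r).IsClique (Q : Set (Fin n))) ∧
      ∀ K : Finset (Fin n), K ⊆ N v → (diskGraph c r).IsClique (K : Set (Fin n)) →
        K.card ≤ ω → ∃ B ∈ F, K ⊆ B := by
    intro v
    exact cover_family_in c r hr (N v) (9 * ω) (by have := hω1 v; omega) (hNcard v) ω
  choose F hF1 hF2 hF3 using hfam
  refine ⟨Finset.univ.biUnion F, ?_, ?_, ?_⟩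
  · calc (Finset.univ.biUnion F).card ≤ ∑ v, (F v).card := Finset.card_biUnion_le
      _ ≤ ∑ _v : Fin n, (9 * ω) ^ (350 * Nat.sqrt ω) := Finset.sum_le_sum fun v _ => hF1 v
      _ = n * (9 * ω) ^ (350 * Nat.sqrt ω) := by simp
  · intro B hB
    obtain ⟨v, _, hv⟩ := Finset.mem_biUnion.mp hB
    obtain ⟨P, Q, h1, h2, h3⟩ := hF2 v B hv
    refine ⟨P, Q, ?_, h2, h3⟩
    ext i
    rw [Finset.mem_union]
    exact h1 i
  · intro K hKne hK
    obtain ⟨v, hvK, hv⟩ := K.exists_min_image r hKne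
    have hKN : K ⊆ N v := by
      intro i hi
      refine Finset.mem_filter.mpr ⟨Finset.mem_univ _, hv i hi, ?_⟩
      by_cases h : i = v
      · exact Or.inl h
      · exact Or.inr (hK (Finset.mem_coe.mpr hi) (Finset.mem_coe.mpr hvK) h)
    obtain ⟨B, hB, hKB⟩ := hF3 v K hKN hK (hω K hK)
    exact ⟨B, Finset.mem_biUnion.mpr ⟨v, Finset.mem_univ _, hB⟩, hKB⟩

end Pool.Agent.Work.MP_a5c73b_lc.S
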