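import Pool.Agent.Work.MP_a5c73b_lc.S.Family
import Pool.Agent.Work.MP_a5c73b_lc.S.Fpt

/-! Final assembly on top of the modules (the proof compiles on the stubs). -/

set_option autoImplicit false

namespace Pool.Agent.Work.MP_a5c73b_lc.S

theorem result_core :
    (∀ (ι : Type) (c : ι → Plane) (r : ι → ℝ), (∀ i, 0 ≤ r i) →
      (∀ (X : Finset ι) (A : List Plane), Odd A.length → (∀ a ∈ A, a ≠ 0) →
        (diskGraph c r).IsClique (Plus c r X A) ∧ (diskGraph c r).IsClique (Minus c r X A)) ∧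
      (∀ K : Finset ι, K.Nonempty → (diskGraph c r).IsClique (K : Set ι) →
        ((dirs c r K).Finite ∧ (dirs c r K).ncard ≤ 4 * K.card ^ 2) ∧
        ∃ (X : Finset ι) (A : List Plane), X ⊆ K ∧ X.Nonempty ∧
          X.card ≤ 50 * Nat.sqrt K.card ∧ Odd A.length ∧ A.length ≤ 50 * Nat.sqrt K.card ∧
          (∀ a ∈ A, a ∈ dirs c r K) ∧ (K : Set ι) ⊆ Plus c r X A ∪ Minus c r X A)) ∧
    (∀ n : ℕ, 2 ≤ n → ∀ (c : Fin n → Plane) (r : Fin n → ℝ), (∀ i, 0 ≤ r i) → ∀ k : ℕ,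
      ∃ F : Finset (Finset (Fin n)), F.card ≤ n ^ (350 * Nat.sqrt k) ∧
        (∀ B ∈ F, ∃ P Q : Finset (Fin n), B = P ∪ Q ∧
          (diskGraph c r).IsClique (P : Set (Fin n)) ∧
          (diskGraph c r).IsClique (Q : Set (Fin n))) ∧
        ∀ K : Finset (Fin n), (diskGraph c r).IsClique (K : Set (Fin n)) → K.card ≤ k →
          ∃ B ∈ F, K ⊆ B) ∧
    (∀ (n : ℕ) (c : Fin n → Plane) (r : Fin n → ℝ), (∀ i, 0 ≤ r i) → ∀ ω : ℕ,
      (∀ K : Finset (Fin n), (diskGraph c r).IsClique (K : Set (Fin n)) → K.card ≤ ω) →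
      ∃ F : Finset (Finset (Fin n)), F.card ≤ n * (9 * ω) ^ (350 * Nat.sqrt ω) ∧
        (∀ B ∈ F, ∃ P Q : Finset (Fin n), B = P ∪ Q ∧
          (diskGraph c r).IsClique (P : Set (Fin n)) ∧
          (diskGraph c r).IsClique (Q : Set (Fin n))) ∧
        ∀ K : Finset (Fin n), K.Nonempty → (diskGraph c r).IsClique (K : Set (Fin n)) →
          ∃ B ∈ F, K ⊆ B) :=
  ⟨fun _ c r hr => ⟨fun X A ho hA => ⟨plus_clique hr X A ho hA, minus_clique hr X A ho hA⟩,
    fun K hK hcl => ⟨dirs_card c r K hK, cover_one c r K hK hcl⟩⟩,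
    fun n hn c r hr k => cover_family n hn c r hr k,
    fun n c r hr ω hω => fpt_family n c r hr ω hω⟩

end Pool.Agent.Work.MP_a5c73b_lc.S
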