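import Pool.Agent.Work.MP_a5c73b_lc.S.Defs

/-! MODULE Canon (canonical directions of odd steps). -/

set_option autoImplicit false

namespace Pool.Agent.Work.MP_a5c73b_lc.S

theorem zeta_cont {ι : Type} (c : ι → Plane) (r : ι → ℝ) (i : ι) :
    Continuous (zeta c r i) := by
  unfold zeta
  fun_prop

theorem zeta_same {ι : Type} {c : ι → Plane} {r : ι → ℝ} {i l : ι} (h1 : c l = c i)
    (h2 : r l = r i) (g : Plane) : zeta c r l g = zeta c r i g := by
  unfold zeta
  rw [h1, h2]

theorem circle_conn : IsPreconnected (Metric.sphere (0 : Plane) 1) := by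
  apply isPreconnected_sphere
  rw [rank_eq_card_basis (EuclideanSpace.basisFun (Fin 2) ℝ).toBasis]
  simp

theorem canon {ι : Type} (c : ι → Plane) (r : ι → ℝ) (K : Finset ι) {i j : ι} (hi : i ∈ K)
    (hj : j ∈ K) (h : ∃ w : Plane, ‖w‖ = 1 ∧ w ∈ cell c r K i ∧ -w ∈ cell c r K j) :
    ∃ w ∈ dirs c r K, w ∈ cell c r K i ∧ -w ∈ cell c r K j := by
  by_contra hno
  push Not at hno
  let Z : Set Plane := {w | w ∈ cell c r K i ∧ -w ∈ cell c r K j}
  let U : Set Plane := {w | ∀ l ∈ K, ((c l = c i ∧ r l = r i) ∨ zeta c r l w < zeta c r i w) ∧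
    ((c l = c j ∧ r l = r j) ∨ zeta c r l (-w) < zeta c r j (-w))}
  have hU : IsOpen U := by
    have : U = ⋂ l ∈ K, ({w | ((c l = c i ∧ r l = r i) ∨ zeta c r l w < zeta c r i w)} ∩
        {w | ((c l = c j ∧ r l = r j) ∨ zeta c r l (-w) < zeta c r j (-w))}) := by
      ext w
      simp [U]
    rw [this]
    refine isOpen_biInter_finset fun l _ => IsOpen.inter ?_ ?_
    · by_cases hc : c l = c i ∧ r l = r i
      · simp [hc]
      · simp only [hc, false_or]
        exact isOpen_lt (zeta_cont c r l) (zeta_cont c r i)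
    · by_cases hc : c l = c j ∧ r l = r j
      · simp [hc]
      · simp only [hc, false_or]
        exact isOpen_lt ((zeta_cont c r l).comp continuous_neg)
          ((zeta_cont c r j).comp continuous_neg)
  have hZ : IsClosed Z := by
    have : Z = {w | ‖w‖ ≤ 1} ∩ ⋂ l ∈ K, ({w | zeta c r l w ≤ zeta c r i w} ∩
        {w | zeta c r l (-w) ≤ zeta c r j (-w)}) := by
      ext w
      simp only [Z, cell, Set.mem_setOf_eq, Set.mem_inter_iff, Set.mem_iInter, norm_neg]
      constructor
      · rintro ⟨⟨h1, h2⟩, _, h3⟩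
        exact ⟨h1, fun l hl => ⟨h2 l hl, h3 l hl⟩⟩
      · rintro ⟨h1, h2⟩
        exact ⟨⟨h1, fun l hl => (h2 l hl).1⟩, h1, fun l hl => (h2 l hl).2⟩
    rw [this]
    refine (isClosed_le continuous_norm continuous_const).inter ?_
    refine isClosed_biInter fun l _ => IsClosed.inter ?_ ?_
    · exact isClosed_le (zeta_cont c r l) (zeta_cont c r i)
    · exact isClosed_le ((zeta_cont c r l).comp continuous_neg)
          ((zeta_cont c r j).comp continuous_neg)
  have hZU : ∀ w : Plane, ‖w‖ = 1 → w ∈ Z → w ∈ U := by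
    intro w hw hwZ l hl
    have hnd : w ∉ dirs c r K := fun hd => hno w hd hwZ.1 hwZ.2
    refine ⟨?_, ?_⟩
    · rcases (hwZ.1.2 l hl).lt_or_eq with hlt | heq
      · exact Or.inr hlt
      · left
        have e1 : (inner ℝ w (c i - c l) : ℝ) = r i - r l := by
          unfold zeta at heq
          rw [inner_sub_right]
          linarith
        by_cases hc : c i = c l
        · rw [hc, sub_self, inner_zero_right] at e1
          exact ⟨hc.symm, by linarith⟩
        · exact absurd ⟨hw, Or.inr ⟨i, hi, l, hl, hc, by rw [e1]⟩⟩ hnd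
    · rcases (hwZ.2.2 l hl).lt_or_eq with hlt | heq
      · exact Or.inr hlt
      · left
        have e1 : (inner ℝ w (c j - c l) : ℝ) = - (r j - r l) := by
          unfold zeta at heq
          rw [inner_neg_left, inner_neg_left] at heq
          rw [inner_sub_right]
          linarith
        by_cases hc : c j = c l
        · rw [hc, sub_self, inner_zero_right] at e1
          exact ⟨hc.symm, by linarith⟩
        · exact absurd ⟨hw, Or.inr ⟨j, hj, l, hl, hc, by rw [e1, abs_neg]⟩⟩ hnd
  have hUZ : ∀ w : Plane, ‖w‖ = 1 → w ∈ U → w ∈ Z := by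
    intro w hw hwU
    refine ⟨⟨hw.le, fun l hl => ?_⟩, ⟨by rw [norm_neg]; exact hw.le, fun l hl => ?_⟩⟩
    · rcases (hwU l hl).1 with ⟨h1, h2⟩ | h3
      · exact (zeta_same h1 h2 w).le
      · exact h3.le
    · rcases (hwU l hl).2 with ⟨h1, h2⟩ | h3
      · exact (zeta_same h1 h2 (-w)).le
      · exact h3.le
  obtain ⟨w0, hw0, hw1, hw2⟩ := h
  have hconn := circle_conn
  have hsub : Metric.sphere (0 : Plane) 1 ⊆ U := by
    have hcov : Metric.sphere (0 : Plane) 1 ⊆ U ∪ Zᶜ := by
      intro w hw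
      rw [mem_sphere_zero_iff_norm] at hw
      by_cases hwZ : w ∈ Z
      · exact Or.inl (hZU w hw hwZ)
      · exact Or.inr hwZ
    rcases (isPreconnected_iff_subset_of_disjoint.mp hconn) U Zᶜ hU hZ.isOpen_compl hcov (by
      ext w
      simp only [Set.mem_inter_iff, mem_sphere_zero_iff_norm, Set.mem_compl_iff,
        Set.mem_empty_iff_false, iff_false]
      rintro ⟨h1, h2, h3⟩
      exact h3 (hUZ w h1 h2)) with h1 | h1
    · exact h1
    · exfalso
      exact h1 (mem_sphere_zero_iff_norm.mpr hw0) ⟨hw1, hw2⟩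
  have hne0 : ‖e0‖ = 1 := by simp [e0]
  have h3 := hUZ e0 hne0 (hsub (mem_sphere_zero_iff_norm.mpr hne0))
  exact hno e0 ⟨hne0, Or.inl rfl⟩ h3.1 h3.2

end Pool.Agent.Work.MP_a5c73b_lc.S
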