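import Pool.Agent.Work.MP_a5c73b_lc.S.Defs

/-! MODULE Cells. -/

set_option autoImplicit false

namespace Pool.Agent.Work.MP_a5c73b_lc.S

theorem zeta_continuous {ι : Type} (c : ι → Plane) (r : ι → ℝ) (i : ι) :
    Continuous (zeta c r i) := by
  unfold zeta
  fun_prop

theorem cell_closed {ι : Type} (c : ι → Plane) (r : ι → ℝ) (K : Finset ι) (i : ι) :
    IsClosed (cell c r K i) := by
  have : cell c r K i = {g | ‖g‖ ≤ 1} ∩ ⋂ j ∈ K, {g | zeta c r j g ≤ zeta c r i g} := by
    ext g
    simp [cell]
  rw [this]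
  refine (isClosed_le continuous_norm continuous_const).inter ?_
  exact isClosed_biInter fun j _ =>
    isClosed_le (zeta_continuous c r j) (zeta_continuous c r i)

theorem zeta_comb' {ι : Type} (c : ι → Plane) (r : ι → ℝ) (i : ι) (w1 w2 : Plane) {p q : ℝ}
    (hpq : p + q = 1) :
    zeta c r i (p • w1 + q • w2) = p * zeta c r i w1 + q * zeta c r i w2 := by
  unfold zeta
  rw [inner_add_left, real_inner_smul_left, real_inner_smul_left]
  have : r i = (p + q) * r i := by rw [hpq, one_mul]
  linear_combination (-1 : ℝ) * this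

theorem cell_convex {ι : Type} (c : ι → Plane) (r : ι → ℝ) (K : Finset ι) (i : ι) :
    Convex ℝ (cell c r K i) := by
  intro g hg g' hg' p q hp hq hpq
  refine ⟨?_, fun j hj => ?_⟩
  · calc ‖p • g + q • g'‖ ≤ ‖p • g‖ + ‖q • g'‖ := norm_add_le _ _
      _ = p * ‖g‖ + q * ‖g'‖ := by
        rw [norm_smul, norm_smul, Real.norm_of_nonneg hp, Real.norm_of_nonneg hq]
      _ ≤ p * 1 + q * 1 := by
        have := mul_le_mul_of_nonneg_left hg.1 hp
        have := mul_le_mul_of_nonneg_left hg'.1 hq
        linarith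
      _ = 1 := by linarith
  · rw [zeta_comb' c r j g g' hpq, zeta_comb' c r i g g' hpq]
    have h1 := mul_le_mul_of_nonneg_left (hg.2 j hj) hp
    have h2 := mul_le_mul_of_nonneg_left (hg'.2 j hj) hq
    linarith

theorem tess_front {ι : Type} (c : ι → Plane) (r : ι → ℝ) (K : Finset ι) (hK : K.Nonempty) :
    Tess (fcell c r K) where
  closed v := cell_closed c r K v.1
  conn v := (cell_convex c r K v.1).isPreconnected
  nonempty v := v.2.2
  sub v g hg := hg.1
  cover g hg := by
    obtain ⟨i, hi, hmax⟩ := K.exists_max_image (fun j => zeta c r j g) hK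
    exact ⟨⟨i, hi, ⟨g, hg, hmax⟩⟩, hg, hmax⟩

instance front_finite {ι : Type} (c : ι → Plane) (r : ι → ℝ) (K : Finset ι) :
    Finite (Front c r K) := by
  refine Finite.of_injective (fun v : Front c r K => (⟨v.1, v.2.1⟩ : {i : ι // i ∈ K})) ?_
  intro u v h
  apply Subtype.ext
  exact congrArg (fun z : {i : ι // i ∈ K} => z.1) h

theorem front_card {ι : Type} (c : ι → Plane) (r : ι → ℝ) (K : Finset ι) :
    Nat.card (Front c r K) ≤ K.card := by
  have h : Function.Injective
      (fun v : Front c r K => (⟨v.1, v.2.1⟩ : {i : ι // i ∈ K})) := by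
    intro u v h
    apply Subtype.ext
    exact congrArg (fun z : {i : ι // i ∈ K} => z.1) h
  have := Nat.card_le_card_of_injective _ h
  simpa using this

end Pool.Agent.Work.MP_a5c73b_lc.S
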