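import Pool.Agent.Work.MP_a5c73b_lc.S.Defs

/-! MODULE Conn.

The disk `D = closedBall 0 1` is preconnected (convex). Fix `u` and let `R` be the set of the `v`
such that `(v,b)` is reachable from `(u,b)`. `A = ⋃ v ∈ R, C v` and `B = ⋃ v ∉ R, C v` are closed
(finite unions), cover `D`, and are subsets of `D`. `A` is nonempty. If `R ≠ univ` then `B` is
nonempty, so `A ∩ B` is nonempty (`isPreconnected_closed_iff`): `C v ∩ C v'` nonempty with `v ∈ R`,
`v' ∉ R`, but `(v,b)` is adjacent to `(v',b)`. So all `(v,b)` with a fixed `b` are reachable from one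
another. The two sheets are connected: `e0 ∈ C u`, `-e0 ∈ C v` for some `u, v` (cover), so
`(u,false)` and `(v,true)` are adjacent. `V` is nonempty because `0 ∈ D` is covered. -/

set_option autoImplicit false

namespace Pool.Agent.Work.MP_a5c73b_lc.S

theorem dcover_connected {V : Type} [Finite V] (C : V → Set Plane) (hC : Tess C) :
    (dcover C).Connected := by
  classical
  have hD : IsPreconnected (Metric.closedBall (0 : Plane) 1) :=
    (convex_closedBall _ _).isPreconnected
  have same : ∀ (b : Bool) (u v : V), (dcover C).Reachable (u, b) (v, b) := by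
    intro b u v
    by_contra hv
    set R : Set V := {w | (dcover C).Reachable (u, b) (w, b)} with hR
    have hA : IsClosed (⋃ w ∈ R, C w) :=
      (Set.toFinite R).isClosed_biUnion (fun w _ => hC.closed w)
    have hB : IsClosed (⋃ w ∈ Rᶜ, C w) :=
      (Set.toFinite Rᶜ).isClosed_biUnion (fun w _ => hC.closed w)
    rw [isPreconnected_closed_iff] at hD
    have hcov : Metric.closedBall (0 : Plane) 1 ⊆ (⋃ w ∈ R, C w) ∪ (⋃ w ∈ Rᶜ, C w) := by
      intro g hg
      rw [Metric.mem_closedBall, dist_zero_right] at hg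
      obtain ⟨w, hw⟩ := hC.cover g hg
      by_cases h : w ∈ R
      · exact Or.inl (Set.mem_biUnion h hw)
      · exact Or.inr (Set.mem_biUnion h hw)
    obtain ⟨g1, hg1⟩ := hC.nonempty u
    obtain ⟨g2, hg2⟩ := hC.nonempty v
    have hu : u ∈ R := SimpleGraph.Reachable.refl _
    have h1 : (Metric.closedBall (0 : Plane) 1 ∩ (⋃ w ∈ R, C w)).Nonempty :=
      ⟨g1, by rw [Metric.mem_closedBall, dist_zero_right]; exact hC.sub u g1 hg1,
        Set.mem_biUnion hu hg1⟩
    have h2 : (Metric.closedBall (0 : Plane) 1 ∩ (⋃ w ∈ Rᶜ, C w)).Nonempty :=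
      ⟨g2, by rw [Metric.mem_closedBall, dist_zero_right]; exact hC.sub v g2 hg2,
        Set.mem_biUnion (show v ∈ Rᶜ from hv) hg2⟩
    obtain ⟨z, -, hzA, hzB⟩ := hD _ _ hA hB hcov h1 h2
    rw [Set.mem_iUnion₂] at hzA hzB
    obtain ⟨w, hwR, hw⟩ := hzA
    obtain ⟨w', hwR', hw'⟩ := hzB
    apply hwR'
    refine SimpleGraph.Reachable.trans hwR (SimpleGraph.Adj.reachable ?_)
    refine ⟨?_, Or.inl ⟨rfl, z, hw, hw'⟩⟩
    intro h
    have : w = w' := congrArg Prod.fst h
    rw [this] at hwR
    exact hwR' hwR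
  have he : ‖e0‖ = 1 := by
    unfold e0
    simp
  obtain ⟨u, hu⟩ := hC.cover e0 he.le
  obtain ⟨v, hv⟩ := hC.cover (-e0) (by rw [norm_neg]; exact he.le)
  have hadj : (dcover C).Adj (u, false) (v, true) := by
    refine ⟨by simp, Or.inr ⟨by simp, e0, he, hu, hv⟩⟩
  have hft : ∀ x y : V, (dcover C).Reachable (x, false) (y, true) := fun x y =>
    ((same false x u).trans hadj.reachable).trans (same true v y)
  rw [SimpleGraph.connected_iff]
  refine ⟨?_, ⟨(u, false)⟩⟩
  rintro ⟨x, b⟩ ⟨y, b'⟩
  cases b <;> cases b'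
  · exact same false x y
  · exact hft x y
  · exact (hft y x).symm
  · exact same true x y

end Pool.Agent.Work.MP_a5c73b_lc.S
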