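import Mathlib

/-! MODULE Grid (counting). -/

set_option autoImplicit false

namespace Pool.Agent.Work.MP_a5c73b_lc.S

theorem grid_far {a b a' b' : ℕ} {z : ℂ}
    (h : (‖z - (⟨25 * a, 25 * b⟩ : ℂ)‖ ≤ 12 ∨ ‖z + (⟨25 * a, 25 * b⟩ : ℂ)‖ ≤ 12))
    (h' : (‖z - (⟨25 * a', 25 * b'⟩ : ℂ)‖ ≤ 12 ∨ ‖z + (⟨25 * a', 25 * b'⟩ : ℂ)‖ ≤ 12)) :
    a = a' ∧ b = b' := by
  have key : ∀ {x y : ℂ}, ‖x‖ ≤ 12 → ‖y‖ ≤ 12 → |(x - y).re| ≤ 24 ∧ |(x - y).im| ≤ 24 := by
    intro x y hx hy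
    have h1 : ‖x - y‖ ≤ 24 := (norm_sub_le x y).trans (by linarith)
    exact ⟨(Complex.abs_re_le_norm _).trans h1, (Complex.abs_im_le_norm _).trans h1⟩
  have int_close : ∀ {m n : ℕ}, |(25 * (m : ℝ)) - 25 * n| ≤ 24 → m = n := by
    intro m n hmn
    rw [abs_le] at hmn
    rcases lt_trichotomy m n with hlt | heq | hgt
    · have : (m : ℝ) + 1 ≤ n := by exact_mod_cast hlt
      linarith [hmn.1]
    · exact heq
    · have : (n : ℝ) + 1 ≤ m := by exact_mod_cast hgt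
      linarith [hmn.2]
  have int_zero : ∀ {m n : ℕ}, |(25 * (m : ℝ)) + 25 * n| ≤ 24 → m = n := by
    intro m n hmn
    rw [abs_le] at hmn
    have h1 : (m : ℝ) + n < 1 := by linarith [hmn.2]
    have h2 : m + n < 1 := by exact_mod_cast h1
    omega
  rcases h with h | h <;> rcases h' with h' | h'
  · obtain ⟨e1, e2⟩ := key h' h
    simp only [Complex.sub_re, Complex.sub_im] at e1 e2
    refine ⟨int_close ?_, int_close ?_⟩
    · convert e1 using 2; ring
    · convert e2 using 2; ring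
  · obtain ⟨e1, e2⟩ := key h' h
    simp only [Complex.sub_re, Complex.sub_im, Complex.add_re, Complex.add_im] at e1 e2
    refine ⟨int_zero ?_, int_zero ?_⟩
    · convert e1 using 2; ring
    · convert e2 using 2; ring
  · obtain ⟨e1, e2⟩ := key h h'
    simp only [Complex.sub_re, Complex.sub_im, Complex.add_re, Complex.add_im] at e1 e2
    refine ⟨int_zero ?_, int_zero ?_⟩
    · convert e1 using 2; ring
    · convert e2 using 2; ring
  · obtain ⟨e1, e2⟩ := key h h'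
    simp only [Complex.sub_re, Complex.sub_im, Complex.add_re, Complex.add_im] at e1 e2
    refine ⟨int_close ?_, int_close ?_⟩
    · convert e1 using 2; ring
    · convert e2 using 2; ring

theorem grid_count {V : Type} [Finite V] (φ : V → ℂ) (s : ℕ) (hs : 1 ≤ s)
    (h : ∀ a b : ℕ, 50 * a ≤ s - 1 → 50 * b ≤ s - 1 →
      ∃ v, ‖φ v - (⟨25 * a, 25 * b⟩ : ℂ)‖ ≤ 12 ∨ ‖φ v + (⟨25 * a, 25 * b⟩ : ℂ)‖ ≤ 12) :
    s ≤ 50 * Nat.sqrt (Nat.card V) := by
  set m := (s - 1) / 50 with hm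
  have hb : ∀ i : Fin (m + 1), 50 * (i : ℕ) ≤ s - 1 := by
    intro i
    have h1 : (i : ℕ) ≤ m := Nat.lt_succ_iff.mp i.2
    have h2 : 50 * m ≤ s - 1 := Nat.mul_div_le (s - 1) 50
    omega
  choose f hf using fun p : Fin (m + 1) × Fin (m + 1) => h p.1 p.2 (hb p.1) (hb p.2)
  have hinj : Function.Injective f := by
    intro p p' hpp
    have h1 := hf p
    have h2 := hf p'
    rw [← hpp] at h2
    obtain ⟨e1, e2⟩ := grid_far h1 h2
    exact Prod.ext (Fin.ext e1) (Fin.ext e2)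
  have hcard := Nat.card_le_card_of_injective f hinj
  rw [Nat.card_eq_fintype_card, Fintype.card_prod, Fintype.card_fin] at hcard
  have hsq : m + 1 ≤ Nat.sqrt (Nat.card V) := Nat.le_sqrt.mpr hcard
  have : s ≤ 50 * (m + 1) := by omega
  exact this.trans (Nat.mul_le_mul_left _ hsq)

end Pool.Agent.Work.MP_a5c73b_lc.S
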