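import Pool.Agent.Work.MP_a5c73b_lc.S.Defs

/-! MODULE LoopGeo (graph metric, no geometry). -/

set_option autoImplicit false

namespace Pool.Agent.Work.MP_a5c73b_lc.S

theorem dist_path {W : Type} (G : SimpleGraph W) (hG : G.Connected) (γ : ℕ → W) (n : ℕ)
    (hγ : ∀ t < n, G.Adj (γ t) (γ (t + 1))) {a : ℕ} : ∀ b, a ≤ b → b ≤ n →
    G.dist (γ a) (γ b) + a ≤ b := by
  intro b hab
  induction b, hab using Nat.le_induction with
  | base => intro _; simp
  | succ b hab ih =>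
    intro hb
    have h1 := ih (by omega)
    have h2 := hG.dist_triangle (u := γ a) (v := γ b) (w := γ (b + 1))
    have h3 : G.dist (γ b) (γ (b + 1)) = 1 := SimpleGraph.dist_eq_one_iff_adj.mpr (hγ b (by omega))
    omega

theorem dist_map_le {W : Type} (G : SimpleGraph W) (hG : G.Connected) (σ : W → W)
    (hσ : ∀ x y, G.Adj x y → G.Adj (σ x) (σ y)) (x y : W) :
    G.dist (σ x) (σ y) ≤ G.dist x y := by
  obtain ⟨p, hp⟩ := hG.exists_walk_length_eq_dist x y
  let f : G →g G := ⟨σ, fun {a b} h => hσ a b h⟩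
  have := SimpleGraph.dist_le (p.map f)
  rw [SimpleGraph.Walk.length_map, hp] at this
  exact this

theorem dist_map {W : Type} (G : SimpleGraph W) (hG : G.Connected) (σ : W → W)
    (hσ2 : ∀ x, σ (σ x) = x) (hσ : ∀ x y, G.Adj x y → G.Adj (σ x) (σ y)) (x y : W) :
    G.dist (σ x) (σ y) = G.dist x y := by
  apply le_antisymm (dist_map_le G hG σ hσ x y)
  have := dist_map_le G hG σ hσ (σ x) (σ y)
  rwa [hσ2, hσ2] at this

theorem loop_dist {W : Type} (G : SimpleGraph W) (hG : G.Connected) (σ : W → W)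
    (hσ2 : ∀ x, σ (σ x) = x) (hσ : ∀ x y, G.Adj x y → G.Adj (σ x) (σ y)) {s : ℕ}
    (hs : ∀ x, s ≤ G.dist x (σ x)) (γ : ℕ → W) (hγ : ∀ t < s, G.Adj (γ t) (γ (t + 1)))
    (hclose : γ s = σ (γ 0)) {a b : ℕ} (hab : a ≤ b) (hb : b ≤ s) :
    G.dist (γ a) (γ b) + a = b ∧ G.dist (γ a) (σ (γ b)) + b = s + a := by
  have p1 := dist_path G hG γ s hγ (a := 0) a (Nat.zero_le _) (by omega)
  have p2 := dist_path G hG γ s hγ (a := a) b hab hb
  have p3 := dist_path G hG γ s hγ (a := b) s hb le_rfl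
  have t1 := hG.dist_triangle (u := γ 0) (v := γ a) (w := γ s)
  have t2 := hG.dist_triangle (u := γ a) (v := γ b) (w := γ s)
  have h0 := hs (γ 0)
  rw [← hclose] at h0
  refine ⟨by omega, ?_⟩
  have t3 := hG.dist_triangle (u := γ a) (v := γ 0) (w := σ (γ b))
  have e1 : G.dist (γ 0) (σ (γ b)) = G.dist (γ b) (γ s) := by
    have : γ 0 = σ (γ s) := by rw [hclose, hσ2]
    rw [this, dist_map G hG σ hσ2 hσ, SimpleGraph.dist_comm]
  have e2 : G.dist (γ a) (γ 0) = G.dist (γ 0) (γ a) := SimpleGraph.dist_comm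
  have t4 := hG.dist_triangle (u := γ a) (v := σ (γ b)) (w := σ (γ a))
  have e3 : G.dist (σ (γ b)) (σ (γ a)) = G.dist (γ a) (γ b) := by
    rw [dist_map G hG σ hσ2 hσ, SimpleGraph.dist_comm]
  have h1 := hs (γ a)
  omega

/-- The potential is odd. -/
theorem pot_flip {W : Type} (G : SimpleGraph W) (σ : W → W) (hσ2 : ∀ x, σ (σ x) = x)
    (x0 x : W) : pot G σ x0 (σ x) = - pot G σ x0 x := by
  unfold pot
  rw [hσ2]
  ring

/-- The potential changes by at most 2 along an edge. -/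
theorem pot_adj {W : Type} (G : SimpleGraph W) (hG : G.Connected) (σ : W → W)
    (hσ : ∀ x y, G.Adj x y → G.Adj (σ x) (σ y)) (x0 : W) {x y : W} (h : G.Adj x y) :
    |pot G σ x0 x - pot G σ x0 y| ≤ 2 := by
  have key : ∀ {u v : W}, G.Adj u v → (G.dist x0 u : ℝ) ≤ G.dist x0 v + 1 := by
    intro u v huv
    have h1 := hG.dist_triangle (u := x0) (v := v) (w := u)
    have h2 : G.dist v u = 1 := SimpleGraph.dist_eq_one_iff_adj.mpr huv.symm
    rw [h2] at h1
    exact_mod_cast h1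
  have a1 := key h
  have a2 := key h.symm
  have a3 := key (hσ x y h)
  have a4 := key (hσ x y h).symm
  unfold pot
  rw [abs_le]
  constructor <;> linarith

/-- The potentials of `γ 0` and `γ h` along the loop. -/
theorem pot_loop {W : Type} (G : SimpleGraph W) (hG : G.Connected) (σ : W → W)
    (hσ2 : ∀ x, σ (σ x) = x) (hσ : ∀ x y, G.Adj x y → G.Adj (σ x) (σ y)) {s : ℕ}
    (hs : ∀ x, s ≤ G.dist x (σ x)) (γ : ℕ → W) (hγ : ∀ t < s, G.Adj (γ t) (γ (t + 1)))
    (hclose : γ s = σ (γ 0)) {h t : ℕ} (hh : h ≤ s) (ht : t ≤ s) :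
    pot G σ (γ h) (γ t) = 2 * |(t : ℝ) - h| - s := by
  unfold pot
  rcases le_total h t with hle | hle
  · obtain ⟨e1, e2⟩ := loop_dist G hG σ hσ2 hσ hs γ hγ hclose hle ht
    have c1 : (G.dist (γ h) (γ t) : ℝ) + h = t := by exact_mod_cast e1
    have c2 : (G.dist (γ h) (σ (γ t)) : ℝ) + t = s + h := by exact_mod_cast e2
    have c3 : (h : ℝ) ≤ t := by exact_mod_cast hle
    rw [abs_of_nonneg (by linarith)]
    linarith
  · obtain ⟨e1, e2⟩ := loop_dist G hG σ hσ2 hσ hs γ hγ hclose hle hh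
    have c1 : (G.dist (γ t) (γ h) : ℝ) + t = h := by exact_mod_cast e1
    have c2 : (G.dist (γ t) (σ (γ h)) : ℝ) + h = s + t := by exact_mod_cast e2
    have c3 : (t : ℝ) ≤ h := by exact_mod_cast hle
    have e3 : G.dist (γ h) (γ t) = G.dist (γ t) (γ h) := SimpleGraph.dist_comm
    have e4 : G.dist (γ h) (σ (γ t)) = G.dist (γ t) (σ (γ h)) := by
      have := dist_map G hG σ hσ2 hσ (γ h) (σ (γ t))
      rw [hσ2] at this
      rw [← this, SimpleGraph.dist_comm]
    rw [e3, e4, abs_of_nonpos (by linarith)]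
    linarith

end Pool.Agent.Work.MP_a5c73b_lc.S
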