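import Pool.Agent.Work.MP_a5c73b_lc.S.Defs

/-! MODULE Wind (the closed polygon winds around `q`).

Summing `hL` and `hM` over `t < s`: `(L s - L 0) + (M s - M 0) = 0`, so the sum of all the logarithms
is `0`, in particular the sum of their imaginary parts (`Complex.log_im`: the arguments). But every
argument is positive: `0 < arg z` as soon as `0 < z.im` (`Complex.arg_pos_iff` or
`Complex.arg_mem_Ioo...`), and `im (B / A)` has the sign of `A.re * B.im - A.im * B.re =
A x (B - A)`. With `P = Ph t`, `B - A = Ph (t+1) - Ph t`: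
* `t < h`: `Ph t = (2t - s, 2(h - t) - s)`, `Ph (t+1) - Ph t = (2, -2)`, and
  `(Ph t - q) x (2,-2) = 2 ((q.re + q.im) + 2 s - 2 h) > 0`;
* `h ≤ t`: `Ph t = (2t - s, 2(t - h) - s)`, difference `(2,2)`,
  `(Ph t - q) x (2,2) = 2 (2 h - (q.re - q.im)) > 0`;
* for the second family `-Ph t - q = -(Ph t + q)`, difference `-(2,-2)` or `-(2,2)`; the cross
  product is the previous one with `q` replaced by `-q`, again positive.
`1 ≤ s` gives at least one term. -/

set_option autoImplicit false

namespace Pool.Agent.Work.MP_a5c73b_lc.S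

private theorem wind_arg_pos {z : ℂ} (hz : 0 < z.im) : 0 < (Complex.log z).im := by
  rw [Complex.log_im]
  have h1 : 0 ≤ Complex.arg z := Complex.arg_nonneg_iff.2 hz.le
  have h2 : Complex.arg z ≠ 0 := by
    intro h
    rw [Complex.arg_eq_zero_iff] at h
    exact hz.ne' h.2
  exact lt_of_le_of_ne h1 (Ne.symm h2)

private theorem wind_div_im {A B : ℂ} (h : 0 < A.re * B.im - A.im * B.re) : 0 < (B / A).im := by
  have hA : 0 < Complex.normSq A := by
    rw [Complex.normSq_pos]
    rintro rfl
    simp at h
  have e : (B / A).im = (A.re * B.im - A.im * B.re) / Complex.normSq A := by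
    rw [Complex.div_im]
    ring
  rw [e]
  exact div_pos h hA

theorem wind (s h : ℕ) (hs : 1 ≤ s) (hh : h ≤ s) (q : ℂ)
    (h1 : |q.re + q.im| < 2 * s - 2 * h) (h2 : |q.re - q.im| < 2 * h) (Ph : ℕ → ℂ)
    (hP : ∀ t ≤ s, (Ph t).re = 2 * t - s ∧ (Ph t).im = 2 * |(t : ℝ) - h| - s) (L M : ℕ → ℂ)
    (hL : ∀ t < s, L (t + 1) - L t = Complex.log ((Ph (t + 1) - q) / (Ph t - q)))
    (hM : ∀ t < s, M (t + 1) - M t = Complex.log ((-Ph (t + 1) - q) / (-Ph t - q)))
    (hLM : L s = M 0) (hML : M s = L 0) : False := by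
  have h1' := abs_lt.1 h1
  have h2' := abs_lt.1 h2
  have key : ∀ t < s, 0 < (Complex.log ((Ph (t + 1) - q) / (Ph t - q))).im ∧
      0 < (Complex.log ((-Ph (t + 1) - q) / (-Ph t - q))).im := by
    intro t ht
    obtain ⟨a1, a2⟩ := hP t ht.le
    obtain ⟨b1, b2⟩ := hP (t + 1) ht
    push_cast at b1 b2
    rcases lt_or_ge t h with hth | hth
    · have c1 : |(t : ℝ) - h| = h - t := by
        rw [abs_of_nonpos]
        · ring
        · have : (t : ℝ) ≤ h := by exact_mod_cast hth.le
          linarith
      have c2 : |(t : ℝ) + 1 - h| = h - t - 1 := by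
        rw [abs_of_nonpos]
        · ring
        · have : (t : ℝ) + 1 ≤ h := by exact_mod_cast hth
          linarith
      rw [c1] at a2
      rw [c2] at b2
      constructor
      · apply wind_arg_pos
        apply wind_div_im
        simp only [Complex.sub_re, Complex.sub_im]
        rw [a1, a2, b1, b2]
        nlinarith [h1'.1, h1'.2, h2'.1, h2'.2]
      · apply wind_arg_pos
        apply wind_div_im
        simp only [Complex.sub_re, Complex.sub_im, Complex.neg_re, Complex.neg_im]
        rw [a1, a2, b1, b2]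
        nlinarith [h1'.1, h1'.2, h2'.1, h2'.2]
    · have c1 : |(t : ℝ) - h| = t - h := by
        rw [abs_of_nonneg]
        have : (h : ℝ) ≤ t := by exact_mod_cast hth
        linarith
      have c2 : |(t : ℝ) + 1 - h| = t + 1 - h := by
        rw [abs_of_nonneg]
        have : (h : ℝ) ≤ t := by exact_mod_cast hth
        linarith
      rw [c1] at a2
      rw [c2] at b2
      constructor
      · apply wind_arg_pos
        apply wind_div_im
        simp only [Complex.sub_re, Complex.sub_im]
        rw [a1, a2, b1, b2]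
        nlinarith [h1'.1, h1'.2, h2'.1, h2'.2]
      · apply wind_arg_pos
        apply wind_div_im
        simp only [Complex.sub_re, Complex.sub_im, Complex.neg_re, Complex.neg_im]
        rw [a1, a2, b1, b2]
        nlinarith [h1'.1, h1'.2, h2'.1, h2'.2]
  have sL : ∑ t ∈ Finset.range s, (L (t + 1) - L t) = L s - L 0 := Finset.sum_range_sub L s
  have sM : ∑ t ∈ Finset.range s, (M (t + 1) - M t) = M s - M 0 := Finset.sum_range_sub M s
  have tot : ∑ t ∈ Finset.range s, ((L (t + 1) - L t) + (M (t + 1) - M t)) = 0 := by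
    rw [Finset.sum_add_distrib, sL, sM, hLM, hML]
    ring
  have tot2 : (∑ t ∈ Finset.range s, ((L (t + 1) - L t) + (M (t + 1) - M t))).im = 0 := by
    rw [tot]
    rfl
  rw [Complex.im_sum] at tot2
  have pos : 0 < ∑ t ∈ Finset.range s, ((L (t + 1) - L t) + (M (t + 1) - M t)).im := by
    apply Finset.sum_pos
    · intro t ht
      have ht' := Finset.mem_range.1 ht
      rw [Complex.add_im, hL t ht', hM t ht']
      have := key t ht'
      exact add_pos this.1 this.2
    · exact ⟨0, Finset.mem_range.2 hs⟩
  linarith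

end Pool.Agent.Work.MP_a5c73b_lc.S
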