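import Pool.Agent.Work.MP_a5c73b_lc.S.Nerve
import Pool.Agent.Work.MP_a5c73b_lc.S.Conn
import Pool.Agent.Work.MP_a5c73b_lc.S.LoopGeo
import Pool.Agent.Work.MP_a5c73b_lc.S.Wind
import Pool.Agent.Work.MP_a5c73b_lc.S.Grid

/-! MODULE Sys (the systolic bound). -/

set_option autoImplicit false

namespace Pool.Agent.Work.MP_a5c73b_lc.S

theorem flip_flip {V : Type} (x : V × Bool) : flip (flip x) = x := by
  simp [flip]

theorem flip_adj {V : Type} (C : V → Set Plane) (x y : V × Bool) (h : (dcover C).Adj x y) :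
    (dcover C).Adj (flip x) (flip y) := by
  obtain ⟨h0, h⟩ := h
  refine ⟨?_, ?_⟩
  · intro h1
    apply h0
    have := congrArg flip h1
    rwa [flip_flip, flip_flip] at this
  · rcases h with ⟨h1, h2⟩ | ⟨h1, h2⟩
    · left
      refine ⟨?_, h2⟩
      simp [flip, h1]
    · right
      refine ⟨?_, h2⟩
      intro h3
      apply h1
      simpa [flip] using h3

theorem norm_le_three {z : ℂ} (h1 : |z.re| ≤ 2) (h2 : |z.im| ≤ 2) : ‖z‖ ≤ 3 := by
  have hsq : ‖z‖ ^ 2 = z.re ^ 2 + z.im ^ 2 := by
    rw [Complex.sq_norm, Complex.normSq_apply]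
    ring
  have a1 : z.re ^ 2 ≤ 4 := by
    rw [← sq_abs]
    nlinarith [abs_nonneg z.re]
  have a2 : z.im ^ 2 ≤ 4 := by
    rw [← sq_abs]
    nlinarith [abs_nonneg z.im]
  nlinarith [norm_nonneg z]

theorem sys {V : Type} [Finite V] (C : V → Set Plane) (hC : Tess C) :
    ∃ v : V, (dcover C).dist (v, false) (v, true) ≤ 50 * Nat.sqrt (Nat.card V) := by
  classical
  have hG := dcover_connected C hC
  obtain ⟨v0, _⟩ := hC.cover 0 (by simp)
  have : Nonempty V := ⟨v0⟩
  obtain ⟨v, hv⟩ := Finite.exists_min (fun v : V => (dcover C).dist (v, false) (v, true))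
  refine ⟨v, ?_⟩
  set G := dcover C with hGdef
  obtain ⟨p, hp⟩ := hG.exists_walk_length_eq_dist (v, false) (v, true)
  set s := G.dist (v, false) (v, true) with hs
  have hmin : ∀ x : V × Bool, s ≤ G.dist x (flip x) := by
    rintro ⟨u, b⟩
    cases b with
    | false => exact hv u
    | true =>
      have : G.dist (u, true) (flip (u, true)) = G.dist (u, false) (u, true) := by
        rw [SimpleGraph.dist_comm]
        rfl
      rw [this]
      exact hv u
  have hs1 : 1 ≤ s := by
    rcases Nat.eq_zero_or_pos p.length with h0 | h0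
    · have := SimpleGraph.Walk.eq_of_length_eq_zero h0
      simp at this
    · omega
  have hcardpos : 1 ≤ Nat.card V := Nat.card_pos
  rcases hs1.eq_or_lt with h1 | h2
  · have : 1 ≤ Nat.sqrt (Nat.card V) := Nat.le_sqrt.mpr (by simpa using hcardpos)
    omega
  have hs2 : 2 ≤ s := h2
  let γ : ℕ → V × Bool := p.getVert
  have hγ : ∀ t < s, G.Adj (γ t) (γ (t + 1)) := by
    intro t ht
    exact p.adj_getVert_succ (by omega)
  have hγ0 : γ 0 = (v, false) := p.getVert_zero
  have hγs : γ s = (v, true) := by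
    have : γ p.length = (v, true) := p.getVert_length
    rwa [hp] at this
  have hclose : γ s = flip (γ 0) := by
    rw [hγs, hγ0]
    rfl
  have hflip := flip_adj C
  set h := s / 2 with hh
  have hhs : h ≤ s := Nat.div_le_self _ _
  let Φ : V × Bool → ℂ := fun x => ⟨pot G flip (γ 0) x, pot G flip (γ h) x⟩
  let φ : V → ℂ := fun v => Φ (v, false)
  have hΦflip : ∀ x, Φ (flip x) = - Φ x := by
    intro x
    apply Complex.ext
    · simp only [Φ, Complex.neg_re]
      exact pot_flip G flip flip_flip _ x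
    · simp only [Φ, Complex.neg_im]
      exact pot_flip G flip flip_flip _ x
  have hΦsg : ∀ x : V × Bool, Φ x = sg x.2 * φ x.1 := by
    rintro ⟨u, b⟩
    cases b with
    | false => simp [sg, φ]
    | true =>
      have := hΦflip (u, false)
      simp only [flip, Bool.not_false] at this
      rw [this]
      simp [sg, φ]
  have hΦadj : ∀ x y, G.Adj x y → ‖Φ x - Φ y‖ ≤ 3 := by
    intro x y hxy
    apply norm_le_three
    · simpa [Φ] using pot_adj G hG flip hflip (γ 0) hxy
    · simpa [Φ] using pot_adj G hG flip hflip (γ h) hxy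
  have hE : ∀ u v, StepE C u v → ‖φ u - φ v‖ ≤ 3 := by
    intro u w huw
    by_cases hne : u = w
    · rw [hne, sub_self, norm_zero]; norm_num
    · apply hΦadj
      refine ⟨?_, Or.inl ⟨rfl, huw⟩⟩
      intro h0
      exact hne (congrArg Prod.fst h0)
  have hO : ∀ u v, StepO C u v → ‖φ u + φ v‖ ≤ 3 := by
    intro u w huw
    have h3 : ‖Φ (u, false) - Φ (w, true)‖ ≤ 3 := by
      apply hΦadj
      refine ⟨?_, Or.inr ⟨?_, huw⟩⟩
      · intro h0
        have := congrArg Prod.snd h0
        simp at this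
      · simp
    have h4 : Φ (w, true) = - φ w := by
      rw [hΦsg]
      simp [sg]
    rw [h4, sub_neg_eq_add] at h3
    exact h3
  apply grid_count φ s hs1
  intro a b ha hb
  by_contra hno
  push Not at hno
  set q : ℂ := ⟨25 * a, 25 * b⟩ with hq
  obtain ⟨Λ, hΛ⟩ := nerve C hC φ hE hO q (fun v => (hno v).1) (fun v => (hno v).2)
  have haR : (50 : ℝ) * a + 1 ≤ s := by
    have : 50 * a + 1 ≤ s := by omega
    exact_mod_cast this
  have hbR : (50 : ℝ) * b + 1 ≤ s := by
    have : 50 * b + 1 ≤ s := by omega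
    exact_mod_cast this
  have ha0 : (0 : ℝ) ≤ a := Nat.cast_nonneg a
  have hb0 : (0 : ℝ) ≤ b := Nat.cast_nonneg b
  have hsR : (2 : ℝ) ≤ s := by exact_mod_cast hs2
  have h2h : (2 : ℝ) * h ≤ s := by
    have : 2 * h ≤ s := by omega
    exact_mod_cast this
  have h2h' : (s : ℝ) ≤ 2 * h + 1 := by
    have : s ≤ 2 * h + 1 := by omega
    exact_mod_cast this
  refine wind s h hs1 hhs q ?_ ?_ (fun t => Φ (γ t)) ?_ (fun t => Λ (γ t))
    (fun t => Λ (flip (γ t))) ?_ ?_ ?_ ?_
  · rw [hq, abs_lt]
    constructor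
    · simp only; linarith
    · simp only; linarith
  · rw [hq, abs_lt]
    constructor
    · simp only; linarith
    · simp only; linarith
  · intro t ht
    constructor
    · have := pot_loop G hG flip flip_flip hflip hmin γ hγ hclose (h := 0) (Nat.zero_le s) ht
      simp only [Φ]
      rw [this]
      have ht0 : (0 : ℝ) ≤ t := Nat.cast_nonneg t
      simp
    · exact pot_loop G hG flip flip_flip hflip hmin γ hγ hclose hhs ht
  · intro t ht
    have := hΛ (γ t) (γ (t + 1)) (hγ t ht)
    rw [this, ← hΦsg, ← hΦsg]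
  · intro t ht
    have := hΛ (flip (γ t)) (flip (γ (t + 1))) (hflip _ _ (hγ t ht))
    rw [this, ← hΦsg, ← hΦsg, hΦflip, hΦflip]
  · rw [hclose]
  · rw [hclose, flip_flip]

end Pool.Agent.Work.MP_a5c73b_lc.S
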