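import Pool.Agent.Work.MP_a5c73b_lc.S.Canon
import Pool.Agent.Work.MP_a5c73b_lc.S.Cells

/-! MODULE WalkData (from a walk in the double cover to loop data with canonical directions).

Let `p` be the walk, `γ t = p.getVert t`, `x t = (γ t).1`, `ep t = decide ((γ t).2 ≠ (γ (t+1)).2)`
(as a Bool: `xor (γ t).2 (γ (t+1)).2`), `a t` = the canonical direction given by `canon` if
`ep t = true` and `t < s` (choice), `0` otherwise. `(γ t).2` and `(γ (t+1)).2` are equal for an even
step and different for an odd one. Parity: by induction on `t ≤ s`,
`(γ t).2 = xor (γ 0).2 (decide (Odd (alist t ep a).length))`; at `t = s` the sheet is `true`, at `0`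
it is `false`. Length: `filter` of `range s`. Every element of `alist` is some `a t`, `t < s`,
`ep t = true`. -/

set_option autoImplicit false

namespace Pool.Agent.Work.MP_a5c73b_lc.S

theorem walk_data {ι : Type} (c : ι → Plane) (r : ι → ℝ) (K : Finset ι) (v : Front c r K)
    (p : (dcover (fcell c r K)).Walk (v, false) (v, true)) :
    ∃ (x : ℕ → Front c r K) (ep : ℕ → Bool) (a : ℕ → Plane),
      IsLoop (fcell c r K) p.length x ep a ∧ Odd (alist p.length ep a).length ∧
      (alist p.length ep a).length ≤ p.length ∧ ∀ b ∈ alist p.length ep a, b ∈ dirs c r K := by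
  classical
  set γ : ℕ → Front c r K × Bool := fun t => p.getVert t with hγ
  set ep : ℕ → Bool := fun t => xor (γ t).2 (γ (t + 1)).2 with hep
  have h0 : γ 0 = (v, false) := p.getVert_zero
  have hs : γ p.length = (v, true) := p.getVert_length
  have hadj : ∀ t < p.length, (dcover (fcell c r K)).Adj (γ t) (γ (t + 1)) := fun t ht =>
    p.adj_getVert_succ ht
  have hcan : ∀ t < p.length, ep t = true →
      ∃ w ∈ dirs c r K, w ∈ cell c r K ((γ t).1.1) ∧ -w ∈ cell c r K ((γ (t + 1)).1.1) := by
    intro t ht he
    obtain ⟨-, h⟩ := hadj t ht
    rcases h with ⟨h1, -⟩ | ⟨-, w, hw, hu, hv⟩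
    · exfalso
      rw [hep] at he
      simp only at he
      rw [h1] at he
      simp at he
    · exact canon c r K (γ t).1.2.1 (γ (t + 1)).1.2.1 ⟨w, hw, hu, hv⟩
  set a : ℕ → Plane := fun t => if h : ∃ w ∈ dirs c r K, w ∈ cell c r K ((γ t).1.1) ∧
    -w ∈ cell c r K ((γ (t + 1)).1.1) then h.choose else 0 with ha
  have haspec : ∀ t < p.length, ep t = true → a t ∈ dirs c r K ∧ a t ∈ cell c r K ((γ t).1.1) ∧
      -(a t) ∈ cell c r K ((γ (t + 1)).1.1) := by
    intro t ht he
    have h := hcan t ht he
    have e : a t = h.choose := by
      rw [ha]
      exact dif_pos h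
    rw [e]
    exact h.choose_spec
  refine ⟨fun t => (γ t).1, ep, a, ⟨?_, ?_, ?_⟩, ?_, ?_, ?_⟩
  · intro t ht he
    obtain ⟨-, h⟩ := hadj t ht
    rcases h with ⟨-, h2⟩ | ⟨h1, -⟩
    · exact h2
    · exfalso
      rw [hep] at he
      simp only at he
      apply h1
      revert he
      cases (γ t).2 <;> cases (γ (t + 1)).2 <;> simp
  · intro t ht he
    obtain ⟨h1, h2, h3⟩ := haspec t ht he
    exact ⟨h1.1, h2, h3⟩
  · simp only [h0, hs]
  · have par : ∀ t ≤ p.length, (γ t).2 = decide (Odd (alist t ep a).length) := by
      intro t
      induction t with
      | zero =>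
        intro _
        rw [h0]
        simp [alist]
      | succ t ih =>
        intro ht
        have hi := ih (by omega)
        have el : (alist (t + 1) ep a).length = (alist t ep a).length + if ep t then 1 else 0 := by
          unfold alist
          rw [List.range_succ, List.filter_append, List.map_append, List.length_append]
          congr 1
          by_cases h : ep t <;> simp [h]
        by_cases h : ep t = true
        · rw [el, if_pos h]
          have hx : (γ (t + 1)).2 = !(γ t).2 := by
            rw [hep] at h
            simp only at h
            revert h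
            cases (γ t).2 <;> cases (γ (t + 1)).2 <;> simp
          rw [hx, hi]
          by_cases ho : Odd (alist t ep a).length
          · have : ¬ Odd ((alist t ep a).length + 1) := by
              rw [Nat.not_odd_iff_even]
              exact ho.add_one
            simp [ho, this]
          · have : Odd ((alist t ep a).length + 1) := by
              rw [Nat.not_odd_iff_even] at ho
              exact ho.add_one
            simp [ho, this]
        · rw [el, if_neg h, add_zero, ← hi]
          rw [hep] at h
          simp only at h
          revert h
          cases (γ t).2 <;> cases (γ (t + 1)).2 <;> simp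
    have := par p.length le_rfl
    rw [hs] at this
    exact of_decide_eq_true this.symm
  · unfold alist
    rw [List.length_map]
    calc ((List.range p.length).filter ep).length ≤ (List.range p.length).length :=
          List.length_filter_le _ _
      _ = p.length := List.length_range
  · intro b hb
    unfold alist at hb
    rw [List.mem_map] at hb
    obtain ⟨t, ht, rfl⟩ := hb
    rw [List.mem_filter, List.mem_range] at ht
    exact (haspec t ht.1 ht.2).1

end Pool.Agent.Work.MP_a5c73b_lc.S
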