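import Pool.Agent.Work.MP_a5c73b_lc.S.Typed
import Pool.Agent.Work.MP_a5c73b_lc.S.Sys
import Pool.Agent.Work.MP_a5c73b_lc.S.WalkData

/-! MODULE CoverOne (assembly of the covering theorem for one clique). -/

set_option autoImplicit false

namespace Pool.Agent.Work.MP_a5c73b_lc.S

theorem cover_one {ι : Type} (c : ι → Plane) (r : ι → ℝ) (K : Finset ι) (hK : K.Nonempty)
    (hcl : (diskGraph c r).IsClique (K : Set ι)) :
    ∃ (X : Finset ι) (A : List Plane), X ⊆ K ∧ X.Nonempty ∧ X.card ≤ 50 * Nat.sqrt K.card ∧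
      Odd A.length ∧ A.length ≤ 50 * Nat.sqrt K.card ∧ (∀ a ∈ A, a ∈ dirs c r K) ∧
      (K : Set ι) ⊆ Plus c r X A ∪ Minus c r X A := by
  classical
  have hT := tess_front c r K hK
  obtain ⟨v, hv⟩ := sys (fcell c r K) hT
  have hconn := dcover_connected (fcell c r K) hT
  obtain ⟨p, hp⟩ := hconn.exists_walk_length_eq_dist (v, false) (v, true)
  have hb : p.length ≤ 50 * Nat.sqrt K.card := by
    rw [hp]
    exact hv.trans (Nat.mul_le_mul_left _ (Nat.sqrt_le_sqrt (front_card c r K)))
  have hpos : 1 ≤ p.length := by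
    rcases Nat.eq_zero_or_pos p.length with h0 | h0
    · have := SimpleGraph.Walk.eq_of_length_eq_zero h0
      simp at this
    · exact h0
  obtain ⟨x, ep, a, hloop, hodd, hlen, hdirs⟩ := walk_data c r K v p
  refine ⟨(Finset.range p.length).image (fun t => (x t).1), alist p.length ep a, ?_, ?_, ?_,
    hodd, hlen.trans hb, hdirs, ?_⟩
  · intro i hi
    obtain ⟨t, _, rfl⟩ := Finset.mem_image.mp hi
    exact (x t).2.1
  · exact ⟨(x 0).1, Finset.mem_image.mpr ⟨0, Finset.mem_range.mpr hpos, rfl⟩⟩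
  · exact Finset.card_image_le.trans (by simpa using hb)
  · intro e he
    refine typed_cells c r K _ hcl ?_ hloop ?_ (Finset.mem_coe.mp he)
    · intro i hi
      obtain ⟨t, _, rfl⟩ := Finset.mem_image.mp hi
      exact (x t).2.1
    · intro t ht
      rcases ht.lt_or_eq with h | h
      · exact Finset.mem_image.mpr ⟨t, Finset.mem_range.mpr h, rfl⟩
      · rw [h, hloop.close]
        exact Finset.mem_image.mpr ⟨0, Finset.mem_range.mpr hpos, rfl⟩

end Pool.Agent.Work.MP_a5c73b_lc.S
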