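import Pool.Agent.Work.MP_a5c73b_lc.S.Defs

/-! MODULE DirsCard. -/

set_option autoImplicit false

namespace Pool.Agent.Work.MP_a5c73b_lc.S

theorem inner_coord (w u : Plane) : (inner ℝ w u : ℝ) = w 0 * u 0 + w 1 * u 1 := by
  rw [PiLp.inner_apply, Fin.sum_univ_two]
  simp
  ring

theorem unit_coord (w : Plane) : ‖w‖ ^ 2 = w 0 ^ 2 + w 1 ^ 2 := by
  rw [EuclideanSpace.norm_sq_eq, Fin.sum_univ_two]
  simp [Real.norm_eq_abs, sq_abs]

/-- The four candidates for a vector `w` with `⟪w, u⟫ = ± ρ`. -/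
noncomputable def cand (u : Plane) (ρ : ℝ) (b b' : Bool) : Plane :=
  let β : ℝ := if b then ρ else -ρ
  let γ : ℝ := if b' then Real.sqrt (‖u‖ ^ 2 - ρ ^ 2) else - Real.sqrt (‖u‖ ^ 2 - ρ ^ 2)
  !₂[(β * u 0 - γ * u 1) / ‖u‖ ^ 2, (β * u 1 + γ * u 0) / ‖u‖ ^ 2]

theorem mem_cand {u w : Plane} (hu : u ≠ 0) (hw : ‖w‖ = 1) {ρ : ℝ}
    (h : |(inner ℝ w u : ℝ)| = ρ) : ∃ b b', w = cand u ρ b b' := by
  have hn : 0 < ‖u‖ := norm_pos_iff.mpr hu
  have hn2 : ‖u‖ ^ 2 ≠ 0 := by positivity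
  have e1 := unit_coord w
  have e2 := unit_coord u
  rw [hw] at e1
  have hβ : ∃ b : Bool, w 0 * u 0 + w 1 * u 1 = if b then ρ else -ρ := by
    rw [inner_coord] at h
    rcases abs_choice (w 0 * u 0 + w 1 * u 1) with h1 | h1
    · exact ⟨true, by rw [h1] at h; simpa using h⟩
    · exact ⟨false, by rw [h1] at h; simp; linarith⟩
  obtain ⟨b, hb⟩ := hβ
  have hsq : (u 0 * w 1 - u 1 * w 0) ^ 2 = ‖u‖ ^ 2 - ρ ^ 2 := by
    have h3 : (w 0 * u 0 + w 1 * u 1) ^ 2 = ρ ^ 2 := by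
      rw [hb]
      cases b <;> simp
    rw [e2]
    linear_combination (-1 : ℝ) * h3 - (u 0 ^ 2 + u 1 ^ 2) * e1
  have hγ : ∃ b' : Bool, u 0 * w 1 - u 1 * w 0 =
      if b' then Real.sqrt (‖u‖ ^ 2 - ρ ^ 2) else - Real.sqrt (‖u‖ ^ 2 - ρ ^ 2) := by
    rw [← hsq, Real.sqrt_sq_eq_abs]
    rcases abs_choice (u 0 * w 1 - u 1 * w 0) with h1 | h1
    · exact ⟨true, by rw [h1]; simp⟩
    · exact ⟨false, by rw [h1]; simp⟩
  obtain ⟨b', hb'⟩ := hγ
  refine ⟨b, b', ?_⟩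
  unfold cand
  simp only
  rw [← hb, ← hb']
  ext i
  fin_cases i
  · simp only [Fin.zero_eta, Matrix.cons_val_zero]
    rw [eq_div_iff hn2, e2]
    ring
  · simp only [Fin.mk_one, Matrix.cons_val_one, Matrix.cons_val_zero]
    rw [eq_div_iff hn2, e2]
    ring

theorem dirs_card {ι : Type} (c : ι → Plane) (r : ι → ℝ) (K : Finset ι) (hK : K.Nonempty) :
    (dirs c r K).Finite ∧ (dirs c r K).ncard ≤ 4 * K.card ^ 2 := by
  classical
  let P : Finset (ι × ι) := K.offDiag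
  let T : Finset Plane := insert e0 ((P ×ˢ (Finset.univ : Finset (Bool × Bool))).image
    (fun p => cand (c p.1.1 - c p.1.2) |r p.1.1 - r p.1.2| p.2.1 p.2.2))
  have hsub : dirs c r K ⊆ (T : Set Plane) := by
    rintro w ⟨hw, h | ⟨i, hi, j, hj, hc, h⟩⟩
    · rw [h]
      exact Finset.mem_coe.mpr (Finset.mem_insert_self _ _)
    · obtain ⟨b, b', hbb⟩ := mem_cand (sub_ne_zero.mpr hc) hw h
      apply Finset.mem_coe.mpr
      apply Finset.mem_insert_of_mem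
      refine Finset.mem_image.mpr ⟨((i, j), (b, b')), ?_, hbb.symm⟩
      rw [Finset.mem_product]
      refine ⟨?_, Finset.mem_univ _⟩
      rw [Finset.mem_offDiag]
      refine ⟨hi, hj, ?_⟩
      rintro h0
      apply hc
      have : i = j := h0
      rw [this]
  have hTcard : T.card ≤ 4 * K.card ^ 2 := by
    have h1 : T.card ≤ (P.card * 4) + 1 := by
      refine (Finset.card_insert_le _ _).trans ?_
      apply Nat.add_le_add_right
      refine Finset.card_image_le.trans ?_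
      rw [Finset.card_product]
      simp
    have h2 : P.card = K.card * K.card - K.card := Finset.offDiag_card K
    have h3 : 1 ≤ K.card := hK.card_pos
    have h4 : K.card ≤ K.card * K.card := Nat.le_mul_of_pos_left _ h3
    rw [h2] at h1
    have h5 : K.card ^ 2 = K.card * K.card := sq _
    omega
  refine ⟨T.finite_toSet.subset hsub, ?_⟩
  calc (dirs c r K).ncard ≤ (T : Set Plane).ncard := Set.ncard_le_ncard hsub T.finite_toSet
    _ = T.card := Set.ncard_coe_finset T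
    _ ≤ _ := hTcard

theorem dirs_mono {ι : Type} (c : ι → Plane) (r : ι → ℝ) {K K' : Finset ι} (h : K ⊆ K') :
    dirs c r K ⊆ dirs c r K' := by
  rintro w ⟨hw, h1 | ⟨i, hi, j, hj, h2⟩⟩
  · exact ⟨hw, Or.inl h1⟩
  · exact ⟨hw, Or.inr ⟨i, h hi, j, h hj, h2⟩⟩

end Pool.Agent.Work.MP_a5c73b_lc.S
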