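import Pool.Agent.Work.MP_a5c73b_lc.S.LogNear
import Pool.Agent.Work.MP_a5c73b_lc.S.Defs

/-! MODULE DiskLog (continuous logarithm on the closed disk).

The closed disk `D` is compact, so `m = min ‖F‖ > 0` on `D` and `F` is uniformly continuous on `D`:
there is `N ≥ 1` with `‖F g - F g'‖ < m` whenever `g, g' ∈ D`, `‖g - g'‖ ≤ 1/N`. Put
`L g = log (F 0) + ∑ j < N, log (F (((j+1)/N) • g) / F ((j/N) • g))`. Every summand is continuous on
`D` (`log_cont`), and `exp (L g)` telescopes to `F g`. -/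

set_option autoImplicit false

namespace Pool.Agent.Work.MP_a5c73b_lc.S

theorem disk_log (F : Plane → ℂ) (hF : ContinuousOn F (Metric.closedBall 0 1))
    (h0 : ∀ g : Plane, ‖g‖ ≤ 1 → F g ≠ 0) :
    ∃ L : Plane → ℂ, ContinuousOn L (Metric.closedBall 0 1) ∧
      ∀ g : Plane, ‖g‖ ≤ 1 → Complex.exp (L g) = F g := by
  have hcomp : IsCompact (Metric.closedBall (0 : Plane) 1) := isCompact_closedBall 0 1
  have hmem : ∀ g : Plane, g ∈ Metric.closedBall (0 : Plane) 1 ↔ ‖g‖ ≤ 1 := fun g => by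
    rw [mem_closedBall_zero_iff]
  obtain ⟨gm, hgm, hmin⟩ := hcomp.exists_isMinOn ⟨0, by simp⟩ hF.norm
  have hmpos : 0 < ‖F gm‖ := norm_pos_iff.2 (h0 gm ((hmem gm).1 hgm))
  have hmle : ∀ g : Plane, ‖g‖ ≤ 1 → ‖F gm‖ ≤ ‖F g‖ := fun g hg => hmin ((hmem g).2 hg)
  have huc := hcomp.uniformContinuousOn_of_continuous hF
  rw [Metric.uniformContinuousOn_iff] at huc
  obtain ⟨δ, hδ, hδ'⟩ := huc _ hmpos
  obtain ⟨N, hN⟩ := exists_nat_gt (1 / δ)
  have hNpos : (0 : ℝ) < N := lt_trans (by positivity) hN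
  have hstep : ∀ j : ℕ, ((j + 1 : ℕ) : ℝ) / N = (j : ℝ) / N + 1 / N := by
    intro j
    push_cast
    ring
  have hnorm : ∀ (j : ℕ), j ≤ N → ∀ g : Plane, ‖g‖ ≤ 1 → ‖((j : ℝ) / N) • g‖ ≤ 1 := by
    intro j hj g hg
    have h1 : (j : ℝ) / N ≤ 1 := by
      rw [div_le_one hNpos]
      exact_mod_cast hj
    rw [norm_smul, Real.norm_of_nonneg (by positivity)]
    calc (j : ℝ) / N * ‖g‖ ≤ 1 * 1 := mul_le_mul h1 hg (norm_nonneg _) zero_le_one
      _ = 1 := one_mul 1
  have hclose : ∀ (j : ℕ), j + 1 ≤ N → ∀ g : Plane, ‖g‖ ≤ 1 →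
      ‖F ((((j + 1 : ℕ) : ℝ) / N) • g) - F (((j : ℝ) / N) • g)‖ < ‖F (((j : ℝ) / N) • g)‖ := by
    intro j hj g hg
    refine lt_of_lt_of_le ?_ (hmle _ (hnorm j (by omega) g hg))
    rw [← dist_eq_norm]
    refine hδ' _ ((hmem _).2 (hnorm (j + 1) hj g hg)) _ ((hmem _).2 (hnorm j (by omega) g hg)) ?_
    rw [dist_eq_norm, ← sub_smul, hstep, add_sub_cancel_left, norm_smul,
      Real.norm_of_nonneg (by positivity)]
    have h1 : 1 / (N : ℝ) < δ := by
      rw [div_lt_iff₀ hNpos]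
      rw [div_lt_iff₀ hδ] at hN
      linarith
    calc 1 / (N : ℝ) * ‖g‖ ≤ 1 / N * 1 := mul_le_mul_of_nonneg_left hg (by positivity)
      _ < δ := by rwa [mul_one]
  have hcont : ∀ j : ℕ, j ≤ N → ContinuousOn (fun g : Plane => F (((j : ℝ) / N) • g))
      (Metric.closedBall 0 1) := by
    intro j hj
    refine hF.comp (continuous_const_smul _).continuousOn ?_
    intro g hg
    exact (hmem _).2 (hnorm j hj g ((hmem g).1 hg))
  refine ⟨fun g => Complex.log (F 0) + ∑ j ∈ Finset.range N,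
    Complex.log (F ((((j + 1 : ℕ) : ℝ) / N) • g) / F (((j : ℝ) / N) • g)), ?_, ?_⟩
  · refine continuousOn_const.add (continuousOn_finsetSum _ ?_)
    intro j hj
    rw [Finset.mem_range] at hj
    exact log_cont (hcont (j + 1) hj) (hcont j (by omega)) (fun g hg => hclose j hj g ((hmem g).1 hg))
  · intro g hg
    have key : ∀ n : ℕ, n ≤ N → Complex.exp (Complex.log (F 0) + ∑ j ∈ Finset.range n,
        Complex.log (F ((((j + 1 : ℕ) : ℝ) / N) • g) / F (((j : ℝ) / N) • g))) =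
        F (((n : ℝ) / N) • g) := by
      intro n
      induction n with
      | zero =>
        intro _
        simp only [Finset.range_zero, Finset.sum_empty, add_zero, Nat.cast_zero, zero_div, zero_smul]
        exact Complex.exp_log (h0 0 (by simp))
      | succ n ih =>
        intro hn
        have hne := h0 _ (hnorm n (by omega) g hg)
        have hne' := h0 _ (hnorm (n + 1) hn g hg)
        rw [Finset.sum_range_succ, ← add_assoc, Complex.exp_add, ih (by omega),
          Complex.exp_log (div_ne_zero hne' hne), mul_div_cancel₀ _ hne]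
    have h1 := key N le_rfl
    rw [div_self hNpos.ne', one_smul] at h1
    exact h1

end Pool.Agent.Work.MP_a5c73b_lc.S
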