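import Pool.Agent.Work.MP_a5c73b_lc.S.Defs

/-! MODULE PlusClique. -/

set_option autoImplicit false

namespace Pool.Agent.Work.MP_a5c73b_lc.S

theorem adj_iff_dist {ι : Type} {c : ι → Plane} {r : ι → ℝ} (hr : ∀ i, 0 ≤ r i) {i j : ι}
    (hij : i ≠ j) : (diskGraph c r).Adj i j ↔ ‖c i - c j‖ ≤ r i + r j := by
  constructor
  · rintro ⟨_, y, hy1, hy2⟩
    rw [Metric.mem_closedBall, dist_eq_norm] at hy1 hy2
    have : c i - c j = (y - c j) - (y - c i) := by abel
    rw [this]
    exact (norm_sub_le _ _).trans (by linarith)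
  · intro h
    refine ⟨hij, ?_⟩
    rcases (add_nonneg (hr i) (hr j)).lt_or_eq with hpos | hzero
    · refine ⟨c i + (r i / (r i + r j)) • (c j - c i), ?_, ?_⟩
      · rw [Metric.mem_closedBall, dist_eq_norm, add_sub_cancel_left, norm_smul, norm_sub_rev,
          Real.norm_of_nonneg (div_nonneg (hr i) hpos.le)]
        rw [div_mul_eq_mul_div, div_le_iff₀ hpos]
        exact mul_le_mul_of_nonneg_left h (hr i)
      · rw [Metric.mem_closedBall, dist_eq_norm]
        have : c i + (r i / (r i + r j)) • (c j - c i) - c j =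
            (r j / (r i + r j)) • (c i - c j) := by
          have h1 : r j / (r i + r j) = 1 - r i / (r i + r j) := by
            field_simp
            ring
          rw [h1, sub_smul, one_smul, smul_sub, smul_sub]
          abel
        rw [this, norm_smul, Real.norm_of_nonneg (div_nonneg (hr j) hpos.le),
          div_mul_eq_mul_div, div_le_iff₀ hpos]
        exact mul_le_mul_of_nonneg_left h (hr j)
    · rw [← hzero] at h
      have hc : c i = c j := by
        have : ‖c i - c j‖ = 0 := le_antisymm h (norm_nonneg _)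
        exact sub_eq_zero.mp (norm_eq_zero.mp this)
      refine ⟨c i, ?_, ?_⟩
      · simpa using hr i
      · rw [hc]
        simpa using hr j

theorem meet_supp {ι : Type} {c : ι → Plane} {r : ι → ℝ} (hr : ∀ i, 0 ≤ r i) {i j : ι}
    (h : i = j ∨ (diskGraph c r).Adj i j) {w : Plane} (hw : ‖w‖ = 1) :
    zeta c r i w + zeta c r j (-w) ≤ 0 := by
  have hkey : ‖c i - c j‖ ≤ r i + r j := by
    rcases h with rfl | h
    · rw [sub_self, norm_zero]
      have := hr i
      linarith
    · exact (adj_iff_dist hr h.1).mp h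
  have h2 : (inner ℝ w (c i - c j) : ℝ) ≤ ‖c i - c j‖ := by
    have := real_inner_le_norm w (c i - c j)
    rwa [hw, one_mul] at this
  unfold zeta
  rw [inner_neg_left]
  rw [inner_sub_right] at h2
  linarith

theorem supp_meet {ι : Type} {c : ι → Plane} {r : ι → ℝ} (hr : ∀ i, 0 ≤ r i) {i j : ι}
    (hij : i ≠ j) (h : ∀ w : Plane, ‖w‖ = 1 → zeta c r i w + zeta c r j (-w) ≤ 0) :
    (diskGraph c r).Adj i j := by
  rw [adj_iff_dist hr hij]
  by_cases hc : c i = c j
  · rw [hc, sub_self, norm_zero]
    exact add_nonneg (hr i) (hr j)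
  · have hn : 0 < ‖c i - c j‖ := norm_pos_iff.mpr (sub_ne_zero.mpr hc)
    have h1 := h ((‖c i - c j‖)⁻¹ • (c i - c j)) (by
      rw [norm_smul, norm_inv, norm_norm, inv_mul_cancel₀ hn.ne'])
    unfold zeta at h1
    rw [inner_neg_left] at h1
    have h2 : (inner ℝ ((‖c i - c j‖)⁻¹ • (c i - c j)) (c i) : ℝ) -
        inner ℝ ((‖c i - c j‖)⁻¹ • (c i - c j)) (c j) = ‖c i - c j‖ := by
      rw [← inner_sub_right, real_inner_smul_left, real_inner_self_eq_norm_sq]
      field_simp
    linarith

theorem chi_cons (a : Plane) (A : List Plane) (w : Plane) :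
    chi (a :: A) w = crs a w * chi A w := by
  simp [chi]

theorem chi_continuous (A : List Plane) : Continuous (chi A) := by
  induction A with
  | nil =>
    have : chi [] = fun _ => (1 : ℝ) := by
      funext w
      simp [chi]
    rw [this]
    exact continuous_const
  | cons a A ih =>
    have : chi (a :: A) = fun w => crs a w * chi A w := by
      funext w
      exact chi_cons a A w
    rw [this]
    refine Continuous.mul ?_ ih
    unfold crs
    fun_prop

theorem crs_dense {a : Plane} (ha : a ≠ 0) : Dense {g : Plane | crs a g ≠ 0} := by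
  rw [dense_iff_inter_open]
  intro U hU hUne
  obtain ⟨g, hg⟩ := hUne
  by_cases h0 : crs a g = 0
  · let J : Plane := !₂[-(a 1), a 0]
    have hJ : crs a J ≠ 0 := by
      have : crs a J = a 0 ^ 2 + a 1 ^ 2 := by
        simp [crs, J]
        ring
      rw [this]
      intro h1
      apply ha
      have h2 : a 0 = 0 := by nlinarith [sq_nonneg (a 0), sq_nonneg (a 1)]
      have h3 : a 1 = 0 := by nlinarith [sq_nonneg (a 0), sq_nonneg (a 1)]
      ext i
      fin_cases i
      · exact h2
      · exact h3
    have hcont : Continuous (fun t : ℝ => g + t • J) := by fun_prop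
    have hpre : IsOpen ((fun t : ℝ => g + t • J) ⁻¹' U) := hU.preimage hcont
    have h0mem : (0 : ℝ) ∈ (fun t : ℝ => g + t • J) ⁻¹' U := by
      simpa using hg
    obtain ⟨ε, hε, hball⟩ := Metric.isOpen_iff.mp hpre 0 h0mem
    have ht : (ε / 2) ∈ Metric.ball (0 : ℝ) ε := by
      rw [Metric.mem_ball, Real.dist_eq, sub_zero, abs_of_pos (by linarith)]
      linarith
    refine ⟨g + (ε / 2) • J, hball ht, ?_⟩
    have : crs a (g + (ε / 2) • J) = crs a g + (ε / 2) * crs a J := by
      simp only [crs, PiLp.add_apply, PiLp.smul_apply, smul_eq_mul]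
      ring
    show crs a (g + (ε / 2) • J) ≠ 0
    rw [this, h0, zero_add]
    exact mul_ne_zero (by linarith) hJ
  · exact ⟨g, hg, h0⟩

theorem dense_chi {A : List Plane} (hA : ∀ a ∈ A, a ≠ 0) : Dense {g : Plane | chi A g ≠ 0} := by
  induction A with
  | nil =>
    have : {g : Plane | chi [] g ≠ 0} = Set.univ := by
      ext g
      simp [chi]
    rw [this]
    exact dense_univ
  | cons a A ih =>
    have h1 : {g : Plane | chi (a :: A) g ≠ 0} =
        {g : Plane | crs a g ≠ 0} ∩ {g : Plane | chi A g ≠ 0} := by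
      ext g
      simp [chi_cons]
    rw [h1]
    have ho : IsOpen {g : Plane | chi A g ≠ 0} :=
      isOpen_ne_fun (chi_continuous A) continuous_const
    exact (crs_dense (hA a List.mem_cons_self)).inter_of_isOpen_right
      (ih (fun b hb => hA b (List.mem_cons_of_mem _ hb))) ho

theorem crs_smul (a : Plane) (t : ℝ) (w : Plane) : crs a (t • w) = t * crs a w := by
  simp only [crs, PiLp.smul_apply, smul_eq_mul]
  ring

theorem chi_smul (A : List Plane) (t : ℝ) (w : Plane) :
    chi A (t • w) = t ^ A.length * chi A w := by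
  induction A with
  | nil => simp [chi]
  | cons a A ih =>
    rw [chi_cons, chi_cons, ih, crs_smul, List.length_cons, pow_succ]
    ring

theorem chi_neg {A : List Plane} (hodd : Odd A.length) (w : Plane) : chi A (-w) = - chi A w := by
  have : -w = (-1 : ℝ) • w := by simp
  rw [this, chi_smul, hodd.neg_one_pow]
  ring

/-- Two disks which satisfy the support inequality off the zeros of `chi` meet. -/
theorem meet_of_dense {ι : Type} {c : ι → Plane} {r : ι → ℝ} (hr : ∀ i, 0 ≤ r i)
    {A : List Plane} (hA : ∀ a ∈ A, a ≠ 0) {i j : ι} (hij : i ≠ j)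
    (h : ∀ w : Plane, ‖w‖ = 1 → chi A w ≠ 0 → zeta c r i w + zeta c r j (-w) ≤ 0) :
    (diskGraph c r).Adj i j := by
  apply supp_meet hr hij
  let F : Plane → ℝ := fun g => inner ℝ g (c i - c j) - (r i + r j) * ‖g‖
  have hF : Continuous F := by
    fun_prop
  have hFle : ∀ g, chi A g ≠ 0 → F g ≤ 0 := by
    intro g hg
    by_cases hg0 : g = 0
    · rw [hg0]
      simp [F]
    · have hn : 0 < ‖g‖ := norm_pos_iff.mpr hg0
      have hu : ‖(‖g‖)⁻¹ • g‖ = 1 := by
        rw [norm_smul, norm_inv, norm_norm, inv_mul_cancel₀ hn.ne']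
      have hchi : chi A ((‖g‖)⁻¹ • g) ≠ 0 := by
        rw [chi_smul]
        exact mul_ne_zero (pow_ne_zero _ (inv_ne_zero hn.ne')) hg
      have h1 := h _ hu hchi
      unfold zeta at h1
      rw [inner_neg_left, real_inner_smul_left, real_inner_smul_left] at h1
      have h2 : (‖g‖)⁻¹ * (F g) ≤ 0 := by
        have : (‖g‖)⁻¹ * (F g) = (‖g‖)⁻¹ * inner ℝ g (c i) - r i +
            (-((‖g‖)⁻¹ * inner ℝ g (c j)) - r j) := by
          simp only [F]
          rw [inner_sub_right]
          field_simp
          ring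
        rw [this]
        exact h1
      by_contra hpos
      push Not at hpos
      have := mul_pos (inv_pos.mpr hn) hpos
      linarith
  have hclosed : IsClosed {g | F g ≤ 0} := isClosed_le hF continuous_const
  have hall : ∀ g, F g ≤ 0 := by
    intro g
    have h1 : closure {g : Plane | chi A g ≠ 0} ⊆ {g | F g ≤ 0} :=
      hclosed.closure_subset_iff.mpr (fun g hg => hFle g hg)
    exact h1 ((dense_chi hA) g)
  intro w hw
  have h1 := hall w
  simp only [F] at h1
  rw [hw, mul_one, inner_sub_right] at h1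
  unfold zeta
  rw [inner_neg_left]
  linarith

theorem plus_clique {ι : Type} {c : ι → Plane} {r : ι → ℝ} (hr : ∀ i, 0 ≤ r i) (X : Finset ι)
    (A : List Plane) (hodd : Odd A.length) (hA : ∀ a ∈ A, a ≠ 0) :
    (diskGraph c r).IsClique (Plus c r X A) := by
  intro d hd d' hd' hne
  apply meet_of_dense hr hA hne
  intro w hw hchi
  rcases lt_or_gt_of_ne hchi with hneg | hpos
  · obtain ⟨x, hx, hle⟩ := hd.2 w hw hneg
    have h2 := meet_supp hr (hd'.1 x hx) hw
    linarith
  · have hneg : chi A (-w) < 0 := by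
      rw [chi_neg hodd]
      linarith
    obtain ⟨x, hx, hle⟩ := hd'.2 (-w) (by rw [norm_neg]; exact hw) hneg
    have h2 := meet_supp hr (hd.1 x hx) (w := -w) (by rw [norm_neg]; exact hw)
    rw [neg_neg] at h2
    linarith

theorem minus_clique {ι : Type} {c : ι → Plane} {r : ι → ℝ} (hr : ∀ i, 0 ≤ r i) (X : Finset ι)
    (A : List Plane) (hodd : Odd A.length) (hA : ∀ a ∈ A, a ≠ 0) :
    (diskGraph c r).IsClique (Minus c r X A) := by
  intro d hd d' hd' hne
  apply meet_of_dense hr hA hne
  intro w hw hchi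
  rcases lt_or_gt_of_ne hchi with hneg | hpos
  · have hpos : 0 < chi A (-w) := by
      rw [chi_neg hodd]
      linarith
    obtain ⟨x, hx, hle⟩ := hd'.2 (-w) (by rw [norm_neg]; exact hw) hpos
    have h2 := meet_supp hr (hd.1 x hx) (w := -w) (by rw [norm_neg]; exact hw)
    rw [neg_neg] at h2
    linarith
  · obtain ⟨x, hx, hle⟩ := hd.2 w hw hpos
    have h2 := meet_supp hr (hd'.1 x hx) hw
    linarith

end Pool.Agent.Work.MP_a5c73b_lc.S
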