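import Pool.Agent.Work.MP_a5c73b_lc.S.CoverOne
import Pool.Agent.Work.MP_a5c73b_lc.S.PlusClique
import Pool.Agent.Work.MP_a5c73b_lc.S.DirsCard

/-! MODULE Family (the covering family). -/

set_option autoImplicit false

namespace Pool.Agent.Work.MP_a5c73b_lc.S

theorem reduce_ofFn {T : Type} (L : List T) : ∀ s : ℕ, L.length ≤ s →
    (List.ofFn (fun t : Fin s => L[(t : ℕ)]?)).reduceOption = L := by
  induction L with
  | nil =>
    intro s _
    induction s with
    | zero => simp
    | succ s ih =>
      rw [List.ofFn_succ]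
      simp only [List.getElem?_nil] at ih ⊢
      simpa using ih
  | cons x L ih =>
    intro s hs
    cases s with
    | zero => simp at hs
    | succ s =>
      rw [List.ofFn_succ]
      have := ih s (by simpa using hs)
      simpa using this

theorem cover_family (n : ℕ) (hn : 2 ≤ n) (c : Fin n → Plane) (r : Fin n → ℝ)
    (hr : ∀ i, 0 ≤ r i) (k : ℕ) :
    ∃ F : Finset (Finset (Fin n)), F.card ≤ n ^ (350 * Nat.sqrt k) ∧
      (∀ B ∈ F, ∃ P Q : Finset (Fin n), B = P ∪ Q ∧
        (diskGraph c r).IsClique (P : Set (Fin n)) ∧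
        (diskGraph c r).IsClique (Q : Set (Fin n))) ∧
      ∀ K : Finset (Fin n), (diskGraph c r).IsClique (K : Set (Fin n)) → K.card ≤ k →
        ∃ B ∈ F, K ⊆ B := by
  classical
  set s := 50 * Nat.sqrt k with hs
  have hne : (Finset.univ : Finset (Fin n)).Nonempty := ⟨⟨0, by omega⟩, Finset.mem_univ _⟩
  obtain ⟨hfin, hcard⟩ := dirs_card c r Finset.univ hne
  set D : Finset Plane := hfin.toFinset with hD
  have hDcard : D.card ≤ 4 * n ^ 2 := by
    rw [hD, ← Set.ncard_eq_toFinset_card _ hfin]
    simpa using hcard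
  let XX : (Fin s → Option (Fin n)) → Finset (Fin n) := fun f =>
    Finset.univ.filter (fun i => ∃ t, f t = some i)
  let AA : (Fin s → Option D) → List Plane := fun g =>
    ((List.ofFn g).reduceOption).map Subtype.val
  have hAne : ∀ g, ∀ a ∈ AA g, a ≠ 0 := by
    intro g a ha h0
    obtain ⟨d, _, rfl⟩ := List.mem_map.mp ha
    have h1 : (d : Plane) ∈ dirs c r Finset.univ := hfin.mem_toFinset.mp d.2
    have h2 := h1.1
    rw [h0, norm_zero] at h2
    exact zero_ne_one h2
  let mem : (Fin s → Option (Fin n)) × (Fin s → Option D) → Finset (Fin n) := fun p =>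
    if Odd (AA p.2).length then
      Finset.univ.filter (fun d => d ∈ Plus c r (XX p.1) (AA p.2)) ∪
      Finset.univ.filter (fun d => d ∈ Minus c r (XX p.1) (AA p.2)) else ∅
  refine ⟨Finset.univ.image mem, ?_, ?_, ?_⟩
  · have h1 : (Finset.univ.image mem).card ≤ (n + 1) ^ s * (D.card + 1) ^ s := by
      refine Finset.card_image_le.trans ?_
      rw [Finset.card_univ, Fintype.card_prod, Fintype.card_fun, Fintype.card_fun,
        Fintype.card_option, Fintype.card_option, Fintype.card_fin, Fintype.card_fin,
        Fintype.card_coe]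
    have h2 : n + 1 ≤ n ^ 2 := by nlinarith
    have h3 : D.card + 1 ≤ n ^ 5 := by
      have h4 : 8 ≤ n ^ 3 := by
        calc 8 = 2 ^ 3 := by norm_num
          _ ≤ n ^ 3 := Nat.pow_le_pow_left hn 3
      have h5 : n ^ 5 = n ^ 2 * n ^ 3 := by ring
      have h6 : n ^ 2 * 8 ≤ n ^ 2 * n ^ 3 := Nat.mul_le_mul_left _ h4
      have h7 : 4 ≤ n ^ 2 := by nlinarith
      omega
    calc (Finset.univ.image mem).card ≤ (n + 1) ^ s * (D.card + 1) ^ s := h1
      _ ≤ (n ^ 2) ^ s * (n ^ 5) ^ s :=
        Nat.mul_le_mul (Nat.pow_le_pow_left h2 s) (Nat.pow_le_pow_left h3 s)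
      _ = n ^ (350 * Nat.sqrt k) := by
        rw [← pow_mul, ← pow_mul, ← pow_add, hs]
        congr 1
        ring
  · intro B hB
    obtain ⟨p, _, rfl⟩ := Finset.mem_image.mp hB
    by_cases hodd : Odd (AA p.2).length
    · refine ⟨_, _, if_pos hodd, ?_, ?_⟩
      · have := plus_clique (c := c) hr (XX p.1) (AA p.2) hodd (hAne p.2)
        refine this.subset ?_
        intro d hd
        simpa using hd
      · have := minus_clique (c := c) hr (XX p.1) (AA p.2) hodd (hAne p.2)
        refine this.subset ?_
        intro d hd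
        simpa using hd
    · refine ⟨∅, ∅, ?_, by simp, by simp⟩
      simp only [mem, if_neg hodd, Finset.union_empty]
  · intro K hK hKk
    rcases K.eq_empty_or_nonempty with rfl | hKne
    · exact ⟨mem (fun _ => none, fun _ => none), Finset.mem_image_of_mem _ (Finset.mem_univ _),
        Finset.empty_subset _⟩
    obtain ⟨X, A, _, _, hXc, hodd, hAl, hAd, hcov⟩ := cover_one c r K hKne hK
    have hsq : 50 * Nat.sqrt K.card ≤ s := Nat.mul_le_mul_left _ (Nat.sqrt_le_sqrt hKk)
    have hAD : ∀ a ∈ A, a ∈ D := by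
      intro a ha
      exact hfin.mem_toFinset.mpr (dirs_mono c r (Finset.subset_univ K) (hAd a ha))
    let L : List D := A.attach.map (fun a => ⟨a.1, hAD a.1 a.2⟩)
    have hLmap : L.map Subtype.val = A := by
      simp [L, List.map_map, Function.comp_def]
    have hLlen : L.length ≤ s := by
      simpa [L] using hAl.trans hsq
    have hXlen : X.toList.length ≤ s := by
      rw [Finset.length_toList]
      exact hXc.trans hsq
    let f : Fin s → Option (Fin n) := fun t => X.toList[(t : ℕ)]?
    let g : Fin s → Option D := fun t => L[(t : ℕ)]?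
    have hXX : XX f = X := by
      ext i
      simp only [XX, f, Finset.mem_filter, Finset.mem_univ, true_and]
      constructor
      · rintro ⟨t, ht⟩
        exact Finset.mem_toList.mp (List.mem_of_getElem? ht)
      · intro hi
        obtain ⟨t, ht⟩ := List.mem_iff_getElem?.mp (Finset.mem_toList.mpr hi)
        have htl : t < X.toList.length := by
          by_contra hno
          rw [List.getElem?_eq_none (not_lt.mp hno)] at ht
          simp at ht
        exact ⟨⟨t, htl.trans_le hXlen⟩, ht⟩
    have hAA : AA g = A := by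
      simp only [AA, g]
      rw [reduce_ofFn L s hLlen, hLmap]
    refine ⟨mem (f, g), Finset.mem_image_of_mem _ (Finset.mem_univ _), ?_⟩
    intro d hd
    have h1 := hcov (Finset.mem_coe.mpr hd)
    simp only [mem]
    rw [hAA, hXX, if_pos hodd, Finset.mem_union, Finset.mem_filter, Finset.mem_filter]
    rcases h1 with h1 | h1
    · exact Or.inl ⟨Finset.mem_univ _, h1⟩
    · exact Or.inr ⟨Finset.mem_univ _, h1⟩

end Pool.Agent.Work.MP_a5c73b_lc.S
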