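import Pool.Agent.Work.MP_a5c73b_lc.S.Defs

/-! MODULE Ident (elementary plane geometry). -/

set_option autoImplicit false

namespace Pool.Agent.Work.MP_a5c73b_lc.S

theorem norm_sq_coord (w : Plane) : ‖w‖ ^ 2 = w 0 ^ 2 + w 1 ^ 2 := by
  rw [EuclideanSpace.norm_sq_eq, Fin.sum_univ_two]
  simp [Real.norm_eq_abs, sq_abs]

theorem lam_mul {a w1 w2 : Plane} (ha : ‖a‖ = 1) (h1 : ‖w1‖ = 1) (h2 : ‖w2‖ = 1) :
    lam w1 w2 a * lam w1 w2 (-a) = ‖w1 - w2‖ ^ 2 * (crs a w1 * crs a w2) := by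
  have ea := norm_sq_coord a
  have e1 := norm_sq_coord w1
  have e2 := norm_sq_coord w2
  rw [ha] at ea
  rw [h1] at e1
  rw [h2] at e2
  rw [norm_sq_coord (w1 - w2)]
  unfold lam crs
  simp only [PiLp.sub_apply, PiLp.neg_apply]
  generalize a 0 = p at *
  generalize a 1 = q at *
  generalize w1 0 = x at *
  generalize w1 1 = y at *
  generalize w2 0 = z at *
  generalize w2 1 = u at *
  linear_combination
    (-(z ^ 2 + u ^ 2 - (1 + (x * z + y * u)) / 2 +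
      ((x * z - y * u) * (p ^ 2 - q ^ 2) + (x * u + y * z) * (2 * p * q)) / 2 -
      ((z ^ 2 - u ^ 2) * (p ^ 2 - q ^ 2) + 4 * z * u * p * q) / 2)) * e1 +
    (-(1 - (1 + (x * z + y * u)) / 2 +
      ((x * z - y * u) * (p ^ 2 - q ^ 2) + (x * u + y * z) * (2 * p * q)) / 2 -
      ((x ^ 2 - y ^ 2) * (p ^ 2 - q ^ 2) + 4 * x * y * p * q) / 2)) * e2 +
    ((x ^ 2 + y ^ 2 + z ^ 2 + u ^ 2 - 2 * (x * z + y * u)) * (1 + (x * z + y * u)) / 2) * ea

theorem line_ball {w1 w2 g : Plane} (h1 : ‖w1‖ = 1) (h2 : ‖w2‖ = 1) (hne : w1 ≠ w2)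
    (hg : ‖g‖ ≤ 1) (h : lam w1 w2 g = 0) : g ∈ segment ℝ w1 w2 := by
  have e1 := norm_sq_coord w1
  have e2 := norm_sq_coord w2
  have eg := norm_sq_coord g
  have hd := norm_sq_coord (w2 - w1)
  have hdpos : 0 < ‖w2 - w1‖ ^ 2 := by
    have : 0 < ‖w2 - w1‖ := norm_pos_iff.mpr (sub_ne_zero.mpr hne.symm)
    positivity
  have hg2 : ‖g‖ ^ 2 ≤ 1 := by
    have := norm_nonneg g
    nlinarith
  rw [h1] at e1
  rw [h2] at e2
  rw [hd] at hdpos
  rw [eg] at hg2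
  unfold lam crs at h
  simp only [PiLp.sub_apply] at h hdpos
  set t : ℝ := ((w2 0 - w1 0) * (g 0 - w1 0) + (w2 1 - w1 1) * (g 1 - w1 1)) /
    ((w2 0 - w1 0) ^ 2 + (w2 1 - w1 1) ^ 2) with ht
  have hDne : (w2 0 - w1 0) ^ 2 + (w2 1 - w1 1) ^ 2 ≠ 0 := hdpos.ne'
  have g0 : g 0 = w1 0 + t * (w2 0 - w1 0) := by
    rw [ht]
    field_simp
    linear_combination (-(w2 1 - w1 1)) * h
  have g1 : g 1 = w1 1 + t * (w2 1 - w1 1) := by
    rw [ht]
    field_simp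
    linear_combination (w2 0 - w1 0) * h
  have hkey : t * (1 - t) * ((w2 0 - w1 0) ^ 2 + (w2 1 - w1 1) ^ 2) =
      1 - (g 0 ^ 2 + g 1 ^ 2) := by
    rw [g0, g1]
    linear_combination (t - 1) * e1 - t * e2
  have hnn : 0 ≤ t * (1 - t) := by
    by_contra hneg
    push Not at hneg
    have := mul_neg_of_neg_of_pos hneg hdpos
    rw [hkey] at this
    linarith
  have ht0 : 0 ≤ t := by nlinarith
  have ht1 : t ≤ 1 := by nlinarith
  refine ⟨1 - t, t, by linarith, ht0, by ring, ?_⟩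
  ext i
  fin_cases i
  · simp only [PiLp.add_apply, PiLp.smul_apply, smul_eq_mul, Fin.zero_eta]
    rw [g0]; ring
  · simp only [PiLp.add_apply, PiLp.smul_apply, smul_eq_mul, Fin.mk_one]
    rw [g1]; ring

theorem lam_continuous (w1 w2 : Plane) : Continuous (lam w1 w2) := by
  unfold lam crs
  fun_prop

end Pool.Agent.Work.MP_a5c73b_lc.S
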