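import Mathlib

/-! MODULE LogNear (complex logarithms of quotients of nearby numbers).

If `‖z2 - z1‖ < ‖z1‖` then `‖z2/z1 - 1‖ < 1`, so `0 < (z2/z1).re`, so `|arg (z2/z1)| < π/2`
(`Complex.abs_arg_lt_pi_div_two_iff`) and `z2/z1 ∈ slitPlane`. `log_chain`: the two arguments have a
sum in `(-π, π)`, so `Complex.log_mul` applies to `(z2/z1) * (z3/z2)`. `log_swap`: `log_inv`
(`arg ≠ π`). `log_cont`: continuity of `log` on `slitPlane`. -/

set_option autoImplicit false

namespace Pool.Agent.Work.MP_a5c73b_lc.S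

theorem re_quot_pos {z1 z2 : ℂ} (h : ‖z2 - z1‖ < ‖z1‖) : 0 < (z2 / z1).re := by
  have h0 : 0 < ‖z1‖ := lt_of_le_of_lt (norm_nonneg _) h
  have hz1 : z1 ≠ 0 := norm_pos_iff.1 h0
  have h1 : z2 / z1 - 1 = (z2 - z1) / z1 := by
    field_simp
  have h2 : ‖z2 / z1 - 1‖ < 1 := by
    rw [h1, norm_div, div_lt_one h0]
    exact h
  have h3 := (Complex.abs_re_le_norm (z2 / z1 - 1)).trans_lt h2
  rw [Complex.sub_re, Complex.one_re] at h3
  linarith [(abs_lt.1 h3).1]

theorem log_chain {z1 z2 z3 : ℂ} (h1 : ‖z2 - z1‖ < ‖z1‖) (h2 : ‖z3 - z2‖ < ‖z2‖) :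
    Complex.log (z2 / z1) + Complex.log (z3 / z2) = Complex.log (z3 / z1) := by
  have hr1 := re_quot_pos h1
  have hr2 := re_quot_pos h2
  have hz2 : z2 ≠ 0 := norm_pos_iff.1 (lt_of_le_of_lt (norm_nonneg _) h2)
  have hn1 : z2 / z1 ≠ 0 := fun h => by rw [h] at hr1; simp at hr1
  have hn2 : z3 / z2 ≠ 0 := fun h => by rw [h] at hr2; simp at hr2
  have ha1 := abs_lt.1 (Complex.abs_arg_lt_pi_div_two_iff.2 (Or.inl hr1))
  have ha2 := abs_lt.1 (Complex.abs_arg_lt_pi_div_two_iff.2 (Or.inl hr2))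
  have hpi := Real.pi_pos
  have h3 := Complex.log_mul hn1 hn2 ⟨by linarith, by linarith⟩
  rw [← h3]
  congr 1
  field_simp

theorem log_swap {z1 z2 : ℂ} (h1 : ‖z2 - z1‖ < ‖z1‖) :
    Complex.log (z1 / z2) = - Complex.log (z2 / z1) := by
  have hr1 := re_quot_pos h1
  have ha1 := abs_lt.1 (Complex.abs_arg_lt_pi_div_two_iff.2 (Or.inl hr1))
  have hpi := Real.pi_pos
  rw [← Complex.log_inv _ (by intro h; rw [h] at ha1; linarith), inv_div]

theorem log_cont {T : Type} [TopologicalSpace T] {S : Set T} {f g : T → ℂ}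
    (hf : ContinuousOn f S) (hg : ContinuousOn g S) (h : ∀ t ∈ S, ‖f t - g t‖ < ‖g t‖) :
    ContinuousOn (fun t => Complex.log (f t / g t)) S := by
  refine (hf.div hg ?_).clog ?_
  · intro t ht
    exact norm_pos_iff.1 (lt_of_le_of_lt (norm_nonneg _) (h t ht))
  · intro t ht
    exact Complex.mem_slitPlane_iff.2 (Or.inl (re_quot_pos (h t ht)))

/-- A continuous function on a preconnected set whose exponential is constant is constant. -/
theorem const_of_exp {T : Type} [TopologicalSpace T] {S : Set T} (hS : IsPreconnected S)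
    {f : T → ℂ} (hf : ContinuousOn f S) {e : ℂ} (h : ∀ t ∈ S, Complex.exp (f t) = e) {t t' : T}
    (ht : t ∈ S) (ht' : t' ∈ S) : f t = f t' := by
  have hpi := Real.pi_pos
  have key : ∀ s ∈ S, ∃ n : ℤ, f s = f t' + n * (2 * Real.pi * Complex.I) := by
    intro s hs
    exact Complex.exp_eq_exp_iff_exists_int.1 ((h s hs).trans (h t' ht').symm)
  let g : T → ℝ := fun s => ((f s).im - (f t').im) / (2 * Real.pi)
  have hg : ContinuousOn g S :=
    ((Complex.continuous_im.comp_continuousOn hf).sub continuousOn_const).div_const _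
  have hgn : ∀ s ∈ S, ∃ n : ℤ, g s = n ∧ f s = f t' + n * (2 * Real.pi * Complex.I) := by
    intro s hs
    obtain ⟨n, hn⟩ := key s hs
    refine ⟨n, ?_, hn⟩
    change ((f s).im - (f t').im) / (2 * Real.pi) = n
    rw [hn]
    simp
  have hg' : g t' = 0 := by
    change ((f t').im - (f t').im) / (2 * Real.pi) = 0
    simp
  obtain ⟨n, hn, hfn⟩ := hgn t ht
  have hn0 : n = 0 := by
    by_contra hne
    rcases lt_or_gt_of_ne hne with hlt | hgt
    · have h1 : (n : ℝ) ≤ -1 := by exact_mod_cast Int.le_sub_one_of_lt hlt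
      obtain ⟨s, hs, hs'⟩ := hS.intermediate_value ht ht' hg
        (show (-(1 / 2) : ℝ) ∈ Set.Icc (g t) (g t') by
          rw [hn, hg']
          constructor <;> linarith)
      obtain ⟨m, hm, -⟩ := hgn s hs
      rw [hm] at hs'
      have h2 : (2 * m : ℤ) = -1 := by
        have : (2 * m : ℝ) = -1 := by linarith
        exact_mod_cast this
      omega
    · have h1 : (1 : ℝ) ≤ n := by exact_mod_cast hgt
      obtain ⟨s, hs, hs'⟩ := hS.intermediate_value ht' ht hg
        (show ((1 / 2) : ℝ) ∈ Set.Icc (g t') (g t) by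
          rw [hn, hg']
          constructor <;> linarith)
      obtain ⟨m, hm, -⟩ := hgn s hs
      rw [hm] at hs'
      have h2 : (2 * m : ℤ) = 1 := by
        have : (2 * m : ℝ) = 1 := by linarith
        exact_mod_cast this
      omega
  rw [hfn, hn0]
  simp

end Pool.Agent.Work.MP_a5c73b_lc.S
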