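import Pool.Agent.Work.MP_a5c73b_lc.S.LogNear
import Pool.Agent.Work.MP_a5c73b_lc.S.Defs

/-! MODULE NerveDisk (one sheet). -/

set_option autoImplicit false

namespace Pool.Agent.Work.MP_a5c73b_lc.S

theorem nerve_disk {V : Type} (C : V → Set Plane) (hC : Tess C) (φ : V → ℂ) (ψ L : Plane → ℂ)
    (q : ℂ) (hψ : ContinuousOn ψ (Metric.closedBall 0 1))
    (hL : ContinuousOn L (Metric.closedBall 0 1)) (hφ : ∀ v, 12 < ‖φ v - q‖)
    (hc : ∀ v, ∀ g ∈ C v, ‖ψ g - φ v‖ ≤ 3)
    (hexp : ∀ g : Plane, ‖g‖ ≤ 1 → Complex.exp (L g) = ψ g - q) :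
    ∃ Λ : V → ℂ, ∀ v, ∀ g ∈ C v, Λ v = L g + Complex.log ((φ v - q) / (ψ g - q)) := by
  have hsub : ∀ v, C v ⊆ Metric.closedBall 0 1 := by
    intro v g hg
    rw [mem_closedBall_zero_iff]
    exact hC.sub v g hg
  have hfar : ∀ v, ∀ g ∈ C v, 9 < ‖ψ g - q‖ := by
    intro v g hg
    have h1 := hφ v
    have h2 := hc v g hg
    have h3 : ‖φ v - q‖ ≤ ‖ψ g - q‖ + ‖ψ g - φ v‖ := by
      have : φ v - q = (ψ g - q) - (ψ g - φ v) := by ring
      rw [this]
      exact norm_sub_le _ _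
    linarith
  have hnear : ∀ v, ∀ g ∈ C v, ‖(φ v - q) - (ψ g - q)‖ < ‖ψ g - q‖ := by
    intro v g hg
    have h1 := hfar v g hg
    have h2 := hc v g hg
    have : (φ v - q) - (ψ g - q) = - (ψ g - φ v) := by ring
    rw [this, norm_neg]
    linarith
  choose g0 hg0 using fun v => hC.nonempty v
  refine ⟨fun v => L (g0 v) + Complex.log ((φ v - q) / (ψ (g0 v) - q)), ?_⟩
  intro v g hg
  have hcont : ContinuousOn (fun g => L g + Complex.log ((φ v - q) / (ψ g - q))) (C v) := by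
    apply ContinuousOn.add (hL.mono (hsub v))
    exact log_cont continuousOn_const ((hψ.mono (hsub v)).sub continuousOn_const)
      (fun t ht => hnear v t ht)
  refine const_of_exp (hC.conn v) hcont (e := φ v - q) ?_ (hg0 v) hg
  intro t ht
  have hne : ψ t - q ≠ 0 := by
    intro h0
    have := hfar v t ht
    rw [h0, norm_zero] at this
    linarith
  have hne2 : φ v - q ≠ 0 := by
    intro h0
    have := hφ v
    rw [h0, norm_zero] at this
    linarith
  rw [Complex.exp_add, hexp t (hC.sub v t ht), Complex.exp_log (div_ne_zero hne2 hne)]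
  field_simp

end Pool.Agent.Work.MP_a5c73b_lc.S
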