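import Pool.Agent.Work.MP_a5c73b_lc.S.Defs

/-! MODULE Psi (partition of unity).

`V` is finite, all `C v` are closed subsets of the compact disk `D`, nonempty.
Step 1 (`δ`): there is `δ > 0` such that for all `u, v`:
(a) if some `g ∈ D` has `infDist g (C u) < δ` and `infDist g (C v) < δ` then `StepE C u v`;
(b) if some unit `w` has `infDist w (C u) < δ` and `infDist (-w) (C v) < δ` then `StepO C u v`.
Proof for a fixed pair not in `StepE`: the continuous function
`g ↦ max (infDist g (C u)) (infDist g (C v))` is positive on the compact set `D` (if it is zero, then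
`g ∈ C u ∩ C v` as the sets are closed and nonempty: `IsClosed.mem_iff_infDist_zero`), so it has a
positive minimum. The same for (b) on the unit circle. Take the minimum over the finitely many pairs.
Step 2: `ρ v g = max 0 (δ - infDist g (C v))`, `S g = ∑ v, ρ v g > 0` on `D` (every `g ∈ D` lies in
some `C v`, there `ρ v g = δ`), `ψ g = (∑ v, (ρ v g : ℂ) * φ v) / S g`.
Step 3: for `g ∈ C u`: `ψ g - φ u = ∑ v, ρ v g * (φ v - φ u) / S g`, and `ρ v g > 0` forces
`infDist g (C v) < δ`, `infDist g (C u) = 0 < δ`, so `StepE C v u`, `‖φ v - φ u‖ ≤ 3`.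
Step 4: `ψ w + ψ (-w) = ∑ u, ∑ v, ρ u w * ρ v (-w) * (φ u + φ v) / (S w * S (-w))`; nonzero
coefficients force `StepO C u v`, so the norm is `≤ 3`. -/

set_option autoImplicit false

namespace Pool.Agent.Work.MP_a5c73b_lc.S

private theorem psi_min {X : Type} [TopologicalSpace X] {K : Set X} (hK : IsCompact K) (hne : K.Nonempty)
    {f : X → ℝ} (hf : Continuous f) (hpos : ∀ x ∈ K, 0 < f x) : ∃ δ > 0, ∀ x ∈ K, δ ≤ f x := by
  obtain ⟨x0, hx0, h⟩ := hK.exists_isMinOn hne hf.continuousOn
  exact ⟨f x0, hpos x0 hx0, fun x hx => h hx⟩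

private theorem psi_pos {V : Type} (C : V → Set Plane) (hC : Tess C) {u : V} {g : Plane}
    (h : g ∉ C u) : 0 < Metric.infDist g (C u) := by
  rcases (Metric.infDist_nonneg (x := g) (s := C u)).lt_or_eq with h1 | h1
  · exact h1
  · exact absurd (((hC.closed u).mem_iff_infDist_zero (hC.nonempty u)).2 h1.symm) h

private theorem psi_stepE {V : Type} (C : V → Set Plane) (hC : Tess C) (u v : V) :
    ∃ δ > 0, ∀ g : Plane, ‖g‖ ≤ 1 → Metric.infDist g (C u) < δ → Metric.infDist g (C v) < δ →
      StepE C u v := by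
  by_cases hs : StepE C u v
  · exact ⟨1, one_pos, fun _ _ _ _ => hs⟩
  · have hc : Continuous (fun g : Plane => max (Metric.infDist g (C u)) (Metric.infDist g (C v))) :=
      (Metric.continuous_infDist_pt _).max (Metric.continuous_infDist_pt _)
    obtain ⟨δ, hδ, h⟩ := psi_min (isCompact_closedBall (0 : Plane) 1) ⟨0, by simp⟩ hc (by
      intro g _
      by_contra hcon
      rw [not_lt] at hcon
      have h1 : Metric.infDist g (C u) ≤ 0 := (le_max_left _ _).trans hcon
      have h2 : Metric.infDist g (C v) ≤ 0 := (le_max_right _ _).trans hcon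
      apply hs
      refine ⟨g, ?_, ?_⟩
      · by_contra hg
        exact absurd (psi_pos C hC hg) (not_lt.2 h1)
      · by_contra hg
        exact absurd (psi_pos C hC hg) (not_lt.2 h2))
    refine ⟨δ, hδ, fun g hg h1 h2 => ?_⟩
    exfalso
    have := h g (by rw [Metric.mem_closedBall, dist_zero_right]; exact hg)
    exact absurd (max_lt h1 h2) (not_lt.2 this)

private theorem psi_stepO {V : Type} (C : V → Set Plane) (hC : Tess C) (u v : V) :
    ∃ δ > 0, ∀ g : Plane, ‖g‖ = 1 → Metric.infDist g (C u) < δ → Metric.infDist (-g) (C v) < δ →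
      StepO C u v := by
  by_cases hs : StepO C u v
  · exact ⟨1, one_pos, fun _ _ _ _ => hs⟩
  · have hc : Continuous (fun g : Plane =>
        max (Metric.infDist g (C u)) (Metric.infDist (-g) (C v))) :=
      (Metric.continuous_infDist_pt _).max ((Metric.continuous_infDist_pt _).comp continuous_neg)
    have hne : (Metric.sphere (0 : Plane) 1).Nonempty := by
      refine ⟨e0, ?_⟩
      rw [mem_sphere_zero_iff_norm]
      unfold e0
      simp
    obtain ⟨δ, hδ, h⟩ := psi_min (isCompact_sphere (0 : Plane) 1) hne hc (by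
      intro g hg1
      rw [mem_sphere_zero_iff_norm] at hg1
      by_contra hcon
      rw [not_lt] at hcon
      have h1 : Metric.infDist g (C u) ≤ 0 := (le_max_left _ _).trans hcon
      have h2 : Metric.infDist (-g) (C v) ≤ 0 := (le_max_right _ _).trans hcon
      apply hs
      refine ⟨g, hg1, ?_, ?_⟩
      · by_contra hg
        exact absurd (psi_pos C hC hg) (not_lt.2 h1)
      · by_contra hg
        exact absurd (psi_pos C hC hg) (not_lt.2 h2))
    refine ⟨δ, hδ, fun g hg h1 h2 => ?_⟩
    exfalso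
    have := h g (by rw [mem_sphere_zero_iff_norm]; exact hg)
    exact absurd (max_lt h1 h2) (not_lt.2 this)

theorem exists_psi {V : Type} [Finite V] (C : V → Set Plane) (hC : Tess C) (φ : V → ℂ)
    (hE : ∀ u v, StepE C u v → ‖φ u - φ v‖ ≤ 3) (hO : ∀ u v, StepO C u v → ‖φ u + φ v‖ ≤ 3) :
    ∃ ψ : Plane → ℂ, ContinuousOn ψ (Metric.closedBall 0 1) ∧
      (∀ v, ∀ g ∈ C v, ‖ψ g - φ v‖ ≤ 3) ∧ ∀ w : Plane, ‖w‖ = 1 → ‖ψ w + ψ (-w)‖ ≤ 3 := by
  classical
  haveI := Fintype.ofFinite V
  obtain ⟨v0, -⟩ := hC.cover 0 (by simp)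
  haveI : Nonempty V := ⟨v0⟩
  choose dE hdE hdE' using psi_stepE C hC
  choose dO hdO hdO' using psi_stepO C hC
  obtain ⟨p0, hp0⟩ := Finite.exists_min (fun p : V × V => min (dE p.1 p.2) (dO p.1 p.2))
  set δ : ℝ := min (dE p0.1 p0.2) (dO p0.1 p0.2) with hδdef
  have hδ : 0 < δ := lt_min (hdE _ _) (hdO _ _)
  have hδE : ∀ u v, δ ≤ dE u v := fun u v => (hp0 (u, v)).trans (min_le_left _ _)
  have hδO : ∀ u v, δ ≤ dO u v := fun u v => (hp0 (u, v)).trans (min_le_right _ _)
  have kE : ∀ u v, ∀ g : Plane, ‖g‖ ≤ 1 → Metric.infDist g (C u) < δ →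
      Metric.infDist g (C v) < δ → StepE C u v := fun u v g hg h1 h2 =>
    hdE' u v g hg (h1.trans_le (hδE u v)) (h2.trans_le (hδE u v))
  have kO : ∀ u v, ∀ g : Plane, ‖g‖ = 1 → Metric.infDist g (C u) < δ →
      Metric.infDist (-g) (C v) < δ → StepO C u v := fun u v g hg h1 h2 =>
    hdO' u v g hg (h1.trans_le (hδO u v)) (h2.trans_le (hδO u v))
  set ρ : V → Plane → ℝ := fun v g => max 0 (δ - Metric.infDist g (C v)) with hρ
  have ρ0 : ∀ v g, 0 ≤ ρ v g := fun v g => le_max_left _ _
  have ρpos : ∀ v g, ρ v g ≠ 0 → Metric.infDist g (C v) < δ := by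
    intro v g h
    by_contra hc
    rw [not_lt] at hc
    apply h
    rw [hρ]
    exact max_eq_left (by linarith)
  have ρc : ∀ v, Continuous (ρ v) := fun v =>
    continuous_const.max (continuous_const.sub (Metric.continuous_infDist_pt _))
  set T : Plane → ℝ := fun g => ∑ v, ρ v g with hT
  have Tc : Continuous T := continuous_finsetSum _ (fun v _ => ρc v)
  have Tpos : ∀ g : Plane, ‖g‖ ≤ 1 → 0 < T g := by
    intro g hg
    obtain ⟨v, hv⟩ := hC.cover g hg
    have h1 : ρ v g = δ := by
      have : Metric.infDist g (C v) = 0 := Metric.infDist_zero_of_mem hv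
      rw [hρ]
      simp only
      rw [this, sub_zero]
      exact max_eq_right hδ.le
    have h2 : ρ v g ≤ T g := Finset.single_le_sum (f := fun v => ρ v g) (fun v _ => ρ0 v g)
      (Finset.mem_univ v)
    linarith
  set w' : V → Plane → ℝ := fun v g => ρ v g / T g with hw'
  have w0 : ∀ v, ∀ g : Plane, ‖g‖ ≤ 1 → 0 ≤ w' v g := fun v g hg =>
    div_nonneg (ρ0 v g) (Tpos g hg).le
  have wsum : ∀ g : Plane, ‖g‖ ≤ 1 → ∑ v, w' v g = 1 := by
    intro g hg
    rw [hw']
    simp only
    rw [← Finset.sum_div]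
    exact div_self (Tpos g hg).ne'
  have wpos : ∀ v g, w' v g ≠ 0 → Metric.infDist g (C v) < δ := by
    intro v g h
    apply ρpos v g
    intro h0
    apply h
    rw [hw']
    simp only
    rw [h0, zero_div]
  refine ⟨fun g => ∑ v, (w' v g : ℂ) * φ v, ?_, ?_, ?_⟩
  · apply continuousOn_finsetSum
    intro v _
    apply ContinuousOn.mul _ continuousOn_const
    apply Complex.continuous_ofReal.comp_continuousOn
    apply ContinuousOn.div (ρc v).continuousOn Tc.continuousOn
    intro g hg
    rw [Metric.mem_closedBall, dist_zero_right] at hg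
    exact (Tpos g hg).ne'
  · intro u g hg
    have hg1 := hC.sub u g hg
    have e : (∑ v, (w' v g : ℂ) * φ v) - φ u = ∑ v, (w' v g : ℂ) * (φ v - φ u) := by
      have h1 : (∑ v, (w' v g : ℂ)) = 1 := by
        rw [← Complex.ofReal_sum, wsum g hg1, Complex.ofReal_one]
      simp only [mul_sub]
      rw [Finset.sum_sub_distrib, ← Finset.sum_mul, h1, one_mul]
    simp only
    rw [e]
    calc ‖∑ v, (w' v g : ℂ) * (φ v - φ u)‖ ≤ ∑ v, ‖(w' v g : ℂ) * (φ v - φ u)‖ :=
          norm_sum_le _ _
      _ ≤ ∑ v, w' v g * 3 := by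
          apply Finset.sum_le_sum
          intro v _
          rw [norm_mul, Complex.norm_real, Real.norm_of_nonneg (w0 v g hg1)]
          by_cases h : w' v g = 0
          · rw [h]
            simp
          · apply mul_le_mul_of_nonneg_left _ (w0 v g hg1)
            apply hE
            apply kE v u g hg1 (wpos v g h)
            rw [Metric.infDist_zero_of_mem hg]
            exact hδ
      _ = 3 := by rw [← Finset.sum_mul, wsum g hg1, one_mul]
  · intro g hg
    have hg1 : ‖g‖ ≤ 1 := hg.le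
    have hg2 : ‖-g‖ ≤ 1 := by
      rw [norm_neg]
      exact hg.le
    have s1 : (∑ v, (w' v g : ℂ)) = 1 := by
      rw [← Complex.ofReal_sum, wsum g hg1, Complex.ofReal_one]
    have s2 : (∑ v, (w' v (-g) : ℂ)) = 1 := by
      rw [← Complex.ofReal_sum, wsum (-g) hg2, Complex.ofReal_one]
    have e : (∑ v, (w' v g : ℂ) * φ v) + (∑ v, (w' v (-g) : ℂ) * φ v) =
        ∑ u, ∑ v, (w' u g : ℂ) * (w' v (-g) : ℂ) * (φ u + φ v) := by
      have h1 : ∀ u, ∑ v, (w' u g : ℂ) * (w' v (-g) : ℂ) * (φ u + φ v) =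
          (w' u g : ℂ) * φ u + (w' u g : ℂ) * ∑ v, (w' v (-g) : ℂ) * φ v := by
        intro u
        have h2 : ∀ v, (w' u g : ℂ) * (w' v (-g) : ℂ) * (φ u + φ v) =
            ((w' u g : ℂ) * φ u) * (w' v (-g) : ℂ) +
              (w' u g : ℂ) * ((w' v (-g) : ℂ) * φ v) := fun v => by ring
        rw [Finset.sum_congr rfl (fun v _ => h2 v), Finset.sum_add_distrib, ← Finset.mul_sum,
          ← Finset.mul_sum, s2, mul_one]
      rw [Finset.sum_congr rfl (fun u _ => h1 u), Finset.sum_add_distrib, ← Finset.sum_mul, s1,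
        one_mul]
    simp only
    rw [e]
    calc ‖∑ u, ∑ v, (w' u g : ℂ) * (w' v (-g) : ℂ) * (φ u + φ v)‖
        ≤ ∑ u, ‖∑ v, (w' u g : ℂ) * (w' v (-g) : ℂ) * (φ u + φ v)‖ := norm_sum_le _ _
      _ ≤ ∑ u, ∑ v, ‖(w' u g : ℂ) * (w' v (-g) : ℂ) * (φ u + φ v)‖ :=
          Finset.sum_le_sum (fun u _ => norm_sum_le _ _)
      _ ≤ ∑ u, ∑ v, w' u g * w' v (-g) * 3 := by
          apply Finset.sum_le_sum
          intro u _
          apply Finset.sum_le_sum
          intro v _
          rw [norm_mul, norm_mul, Complex.norm_real, Complex.norm_real,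
            Real.norm_of_nonneg (w0 u g hg1), Real.norm_of_nonneg (w0 v (-g) hg2)]
          by_cases h : w' u g = 0
          · rw [h]
            simp
          by_cases h' : w' v (-g) = 0
          · rw [h']
            simp
          · apply mul_le_mul_of_nonneg_left _ (mul_nonneg (w0 u g hg1) (w0 v (-g) hg2))
            apply hO
            exact kO u v g hg (wpos u g h) (wpos v (-g) h')
      _ = 3 := by
          have h1 : ∀ u, ∑ v, w' u g * w' v (-g) * 3 = w' u g * 3 := by
            intro u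
            rw [← Finset.sum_mul, ← Finset.mul_sum, wsum (-g) hg2, mul_one]
          rw [Finset.sum_congr rfl (fun u _ => h1 u), ← Finset.sum_mul, wsum g hg1, one_mul]

end Pool.Agent.Work.MP_a5c73b_lc.S
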