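import Pool.Agent.Work.MP_a5c73b_lc.S.DiskLog
import Pool.Agent.Work.MP_a5c73b_lc.S.Psi
import Pool.Agent.Work.MP_a5c73b_lc.S.NerveDisk

/-! MODULE Nerve (the logarithm on the double cover).

Take `ψ` from `exists_psi`. For `g ∈ D` pick `v` with `g ∈ C v`: `‖ψ g - q‖ ≥ ‖φ v - q‖ - 3 > 9` and
`‖-ψ g - q‖ = ‖ψ g + q‖ > 9`. Let `L0`, `L1` be continuous logarithms (`disk_log`) of `ψ - q` and of
`-ψ - q` on `D`. On the unit circle (preconnected: `isPreconnected_sphere`, rank 2 > 1)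
`E w = L1 (-w) - L0 w - log ((-ψ (-w) - q) / (ψ w - q))` is continuous
(`‖(-ψ (-w) - q) - (ψ w - q)‖ ≤ 3 < 9`) and `exp (E w) = 1`, so it is a constant `e` with
`exp e = 1` (`const_of_exp`). Replace `L1` by `L1 - e` (still a logarithm): now
(*) `L1 (-w) - L0 w = log ((-ψ (-w) - q) / (ψ w - q))` for all unit `w`.
Apply `nerve_disk` to `(φ, ψ, L0)` and to `(-φ, -ψ, L1)`: get `Λ0`, `Λ1`, and put
`Λ (v, false) = Λ0 v`, `Λ (v, true) = Λ1 v`. With `sg false = 1`, `sg true = -1`.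

Even edge `(u,b) - (v,b)`, common point `g`: `Λ v - Λ u = log ((φ v - q)/(ψ g - q)) -
log ((φ u - q)/(ψ g - q)) = log ((φ v - q)/(φ u - q))` by `log_swap` and `log_chain` (all norms of
the `z`s are `> 9`, the differences are `≤ 3`), with `φ, ψ` replaced by `-φ, -ψ` for `b = true`.
Odd edge from `(u,false)` to `(v,true)`, `w ∈ C u`, `-w ∈ C v`:
`Λ1 v - Λ0 u = [L1 (-w) + log ((-φ v - q)/(-ψ (-w) - q))] - [L0 w + log ((φ u - q)/(ψ w - q))]`
and (*) and three applications of `log_chain`/`log_swap` (chain `φ u - q`, `ψ w - q`,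
`-ψ (-w) - q`, `-φ v - q`; each difference of neighbours is `≤ 3`, the difference of the ends and of
distance two is `≤ 6 < 9`) give `log ((-φ v - q)/(φ u - q))`. Odd edge from `(u,true)` to
`(v,false)`: it is the reverse of an edge of the previous kind (`StepO C u v` gives `StepO C v u`),
use `log_swap` (difference `‖φ u + φ v‖ ≤ 3` by `hO`). -/

set_option autoImplicit false

namespace Pool.Agent.Work.MP_a5c73b_lc.S

theorem nerve {V : Type} [Finite V] (C : V → Set Plane) (hC : Tess C) (φ : V → ℂ)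
    (hE : ∀ u v, StepE C u v → ‖φ u - φ v‖ ≤ 3) (hO : ∀ u v, StepO C u v → ‖φ u + φ v‖ ≤ 3)
    (q : ℂ) (h1 : ∀ v, 12 < ‖φ v - q‖) (h2 : ∀ v, 12 < ‖φ v + q‖) :
    ∃ Λ : V × Bool → ℂ, ∀ x y : V × Bool, (dcover C).Adj x y →
      Λ y - Λ x = Complex.log ((sg y.2 * φ y.1 - q) / (sg x.2 * φ x.1 - q)) := by
  obtain ⟨ψ, hψ, hψφ, hψa⟩ := exists_psi C hC φ hE hO
  have h2' : ∀ v, 12 < ‖-φ v - q‖ := by
    intro v
    have h3 : -φ v - q = -(φ v + q) := by ring
    rw [h3, norm_neg]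
    exact h2 v
  have hmem : ∀ g : Plane, g ∈ Metric.closedBall (0 : Plane) 1 ↔ ‖g‖ ≤ 1 := fun g => by
    rw [mem_closedBall_zero_iff]
  have hF0 : ∀ g : Plane, ‖g‖ ≤ 1 → 9 < ‖ψ g - q‖ := by
    intro g hg
    obtain ⟨v, hv⟩ := hC.cover g hg
    have h3 := hψφ v g hv
    have h4 : ‖φ v - q‖ ≤ ‖ψ g - q‖ + ‖ψ g - φ v‖ := by
      have h5 : φ v - q = (ψ g - q) - (ψ g - φ v) := by ring
      rw [h5]
      exact norm_sub_le _ _
    linarith [h1 v]
  have hF1 : ∀ g : Plane, ‖g‖ ≤ 1 → 9 < ‖-ψ g - q‖ := by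
    intro g hg
    obtain ⟨v, hv⟩ := hC.cover g hg
    have h3 := hψφ v g hv
    have h4 : ‖-φ v - q‖ ≤ ‖-ψ g - q‖ + ‖ψ g - φ v‖ := by
      have h5 : -φ v - q = (-ψ g - q) + (ψ g - φ v) := by ring
      rw [h5]
      exact norm_add_le _ _
    linarith [h2' v]
  have hc0 : ContinuousOn (fun g => ψ g - q) (Metric.closedBall (0 : Plane) 1) :=
    hψ.sub continuousOn_const
  have hc1 : ContinuousOn (fun g => -ψ g - q) (Metric.closedBall (0 : Plane) 1) :=
    hψ.neg.sub continuousOn_const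
  have hne : ∀ z : ℂ, 9 < ‖z‖ → z ≠ 0 := by
    intro z hz h
    rw [h, norm_zero] at hz
    linarith
  obtain ⟨L0, hL0, hL0e⟩ := disk_log (fun g => ψ g - q) hc0 (fun g hg => hne _ (hF0 g hg))
  obtain ⟨L1', hL1', hL1e'⟩ := disk_log (fun g => -ψ g - q) hc1 (fun g hg => hne _ (hF1 g hg))
  -- the constant
  have hsph : ∀ w ∈ Metric.sphere (0 : Plane) 1, ‖w‖ = 1 := fun w hw => by
    simpa using hw
  have hsub : Metric.sphere (0 : Plane) 1 ⊆ Metric.closedBall 0 1 := Metric.sphere_subset_closedBall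
  have hneg : Set.MapsTo (fun w : Plane => -w) (Metric.sphere (0 : Plane) 1) (Metric.closedBall 0 1) := by
    intro w hw
    rw [hmem, norm_neg, hsph w hw]
  have hcneg1 : ContinuousOn (fun w => -ψ (-w) - q) (Metric.sphere (0 : Plane) 1) :=
    hc1.comp continuous_neg.continuousOn hneg
  have hcL1 : ContinuousOn (fun w => L1' (-w)) (Metric.sphere (0 : Plane) 1) :=
    hL1'.comp continuous_neg.continuousOn hneg
  have hdiff : ∀ w : Plane, ‖w‖ = 1 → ‖(-ψ (-w) - q) - (ψ w - q)‖ ≤ 3 := by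
    intro w hw
    have h5 : (-ψ (-w) - q) - (ψ w - q) = -(ψ w + ψ (-w)) := by ring
    rw [h5, norm_neg]
    exact hψa w hw
  have hcE : ContinuousOn (fun w : Plane => L1' (-w) - L0 w -
      Complex.log ((-ψ (-w) - q) / (ψ w - q))) (Metric.sphere (0 : Plane) 1) := by
    refine (hcL1.sub (hL0.mono hsub)).sub ?_
    refine log_cont hcneg1 (hc0.mono hsub) ?_
    intro w hw
    have := hF0 w (hsph w hw).le
    linarith [hdiff w (hsph w hw)]
  have hEe : ∀ w ∈ Metric.sphere (0 : Plane) 1, Complex.exp (L1' (-w) - L0 w -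
      Complex.log ((-ψ (-w) - q) / (ψ w - q))) = 1 := by
    intro w hw
    have hw1 := hsph w hw
    have hn0 := hne _ (hF0 w hw1.le)
    have hn1 := hne _ (hF1 (-w) (by rw [norm_neg]; exact hw1.le))
    rw [Complex.exp_sub, Complex.exp_sub, hL1e' (-w) (by rw [norm_neg]; exact hw1.le),
      hL0e w hw1.le, Complex.exp_log (div_ne_zero hn1 hn0)]
    exact div_self (div_ne_zero hn1 hn0)
  have hpre : IsPreconnected (Metric.sphere (0 : Plane) 1) := by
    refine isPreconnected_sphere ?_ 0 1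
    rw [← Module.finrank_eq_rank, finrank_euclideanSpace_fin]
    norm_num
  have he0 : ‖e0‖ = 1 := by
    simp [e0]
  have he0m : e0 ∈ Metric.sphere (0 : Plane) 1 := by
    simpa using he0
  obtain ⟨e, he⟩ : ∃ e : ℂ, e = L1' (-e0) - L0 e0 - Complex.log ((-ψ (-e0) - q) / (ψ e0 - q)) := ⟨_, rfl⟩
  have hconst : ∀ w : Plane, ‖w‖ = 1 → L1' (-w) - L0 w -
      Complex.log ((-ψ (-w) - q) / (ψ w - q)) = e := by
    intro w hw
    rw [he]
    exact const_of_exp hpre hcE hEe (by simpa using hw) he0m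
  have hexpe : Complex.exp e = 1 := by
    rw [he]
    exact hEe e0 he0m
  have hstar : ∀ w : Plane, ‖w‖ = 1 → (L1' (-w) - e) - L0 w =
      Complex.log ((-ψ (-w) - q) / (ψ w - q)) := by
    intro w hw
    rw [← hconst w hw]
    ring
  obtain ⟨Λ0, hΛ0⟩ := nerve_disk C hC φ ψ L0 q hψ hL0 h1 hψφ hL0e
  obtain ⟨Λ1, hΛ1⟩ := nerve_disk C hC (fun v => -φ v) (fun g => -ψ g) (fun g => L1' g - e) q
    hψ.neg (hL1'.sub continuousOn_const) h2' (by
      intro v g hg
      have h5 : -ψ g - -φ v = -(ψ g - φ v) := by ring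
      rw [h5, norm_neg]
      exact hψφ v g hg) (by
      intro g hg
      rw [Complex.exp_sub, hexpe, div_one]
      exact hL1e' g hg)
  -- even edges
  have heven : ∀ (a b z : ℂ), 9 < ‖z‖ → 12 < ‖a‖ → ‖z - a‖ ≤ 3 → ‖z - b‖ ≤ 3 →
      Complex.log (b / z) - Complex.log (a / z) = Complex.log (b / a) := by
    intro a b z hz ha hza hzb
    have hs1 : ‖a - z‖ < ‖z‖ := by
      rw [norm_sub_rev]
      linarith
    have hs2 : ‖b - z‖ < ‖z‖ := by
      rw [norm_sub_rev]
      linarith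
    have hs3 : ‖z - a‖ < ‖a‖ := by linarith
    rw [← log_chain hs3 hs2, log_swap hs1]
    ring
  -- odd edges from sheet 0 to sheet 1
  have hodd : ∀ (u v : V) (w : Plane), ‖w‖ = 1 → w ∈ C u → -w ∈ C v →
      Λ1 v - Λ0 u = Complex.log ((-φ v - q) / (φ u - q)) := by
    intro u v w hw hwu hwv
    rw [hΛ0 u w hwu, hΛ1 v (-w) hwv]
    have hk := hstar w hw
    have hw' : ‖-w‖ ≤ 1 := by rw [norm_neg]; exact hw.le
    have g0 := hF0 w hw.le
    have g1 := hF1 (-w) hw'
    have gA := h1 u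
    have d1 : ‖(ψ w - q) - (φ u - q)‖ ≤ 3 := by
      have h5 : (ψ w - q) - (φ u - q) = ψ w - φ u := by ring
      rw [h5]
      exact hψφ u w hwu
    have d2 := hdiff w hw
    have d3 : ‖(-φ v - q) - (-ψ (-w) - q)‖ ≤ 3 := by
      have h5 : (-φ v - q) - (-ψ (-w) - q) = ψ (-w) - φ v := by ring
      rw [h5]
      exact hψφ v (-w) hwv
    have d4 : ‖(-ψ (-w) - q) - (φ u - q)‖ ≤ 6 := by
      have h5 : (-ψ (-w) - q) - (φ u - q) = ((-ψ (-w) - q) - (ψ w - q)) + ((ψ w - q) - (φ u - q)) := by ring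
      rw [h5]
      exact (norm_add_le _ _).trans (by linarith)
    have c1 : Complex.log ((ψ w - q) / (φ u - q)) = - Complex.log ((φ u - q) / (ψ w - q)) := by
      refine log_swap ?_
      rw [norm_sub_rev]
      linarith
    have c2 : Complex.log ((ψ w - q) / (φ u - q)) + Complex.log ((-ψ (-w) - q) / (ψ w - q)) =
        Complex.log ((-ψ (-w) - q) / (φ u - q)) := log_chain (by linarith) (by linarith)
    have c3 : Complex.log ((-ψ (-w) - q) / (φ u - q)) + Complex.log ((-φ v - q) / (-ψ (-w) - q)) =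
        Complex.log ((-φ v - q) / (φ u - q)) := log_chain (by linarith) (by linarith)
    rw [← c3, ← c2, c1, ← hk]
    ring
  refine ⟨fun x => if x.2 then Λ1 x.1 else Λ0 x.1, ?_⟩
  rintro ⟨u, b⟩ ⟨v, b'⟩ ⟨-, hadj⟩
  rcases hadj with ⟨hb, g, hgu, hgv⟩ | ⟨hb, w, hw, hwu, hwv⟩
  · obtain rfl : b = b' := hb
    have hg := hC.sub u g hgu
    cases b
    · simp only [sg, Bool.false_eq_true, if_false, one_mul]
      rw [hΛ0 u g hgu, hΛ0 v g hgv, ← heven (φ u - q) (φ v - q) (ψ g - q) (hF0 g hg) (h1 u)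
        (by
          have h5 : (ψ g - q) - (φ u - q) = ψ g - φ u := by ring
          rw [h5]
          exact hψφ u g hgu)
        (by
          have h5 : (ψ g - q) - (φ v - q) = ψ g - φ v := by ring
          rw [h5]
          exact hψφ v g hgv)]
      ring
    · simp only [sg, if_true, neg_mul, one_mul]
      rw [hΛ1 u g hgu, hΛ1 v g hgv, ← heven (-φ u - q) (-φ v - q) (-ψ g - q) (hF1 g hg) (h2' u)
        (by
          have h5 : (-ψ g - q) - (-φ u - q) = -(ψ g - φ u) := by ring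
          rw [h5, norm_neg]
          exact hψφ u g hgu)
        (by
          have h5 : (-ψ g - q) - (-φ v - q) = -(ψ g - φ v) := by ring
          rw [h5, norm_neg]
          exact hψφ v g hgv)]
      ring
  · cases b <;> cases b'
    · exact absurd rfl hb
    · simp only [sg, Bool.false_eq_true, if_false, if_true, neg_mul, one_mul]
      exact hodd u v w hw hwu hwv
    · simp only [sg, Bool.false_eq_true, if_false, if_true, neg_mul, one_mul]
      have h5 := hodd v u (-w) (by rw [norm_neg]; exact hw) hwv (by rwa [neg_neg])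
      have h6 : Complex.log ((φ v - q) / (-φ u - q)) = - Complex.log ((-φ u - q) / (φ v - q)) := by
        refine log_swap ?_
        have h7 : (-φ u - q) - (φ v - q) = -(φ u + φ v) := by ring
        rw [h7, norm_neg]
        linarith [hO u v ⟨w, hw, hwu, hwv⟩, h1 v]
      rw [h6, ← h5]
      ring
    · exact absurd rfl hb

end Pool.Agent.Work.MP_a5c73b_lc.S
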