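import Pool.Agent.Work.MP_a5c73b_lc.S.Fpt

/-! Random samples of a clique yield certificates which cover almost all of the clique. -/

set_option autoImplicit false

namespace Pool.Agent.Work.MP_a5c73b_lc.S

open Classical in
/-- The disks of `K` outside `Plus ∪ Minus`. -/
noncomputable def fail {ι : Type} (c : ι → Plane) (r : ι → ℝ) (K X : Finset ι)
    (A : List Plane) : Finset ι :=
  K.filter (fun e => e ∉ Plus c r X A ∪ Minus c r X A)

/-- A symbol for a direction: `none` for `e0`, otherwise two positions and two signs. -/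
abbrev Sym (T : ℕ) : Type := Option ((Fin T × Fin T) × (Bool × Bool))

/-- The value of a symbol at a sequence of disks. -/
noncomputable def symVal {ι : Type} (c : ι → Plane) (r : ι → ℝ) {T : ℕ} (ρ : Fin T → ι) :
    Sym T → Plane
  | none => e0
  | some z => cand (c (ρ z.1.1) - c (ρ z.1.2)) |r (ρ z.1.1) - r (ρ z.1.2)| z.2.1 z.2.2

/-- The positions used by a symbol. -/
def symPos {T : ℕ} : Sym T → Finset (Fin T)
  | none => ∅
  | some z => {z.1.1, z.1.2}

theorem symPos_card {T : ℕ} (z : Sym T) : (symPos z).card ≤ 2 := by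
  cases z with
  | none => simp [symPos]
  | some z => exact Finset.card_le_two

theorem symVal_congr {ι : Type} (c : ι → Plane) (r : ι → ℝ) {T : ℕ} {ρ ρ' : Fin T → ι}
    (z : Sym T) (h : ∀ t ∈ symPos z, ρ t = ρ' t) : symVal c r ρ z = symVal c r ρ' z := by
  cases z with
  | none => rfl
  | some z =>
    have h1 : ρ z.1.1 = ρ' z.1.1 := h _ (by simp [symPos])
    have h2 : ρ z.1.2 = ρ' z.1.2 := h _ (by simp [symPos])
    simp only [symVal, h1, h2]

/-- A code: positions of the elements of `X` and symbols of the directions. -/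
abbrev Code (s T : ℕ) : Type := (Fin s → Option (Fin T)) × (Fin s → Option (Sym T))

open Classical in
/-- The set `X` of a code. -/
noncomputable def codeX {ι : Type} {s T : ℕ} (ρ : Fin T → ι) (κ : Code s T) : Finset ι :=
  (Finset.univ.filter (fun t => ∃ u, κ.1 u = some t)).image ρ

/-- The list `A` of a code. -/
noncomputable def codeA {ι : Type} (c : ι → Plane) (r : ι → ℝ) {s T : ℕ} (ρ : Fin T → ι)
    (κ : Code s T) : List Plane :=
  ((List.ofFn κ.2).reduceOption).map (symVal c r ρ)

open Classical in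
/-- The positions used by a code. -/
noncomputable def codeU {s T : ℕ} (κ : Code s T) : Finset (Fin T) :=
  Finset.univ.filter (fun t => (∃ u, κ.1 u = some t) ∨ ∃ u z, κ.2 u = some z ∧ t ∈ symPos z)

theorem codeU_card {s T : ℕ} (κ : Code s T) : (codeU κ).card ≤ 3 * s := by
  classical
  have h1 : codeU κ ⊆ Finset.univ.biUnion (fun u : Fin s =>
      (match κ.1 u with | none => ∅ | some t => {t}) ∪
      (match κ.2 u with | none => ∅ | some z => symPos z)) := by
    intro t ht
    rw [Finset.mem_biUnion]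
    rcases (Finset.mem_filter.mp ht).2 with ⟨u, hu⟩ | ⟨u, z, hu, hz⟩
    · refine ⟨u, Finset.mem_univ _, ?_⟩
      rw [Finset.mem_union]
      left
      rw [hu]
      simp
    · refine ⟨u, Finset.mem_univ _, ?_⟩
      rw [Finset.mem_union]
      right
      rw [hu]
      exact hz
  refine (Finset.card_le_card h1).trans ?_
  refine Finset.card_biUnion_le.trans ?_
  calc ∑ u : Fin s, ((match κ.1 u with | none => ∅ | some t => {t}) ∪
      (match κ.2 u with | none => ∅ | some z => symPos z) : Finset (Fin T)).card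
      ≤ ∑ _u : Fin s, 3 := by
        refine Finset.sum_le_sum fun u _ => ?_
        refine (Finset.card_union_le _ _).trans ?_
        have e1 : (match κ.1 u with | none => ∅ | some t => {t} : Finset (Fin T)).card ≤ 1 := by
          cases κ.1 u with
          | none => simp
          | some t => simp
        have e2 : (match κ.2 u with | none => ∅ | some z => symPos z : Finset (Fin T)).card
            ≤ 2 := by
          cases κ.2 u with
          | none => simp
          | some z => exact symPos_card z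
        omega
    _ = 3 * s := by simp [mul_comm]

theorem code_congr {ι : Type} (c : ι → Plane) (r : ι → ℝ) {s T : ℕ} {ρ ρ' : Fin T → ι}
    (κ : Code s T) (h : ∀ t ∈ codeU κ, ρ t = ρ' t) :
    codeX ρ κ = codeX ρ' κ ∧ codeA c r ρ κ = codeA c r ρ' κ := by
  classical
  constructor
  · unfold codeX
    apply Finset.image_congr
    intro t ht
    apply h
    unfold codeU
    rw [Finset.mem_filter]
    exact ⟨Finset.mem_univ _, Or.inl (Finset.mem_filter.mp (Finset.mem_coe.mp ht)).2⟩
  · unfold codeA
    apply List.map_congr_left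
    intro z hz
    apply symVal_congr
    intro t ht
    apply h
    unfold codeU
    rw [Finset.mem_filter]
    refine ⟨Finset.mem_univ _, Or.inr ?_⟩
    rw [List.reduceOption_mem_iff] at hz
    obtain ⟨u, hu⟩ := List.mem_ofFn.mp hz
    exact ⟨u, z, hu, ht⟩

/-- Codes exist. -/
theorem code_exists {ι : Type} (c : ι → Plane) (r : ι → ℝ) {s T : ℕ} (ρ : Fin T → ι)
    (R X : Finset ι) (A : List Plane) (hR : ∀ i ∈ R, ∃ t, ρ t = i) (hX : X ⊆ R)
    (hXs : X.card ≤ s) (hA : ∀ a ∈ A, a ∈ dirs c r R) (hAs : A.length ≤ s) :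
    ∃ κ : Code s T, codeX ρ κ = X ∧ codeA c r ρ κ = A := by
  classical
  have hsym : ∀ a ∈ A, ∃ z : Sym T, symVal c r ρ z = a := by
    intro a ha
    rcases hA a ha with ⟨h1, h2 | ⟨i, hi, j, hj, hc, h3⟩⟩
    · exact ⟨none, h2.symm⟩
    · obtain ⟨b, b', hb⟩ := mem_cand (sub_ne_zero.mpr hc) h1 h3
      obtain ⟨p, hp⟩ := hR i hi
      obtain ⟨q, hq⟩ := hR j hj
      refine ⟨some ((p, q), (b, b')), ?_⟩
      simp only [symVal, hp, hq]
      exact hb.symm
  choose z hz using hsym
  choose pos hpos using fun i : {i // i ∈ X} => hR i.1 (hX i.2)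
  let LA : List (Sym T) := A.attach.map (fun a => z a.1 a.2)
  let LX : List (Fin T) := X.attach.toList.map pos
  have hLA : LA.length ≤ s := by simpa [LA] using hAs
  have hLX : LX.length ≤ s := by simpa [LX] using hXs
  refine ⟨(fun u => LX[(u : ℕ)]?, fun u => LA[(u : ℕ)]?), ?_, ?_⟩
  · ext i
    unfold codeX
    rw [Finset.mem_image]
    constructor
    · rintro ⟨t, ht, rfl⟩
      obtain ⟨u, hu⟩ := (Finset.mem_filter.mp ht).2
      have h1 := List.mem_of_getElem? hu
      obtain ⟨j, _, rfl⟩ := List.mem_map.mp h1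
      rw [hpos j]
      exact j.2
    · intro hi
      refine ⟨pos ⟨i, hi⟩, ?_, hpos ⟨i, hi⟩⟩
      rw [Finset.mem_filter]
      refine ⟨Finset.mem_univ _, ?_⟩
      have h1 : pos ⟨i, hi⟩ ∈ LX :=
        List.mem_map.mpr ⟨⟨i, hi⟩, Finset.mem_toList.mpr (Finset.mem_attach _ _), rfl⟩
      obtain ⟨t, ht⟩ := List.mem_iff_getElem?.mp h1
      have htl : t < LX.length := by
        by_contra hno
        rw [List.getElem?_eq_none (not_lt.mp hno)] at ht
        simp at ht
      exact ⟨⟨t, htl.trans_le hLX⟩, ht⟩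
  · unfold codeA
    rw [reduce_ofFn LA s hLA]
    have : (symVal c r ρ ∘ fun a : {a // a ∈ A} => z a.1 a.2) = Subtype.val := by
      funext a
      exact hz a.1 a.2
    simp only [LA, List.map_map]
    rw [this]
    simp

/-- The bad sequences of a code are few. -/
theorem bad_card {ι : Type} (c : ι → Plane) (r : ι → ℝ) (K N : Finset ι) (hKN : K ⊆ N)
    {s T : ℕ} (κ : Code s T) (m : ℝ) (hmN : m ≤ N.card) :
    (({ρ : Fin T → {i // i ∈ N} | (∀ t, (ρ t : ι) ∉
        fail c r K (codeX (fun t => (ρ t : ι)) κ) (codeA c r (fun t => (ρ t : ι)) κ)) ∧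
        m ≤ ((fail c r K (codeX (fun t => (ρ t : ι)) κ)
          (codeA c r (fun t => (ρ t : ι)) κ)).card : ℝ)} : Set (Fin T → {i // i ∈ N})).ncard : ℝ)
      ≤ (N.card : ℝ) ^ (codeU κ).card * ((N.card : ℝ) - m) ^ (T - (codeU κ).card) := by
  classical
  set Bad : Set (Fin T → {i // i ∈ N}) := {ρ | (∀ t, (ρ t : ι) ∉
        fail c r K (codeX (fun t => (ρ t : ι)) κ) (codeA c r (fun t => (ρ t : ι)) κ)) ∧
        m ≤ ((fail c r K (codeX (fun t => (ρ t : ι)) κ)
          (codeA c r (fun t => (ρ t : ι)) κ)).card : ℝ)} with hBad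
  rw [Set.ncard_eq_toFinset_card' Bad]
  let π : (Fin T → {i // i ∈ N}) → ({t // t ∈ codeU κ} → {i // i ∈ N}) := fun ρ t => ρ t.1
  have hfib : ∀ τ : ({t // t ∈ codeU κ} → {i // i ∈ N}),
      (((Bad.toFinset.filter (fun ρ => π ρ = τ)).card : ℕ) : ℝ) ≤
        ((N.card : ℝ) - m) ^ (T - (codeU κ).card) := by
    intro τ
    rcases (Bad.toFinset.filter (fun ρ => π ρ = τ)).eq_empty_or_nonempty with h0 | ⟨ρ0, hρ0⟩
    · rw [h0]
      simp only [Finset.card_empty, Nat.cast_zero]
      exact pow_nonneg (by linarith) _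
    · obtain ⟨hb0, hπ0⟩ := Finset.mem_filter.mp hρ0
      rw [Set.mem_toFinset] at hb0
      set F0 := fail c r K (codeX (fun t => (ρ0 t : ι)) κ)
        (codeA c r (fun t => (ρ0 t : ι)) κ) with hF0
      let G : Finset {i // i ∈ N} := Finset.univ.filter (fun i => (i : ι) ∉ F0)
      have hGcard : (G.card : ℝ) ≤ (N.card : ℝ) - m := by
        have hF0N : F0 ⊆ N := (Finset.filter_subset _ _).trans hKN
        have e1 : G.card = (N \ F0).card := by
          have : G.map (Function.Embedding.subtype _) = N \ F0 := by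
            ext i
            simp [G, and_comm]
          rw [← this, Finset.card_map]
        rw [e1, Finset.card_sdiff_of_subset hF0N, Nat.cast_sub (Finset.card_le_card hF0N)]
        have := hb0.2
        linarith
      let W : Finset ({t // t ∉ codeU κ} → {i // i ∈ N}) := Fintype.piFinset (fun _ => G)
      have hWcard : W.card = G.card ^ (T - (codeU κ).card) := by
        rw [Fintype.card_piFinset]
        simp [Fintype.card_subtype_compl]
      have hle : (Bad.toFinset.filter (fun ρ => π ρ = τ)).card ≤ W.card := by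
        refine Finset.card_le_card_of_injOn (fun ρ t => ρ t.1) ?_ ?_
        · intro ρ hρ
          obtain ⟨hb, hπ⟩ := Finset.mem_filter.mp (Finset.mem_coe.mp hρ)
          rw [Set.mem_toFinset] at hb
          have hag : ∀ t ∈ codeU κ, (ρ t : ι) = (ρ0 t : ι) := by
            intro t ht
            have h1 : π ρ ⟨t, ht⟩ = π ρ0 ⟨t, ht⟩ := by rw [hπ, hπ0]
            exact congrArg Subtype.val h1
          obtain ⟨e1, e2⟩ := code_congr c r (ρ := fun t => (ρ t : ι))
            (ρ' := fun t => (ρ0 t : ι)) κ hag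
          rw [Finset.mem_coe, Fintype.mem_piFinset]
          intro t
          simp only [G, Finset.mem_filter, Finset.mem_univ, true_and]
          have h3 := hb.1 t.1
          rw [e1, e2] at h3
          exact h3
        · intro ρ hρ ρ' hρ' heq
          obtain ⟨_, hπ⟩ := Finset.mem_filter.mp (Finset.mem_coe.mp hρ)
          obtain ⟨_, hπ'⟩ := Finset.mem_filter.mp (Finset.mem_coe.mp hρ')
          funext t
          by_cases ht : t ∈ codeU κ
          · have : π ρ ⟨t, ht⟩ = π ρ' ⟨t, ht⟩ := by rw [hπ, hπ']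
            exact this
          · exact congrFun heq ⟨t, ht⟩
      calc (((Bad.toFinset.filter (fun ρ => π ρ = τ)).card : ℕ) : ℝ) ≤ (W.card : ℝ) := by
            exact_mod_cast hle
        _ = (G.card : ℝ) ^ (T - (codeU κ).card) := by rw [hWcard]; push_cast; rfl
        _ ≤ ((N.card : ℝ) - m) ^ (T - (codeU κ).card) :=
          pow_le_pow_left₀ (Nat.cast_nonneg _) hGcard _
  have hsum : (Bad.toFinset.card : ℝ) =
      ∑ τ : ({t // t ∈ codeU κ} → {i // i ∈ N}),
        (((Bad.toFinset.filter (fun ρ => π ρ = τ)).card : ℕ) : ℝ) := by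
    rw [Finset.card_eq_sum_card_fiberwise (f := π) (t := Finset.univ)
      (fun x _ => Finset.mem_coe.mpr (Finset.mem_univ _))]
    push_cast
    rfl
  rw [hsum]
  calc ∑ τ : ({t // t ∈ codeU κ} → {i // i ∈ N}),
        (((Bad.toFinset.filter (fun ρ => π ρ = τ)).card : ℕ) : ℝ)
      ≤ ∑ _τ : ({t // t ∈ codeU κ} → {i // i ∈ N}),
        ((N.card : ℝ) - m) ^ (T - (codeU κ).card) := Finset.sum_le_sum fun τ _ => hfib τ
    _ = (N.card : ℝ) ^ (codeU κ).card * ((N.card : ℝ) - m) ^ (T - (codeU κ).card) := by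
      rw [Finset.sum_const, Finset.card_univ, nsmul_eq_mul]
      simp

end Pool.Agent.Work.MP_a5c73b_lc.S
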