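import Pool.Agent.Work.MP_a5c73b_lc.S.Sample

/-! The sampling theorem. -/

set_option autoImplicit false

namespace Pool.Agent.Work.MP_a5c73b_lc.S

theorem sample_num (T : ℕ) (hT : 90000 ≤ T) {η : ℝ}
    (hη : η = 3000 * (1 + Real.log T) / Real.sqrt T) (hη1 : η ≤ 1) :
    3 * (50 * Nat.sqrt T) ≤ T ∧
    ((T : ℝ) + 1) ^ (50 * Nat.sqrt T) * (4 * (T : ℝ) ^ 2 + 2) ^ (50 * Nat.sqrt T) *
      (1 - η / 9) ^ (T - 3 * (50 * Nat.sqrt T)) ≤ 1 / 4 := by
  set s := 50 * Nat.sqrt T with hs
  set q := Real.sqrt T with hq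
  set L := 1 + Real.log T with hL
  have hTR : (90000 : ℝ) ≤ T := by exact_mod_cast hT
  have hq300 : 300 ≤ q := by
    rw [hq]
    apply Real.le_sqrt_of_sq_le
    have h9 : (300 : ℝ) ^ 2 = 90000 := by norm_num
    rw [h9]
    exact hTR
  have hqq : q * q = T := Real.mul_self_sqrt (by linarith)
  have hsq : (s : ℝ) ≤ 50 * q := by
    rw [hs]
    push_cast
    have := Real.nat_sqrt_le_real_sqrt (a := T)
    linarith
  have hL1 : 1 ≤ L := by
    have : 0 ≤ Real.log T := Real.log_nonneg (by linarith)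
    linarith
  have h3s : 3 * (s : ℝ) ≤ T / 2 := by nlinarith
  have h3sN : 3 * s ≤ T := by
    have : (3 * s : ℝ) ≤ T := by linarith
    exact_mod_cast this
  refine ⟨h3sN, ?_⟩
  have hη0 : 0 ≤ η := by
    rw [hη]
    positivity
  have hbase : 0 ≤ 1 - η / 9 := by linarith
  have hexp1 : (1 - η / 9) ^ (T - 3 * s) ≤ Real.exp (-(η / 9) * ((T - 3 * s : ℕ) : ℝ)) := by
    have h1 : 1 - η / 9 ≤ Real.exp (-(η / 9)) := Real.one_sub_le_exp_neg _
    calc (1 - η / 9) ^ (T - 3 * s) ≤ (Real.exp (-(η / 9))) ^ (T - 3 * s) :=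
          pow_le_pow_left₀ hbase h1 _
      _ = Real.exp (-(η / 9) * ((T - 3 * s : ℕ) : ℝ)) := by
          rw [← Real.exp_nat_mul]
          congr 1
          ring
  have hpos : 0 < ((T : ℝ) + 1) * (4 * (T : ℝ) ^ 2 + 2) := by positivity
  have hlog : Real.log (((T : ℝ) + 1) * (4 * (T : ℝ) ^ 2 + 2)) ≤ 3 * L := by
    have h1 : ((T : ℝ) + 1) * (4 * (T : ℝ) ^ 2 + 2) ≤ 8 * (T : ℝ) ^ 3 := by nlinarith
    have h2 : Real.log (((T : ℝ) + 1) * (4 * (T : ℝ) ^ 2 + 2)) ≤ Real.log (8 * (T : ℝ) ^ 3) :=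
      Real.log_le_log hpos h1
    have h3 : Real.log (8 * (T : ℝ) ^ 3) = Real.log 8 + 3 * Real.log T := by
      rw [Real.log_mul (by norm_num) (by positivity), Real.log_pow]
      push_cast
      ring
    have h4 : Real.log 8 ≤ 3 := by
      have h5 : (8 : ℝ) = 2 ^ 3 := by norm_num
      rw [h5, Real.log_pow]
      have := Real.log_two_lt_d9
      push_cast
      linarith
    rw [h3] at h2
    linarith
  have hexp2 : ((T : ℝ) + 1) ^ s * (4 * (T : ℝ) ^ 2 + 2) ^ s ≤ Real.exp ((s : ℝ) * (3 * L)) := by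
    rw [← mul_pow]
    calc (((T : ℝ) + 1) * (4 * (T : ℝ) ^ 2 + 2)) ^ s
        = Real.exp ((s : ℝ) * Real.log (((T : ℝ) + 1) * (4 * (T : ℝ) ^ 2 + 2))) := by
          rw [Real.exp_nat_mul, Real.exp_log hpos]
      _ ≤ Real.exp ((s : ℝ) * (3 * L)) := by
          apply Real.exp_le_exp.mpr
          exact mul_le_mul_of_nonneg_left hlog (Nat.cast_nonneg _)
  have hcast : ((T - 3 * s : ℕ) : ℝ) = (T : ℝ) - 3 * s := by
    rw [Nat.cast_sub h3sN]
    push_cast
    ring
  calc ((T : ℝ) + 1) ^ s * (4 * (T : ℝ) ^ 2 + 2) ^ s * (1 - η / 9) ^ (T - 3 * s)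
      ≤ Real.exp ((s : ℝ) * (3 * L)) * Real.exp (-(η / 9) * ((T - 3 * s : ℕ) : ℝ)) :=
        mul_le_mul hexp2 hexp1 (pow_nonneg hbase _) (Real.exp_pos _).le
    _ = Real.exp ((s : ℝ) * (3 * L) - (η / 9) * ((T : ℝ) - 3 * s)) := by
        rw [← Real.exp_add, hcast]
        congr 1
        ring
    _ ≤ Real.exp (-2) := by
        apply Real.exp_le_exp.mpr
        have hq0 : 0 < q := by linarith
        have e1 : η * q = 3000 * L := by
          rw [hη]
          field_simp
        have e2 : (η / 9) * ((T : ℝ) - 3 * s) ≥ (η / 9) * (T / 2) :=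
          mul_le_mul_of_nonneg_left (by linarith) (by positivity)
        have e3 : (η / 9) * (T / 2) = (3000 / 18) * (L * q) := by
          rw [← hqq]
          have : η / 9 * (q * q / 2) = (η * q) * q / 18 := by ring
          rw [this, e1]
          ring
        have e4 : (s : ℝ) * (3 * L) ≤ 150 * (L * q) := by nlinarith
        have e5 : 300 ≤ L * q := by nlinarith
        nlinarith
    _ ≤ 1 / 4 := by
        have h1 : (2 : ℝ) ≤ Real.exp 1 := by
          have := Real.add_one_le_exp (1 : ℝ)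
          linarith
        have h2 : Real.exp (-2) * (Real.exp 1 * Real.exp 1) = 1 := by
          rw [← Real.exp_add, ← Real.exp_add]
          norm_num
        have h3 := Real.exp_pos (-2)
        have h4 : 4 ≤ Real.exp 1 * Real.exp 1 := by nlinarith
        have h5 := mul_le_mul_of_nonneg_left h4 h3.le
        linarith

open Classical in
/-- The disks of `K` which occur in the sample. -/
noncomputable def hit {ι : Type} (K : Finset ι) {T : ℕ} (ρ : Fin T → ι) : Finset ι :=
  K.filter (fun i => ∃ t, ρ t = i)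

theorem sample_clique {ι : Type} (c : ι → Plane) (r : ι → ℝ) (K N : Finset ι)
    (hK : K.Nonempty) (hcl : (diskGraph c r).IsClique (K : Set ι)) (hKN : K ⊆ N)
    (hN : N.card ≤ 9 * K.card) (T : ℕ) (hT : 1 ≤ T) :
    (N.card : ℝ) ^ T ≤ 2 * (({ρ : Fin T → {i // i ∈ N} | ∃ (X : Finset ι) (A : List Plane),
      X ⊆ hit K (fun t => (ρ t : ι)) ∧ X.card ≤ 50 * Nat.sqrt T ∧ Odd A.length ∧
      A.length ≤ 50 * Nat.sqrt T ∧ (∀ a ∈ A, a ∈ dirs c r (hit K (fun t => (ρ t : ι)))) ∧
      ((fail c r K X A).card : ℝ) ≤ 3000 * (1 + Real.log T) / Real.sqrt T * K.card} :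
        Set (Fin T → {i // i ∈ N})).ncard : ℝ) := by
  classical
  set η : ℝ := 3000 * (1 + Real.log T) / Real.sqrt T with hη
  set Good : Set (Fin T → {i // i ∈ N}) := {ρ | ∃ (X : Finset ι) (A : List Plane),
      X ⊆ hit K (fun t => (ρ t : ι)) ∧ X.card ≤ 50 * Nat.sqrt T ∧ Odd A.length ∧
      A.length ≤ 50 * Nat.sqrt T ∧ (∀ a ∈ A, a ∈ dirs c r (hit K (fun t => (ρ t : ι)))) ∧
      ((fail c r K X A).card : ℝ) ≤ η * K.card} with hGood
  have hfailK : ∀ X A, (fail c r K X A) ⊆ K := fun X A => Finset.filter_subset _ _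
  have hallcard : (Set.univ : Set (Fin T → {i // i ∈ N})).ncard = N.card ^ T := by
    rw [Set.ncard_univ, Nat.card_eq_fintype_card, Fintype.card_fun, Fintype.card_coe,
      Fintype.card_fin]
  rcases le_or_gt 1 η with hη1 | hη1
  · -- the trivial case
    have hall : Good = Set.univ := by
      rw [Set.eq_univ_iff_forall]
      intro ρ
      refine ⟨∅, [e0], Finset.empty_subset _, Nat.zero_le _, by simp, ?_, ?_, ?_⟩
      · have : 1 ≤ Nat.sqrt T := Nat.le_sqrt.mpr (by simpa using hT)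
        simp only [List.length_singleton]
        omega
      · intro a ha
        rw [List.mem_singleton] at ha
        exact ⟨by rw [ha]; simp [e0], Or.inl ha⟩
      · have h1 : ((fail c r K ∅ [e0]).card : ℝ) ≤ K.card := by
          exact_mod_cast Finset.card_le_card (hfailK _ _)
        have h2 : (K.card : ℝ) ≤ η * K.card := by
          have : (0 : ℝ) ≤ K.card := Nat.cast_nonneg _
          nlinarith
        exact h1.trans h2
    rw [hall, hallcard]
    push_cast
    have : (0 : ℝ) ≤ (N.card : ℝ) ^ T := by positivity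
    linarith
  -- the main case
  have hTR1 : (1 : ℝ) ≤ T := by exact_mod_cast hT
  have hlog0 : 0 ≤ Real.log T := Real.log_nonneg hTR1
  have hsqrtpos : 0 < Real.sqrt T := Real.sqrt_pos.mpr (by linarith)
  have hT9 : 90000 ≤ T := by
    have h1 : 3000 * (1 + Real.log T) < Real.sqrt T := by
      have := (div_lt_one hsqrtpos).mp hη1
      exact this
    have h2 : (3000 : ℝ) < Real.sqrt T := by linarith
    have h3 : (3000 : ℝ) ^ 2 < T := by
      have h4 : Real.sqrt T * Real.sqrt T = T := Real.mul_self_sqrt (by linarith)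
      nlinarith
    have h5 : (90000 : ℝ) ≤ T := by linarith
    exact_mod_cast h5
  have hη0 : 0 ≤ η := by
    rw [hη]
    positivity
  set s := 50 * Nat.sqrt T with hs
  obtain ⟨h3s, hnum⟩ := sample_num T hT9 hη hη1.le
  have hNK : (N.card : ℝ) ≤ 9 * K.card := by exact_mod_cast hN
  have hKNc : (K.card : ℝ) ≤ N.card := by exact_mod_cast Finset.card_le_card hKN
  have hNpos : (0 : ℝ) < N.card := by
    have : 0 < K.card := hK.card_pos
    have h1 : (0 : ℝ) < K.card := by exact_mod_cast this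
    linarith
  have hK0 : (0 : ℝ) ≤ K.card := Nat.cast_nonneg _
  set m : ℝ := η * K.card with hm
  have hmN : m ≤ N.card := by
    rw [hm]
    nlinarith
  let B0 : Set (Fin T → {i // i ∈ N}) := {ρ | ∀ t, (ρ t : ι) ∉ K}
  let Bd : Code s T → Set (Fin T → {i // i ∈ N}) := fun κ => {ρ | (∀ t, (ρ t : ι) ∉
        fail c r K (codeX (fun t => (ρ t : ι)) κ) (codeA c r (fun t => (ρ t : ι)) κ)) ∧
        m ≤ ((fail c r K (codeX (fun t => (ρ t : ι)) κ)
          (codeA c r (fun t => (ρ t : ι)) κ)).card : ℝ)}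
  have hcov : (Set.univ : Set (Fin T → {i // i ∈ N})) ⊆ Good ∪ (B0 ∪ ⋃ κ, Bd κ) := by
    intro ρ _
    by_cases hg : ρ ∈ Good
    · exact Or.inl hg
    right
    by_cases hb : ρ ∈ B0
    · exact Or.inl hb
    right
    have hne : (hit K (fun t => (ρ t : ι))).Nonempty := by
      by_contra hno
      apply hb
      intro t ht
      apply hno
      exact ⟨(ρ t : ι), Finset.mem_filter.mpr ⟨ht, t, rfl⟩⟩
    set R := hit K (fun t => (ρ t : ι)) with hR
    have hRK : R ⊆ K := Finset.filter_subset _ _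
    have hRcl : (diskGraph c r).IsClique (R : Set ι) :=
      hcl.subset (Finset.coe_subset.mpr hRK)
    have hRcard : R.card ≤ T := by
      have : R ⊆ (Finset.univ : Finset (Fin T)).image (fun t => (ρ t : ι)) := by
        intro i hi
        obtain ⟨t, ht⟩ := (Finset.mem_filter.mp hi).2
        exact Finset.mem_image.mpr ⟨t, Finset.mem_univ _, ht⟩
      calc R.card ≤ _ := Finset.card_le_card this
        _ ≤ (Finset.univ : Finset (Fin T)).card := Finset.card_image_le
        _ = T := by simp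
    obtain ⟨X, A, hXR, _, hXc, hodd, hAl, hAd, hRcov⟩ := cover_one c r R hne hRcl
    have hsR : 50 * Nat.sqrt R.card ≤ s := Nat.mul_le_mul_left _ (Nat.sqrt_le_sqrt hRcard)
    obtain ⟨κ, hκX, hκA⟩ := code_exists c r (s := s) (fun t => (ρ t : ι)) R X A
      (fun i hi => (Finset.mem_filter.mp hi).2) hXR (hXc.trans hsR) hAd (hAl.trans hsR)
    refine Set.mem_iUnion.mpr ⟨κ, ?_, ?_⟩
    · intro t ht
      rw [hκX, hκA] at ht
      obtain ⟨h1, h2⟩ := Finset.mem_filter.mp ht
      apply h2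
      exact hRcov (Finset.mem_coe.mpr (Finset.mem_filter.mpr ⟨h1, t, rfl⟩))
    · rw [hκX, hκA]
      by_contra hlt
      push Not at hlt
      exact hg ⟨X, A, hXR, hXc.trans hsR, hodd, hAl.trans hsR, hAd, hlt.le⟩
  have hB0 : (B0.ncard : ℝ) ≤ (N.card : ℝ) ^ T * (1 / 4) := by
    let G : Finset {i // i ∈ N} := Finset.univ.filter (fun i => (i : ι) ∉ K)
    have hG : (G.card : ℝ) ≤ (8 / 9) * N.card := by
      have e1 : G.card = (N \ K).card := by
        have : G.map (Function.Embedding.subtype _) = N \ K := by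
          ext i
          simp [G, and_comm]
        rw [← this, Finset.card_map]
      rw [e1, Finset.card_sdiff_of_subset hKN, Nat.cast_sub (Finset.card_le_card hKN)]
      linarith
    have h1 : B0 ⊆ ((Fintype.piFinset (fun _ : Fin T => G)) : Set (Fin T → {i // i ∈ N})) := by
      intro ρ hρ
      rw [Finset.mem_coe, Fintype.mem_piFinset]
      intro t
      exact Finset.mem_filter.mpr ⟨Finset.mem_univ _, hρ t⟩
    have h2 : B0.ncard ≤ G.card ^ T := by
      calc B0.ncard ≤ ((Fintype.piFinset (fun _ : Fin T => G)) :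
            Set (Fin T → {i // i ∈ N})).ncard := Set.ncard_le_ncard h1 (Set.toFinite _)
        _ = (Fintype.piFinset (fun _ : Fin T => G)).card := Set.ncard_coe_finset _
        _ = G.card ^ T := by rw [Fintype.card_piFinset]; simp
    have h3 : ((8 : ℝ) / 9) ^ T ≤ 1 / 4 := by
      calc ((8 : ℝ) / 9) ^ T ≤ (8 / 9) ^ 12 :=
            pow_le_pow_of_le_one (by norm_num) (by norm_num) (by omega)
        _ ≤ 1 / 4 := by norm_num
    calc (B0.ncard : ℝ) ≤ (G.card : ℝ) ^ T := by exact_mod_cast h2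
      _ ≤ ((8 / 9) * (N.card : ℝ)) ^ T := pow_le_pow_left₀ (Nat.cast_nonneg _) hG _
      _ = (N.card : ℝ) ^ T * ((8 : ℝ) / 9) ^ T := by rw [mul_pow]; ring
      _ ≤ (N.card : ℝ) ^ T * (1 / 4) := mul_le_mul_of_nonneg_left h3 (by positivity)
  have hbase0 : 0 ≤ 1 - η / 9 := by linarith
  have hbase1 : 1 - η / 9 ≤ 1 := by linarith
  have hBd : ∀ κ, ((Bd κ).ncard : ℝ) ≤ (N.card : ℝ) ^ T * (1 - η / 9) ^ (T - 3 * s) := by
    intro κ
    have h1 := bad_card c r K N hKN κ m hmN
    have hu := codeU_card κ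
    have huT : (codeU κ).card ≤ T := hu.trans h3s
    have h2 : (N.card : ℝ) - m ≤ N.card * (1 - η / 9) := by
      rw [hm]
      nlinarith
    calc ((Bd κ).ncard : ℝ) ≤ (N.card : ℝ) ^ (codeU κ).card *
          ((N.card : ℝ) - m) ^ (T - (codeU κ).card) := h1
      _ ≤ (N.card : ℝ) ^ (codeU κ).card *
          (N.card * (1 - η / 9)) ^ (T - (codeU κ).card) :=
        mul_le_mul_of_nonneg_left (pow_le_pow_left₀ (by linarith) h2 _) (by positivity)
      _ = (N.card : ℝ) ^ T * (1 - η / 9) ^ (T - (codeU κ).card) := by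
        rw [mul_pow, ← mul_assoc, ← pow_add]
        congr 2
        omega
      _ ≤ (N.card : ℝ) ^ T * (1 - η / 9) ^ (T - 3 * s) :=
        mul_le_mul_of_nonneg_left (pow_le_pow_of_le_one hbase0 hbase1 (by omega))
          (by positivity)
  have hunion : ((⋃ κ, Bd κ).ncard : ℝ) ≤ (N.card : ℝ) ^ T * (1 / 4) := by
    have h1 : (⋃ κ, Bd κ).ncard ≤ ∑ κ : Code s T, (Bd κ).ncard := by
      have h2 : (⋃ κ, Bd κ) = ((Finset.univ.biUnion (fun κ : Code s T => (Bd κ).toFinset) :
          Finset (Fin T → {i // i ∈ N})) : Set (Fin T → {i // i ∈ N})) := by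
        ext ρ
        simp
      rw [h2, Set.ncard_coe_finset]
      refine Finset.card_biUnion_le.trans ?_
      apply le_of_eq
      apply Finset.sum_congr rfl
      intro κ _
      rw [Set.ncard_eq_toFinset_card']
    have hcodes : ((Finset.univ : Finset (Code s T)).card : ℝ) =
        ((T : ℝ) + 1) ^ s * (4 * (T : ℝ) ^ 2 + 2) ^ s := by
      rw [Finset.card_univ, Fintype.card_prod, Fintype.card_fun, Fintype.card_fun,
        Fintype.card_option, Fintype.card_option, Fintype.card_option, Fintype.card_prod,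
        Fintype.card_prod, Fintype.card_prod, Fintype.card_fin, Fintype.card_fin,
        Fintype.card_bool]
      push_cast
      ring
    calc ((⋃ κ, Bd κ).ncard : ℝ) ≤ ∑ κ : Code s T, ((Bd κ).ncard : ℝ) := by exact_mod_cast h1
      _ ≤ ∑ _κ : Code s T, (N.card : ℝ) ^ T * (1 - η / 9) ^ (T - 3 * s) :=
        Finset.sum_le_sum fun κ _ => hBd κ
      _ = ((T : ℝ) + 1) ^ s * (4 * (T : ℝ) ^ 2 + 2) ^ s *
          ((N.card : ℝ) ^ T * (1 - η / 9) ^ (T - 3 * s)) := by
        rw [Finset.sum_const, nsmul_eq_mul, hcodes]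
      _ = (N.card : ℝ) ^ T * (((T : ℝ) + 1) ^ s * (4 * (T : ℝ) ^ 2 + 2) ^ s *
          (1 - η / 9) ^ (T - 3 * s)) := by ring
      _ ≤ (N.card : ℝ) ^ T * (1 / 4) := mul_le_mul_of_nonneg_left hnum (by positivity)
  have htot : (N.card ^ T : ℕ) ≤ Good.ncard + (B0.ncard + (⋃ κ, Bd κ).ncard) := by
    rw [← hallcard]
    calc (Set.univ : Set (Fin T → {i // i ∈ N})).ncard
        ≤ (Good ∪ (B0 ∪ ⋃ κ, Bd κ)).ncard := Set.ncard_le_ncard hcov (Set.toFinite _)
      _ ≤ Good.ncard + (B0 ∪ ⋃ κ, Bd κ).ncard := Set.ncard_union_le _ _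
      _ ≤ Good.ncard + (B0.ncard + (⋃ κ, Bd κ).ncard) :=
        Nat.add_le_add_left (Set.ncard_union_le _ _) _
  have htotR : (N.card : ℝ) ^ T ≤ Good.ncard + (B0.ncard + (⋃ κ, Bd κ).ncard) := by
    exact_mod_cast htot
  linarith

end Pool.Agent.Work.MP_a5c73b_lc.S
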