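import Pool.Agent.Work.MP_a5c73b_lc.S.Ident

/-! MODULE Typed (the parity lemma). -/

set_option autoImplicit false

namespace Pool.Agent.Work.MP_a5c73b_lc.S

theorem alist_succ_even {s : ℕ} {ep : ℕ → Bool} {a : ℕ → Plane} (h : ep s = false) :
    alist (s + 1) ep a = alist s ep a := by
  unfold alist
  rw [List.range_succ, List.filter_append]
  simp [h]

theorem alist_succ_odd {s : ℕ} {ep : ℕ → Bool} {a : ℕ → Plane} (h : ep s = true) :
    alist (s + 1) ep a = alist s ep a ++ [a s] := by
  unfold alist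
  rw [List.range_succ, List.filter_append]
  simp [h]

theorem chi_append (A B : List Plane) (w : Plane) : chi (A ++ B) w = chi A w * chi B w := by
  unfold chi
  rw [List.map_append, List.prod_append]

theorem chi_single (a w : Plane) : chi [a] w = crs a w := by
  simp [chi]

theorem same_sign {S : Set Plane} (hS : IsPreconnected S) {f : Plane → ℝ}
    (hf : Continuous f) (h0 : ∀ g ∈ S, f g ≠ 0) {g g' : Plane} (hg : g ∈ S) (hg' : g' ∈ S) :
    0 < f g * f g' := by
  have himg : IsPreconnected (f '' S) := hS.image f hf.continuousOn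
  have hord : (f '' S).OrdConnected := himg.ordConnected
  have h1 : f g ∈ f '' S := ⟨g, hg, rfl⟩
  have h2 : f g' ∈ f '' S := ⟨g', hg', rfl⟩
  have hz : (0 : ℝ) ∉ f '' S := by
    rintro ⟨y, hy, h⟩
    exact h0 y hy h
  rcases lt_or_gt_of_ne (h0 g hg) with ha | ha
  · rcases lt_or_gt_of_ne (h0 g' hg') with hb | hb
    · exact mul_pos_of_neg_of_neg ha hb
    · exact absurd (hord.out h1 h2 ⟨ha.le, hb.le⟩) hz
  · rcases lt_or_gt_of_ne (h0 g' hg') with hb | hb
    · exact absurd (hord.out h2 h1 ⟨hb.le, ha.le⟩) hz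
    · exact mul_pos ha hb

theorem typed_sets {V : Type} (C : V → Set Plane) (hconn : ∀ v, IsPreconnected (C v))
    (hsub : ∀ v, ∀ g ∈ C v, ‖g‖ ≤ 1) {s : ℕ} {x : ℕ → V} {ep : ℕ → Bool} {a : ℕ → Plane}
    (h : IsLoop C s x ep a) (h0 : (C (x 0)).Nonempty) {w1 w2 : Plane} (h1 : ‖w1‖ = 1)
    (h2 : ‖w2‖ = 1) (hne : w1 ≠ w2) (hav : ∀ t ≤ s, Disjoint (segment ℝ w1 w2) (C (x t))) :
    0 < chi (alist s ep a) w1 * chi (alist s ep a) w2 := by
  have hnz : ∀ t ≤ s, ∀ g ∈ C (x t), lam w1 w2 g ≠ 0 := by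
    intro t ht g hg h0
    have hseg := line_ball h1 h2 hne (hsub _ g hg) h0
    exact Set.disjoint_left.mp (hav t ht) hseg hg
  have hsame : ∀ t ≤ s, ∀ g ∈ C (x t), ∀ g' ∈ C (x t), 0 < lam w1 w2 g * lam w1 w2 g' := by
    intro t ht g hg g' hg'
    exact same_sign (hconn (x t)) (lam_continuous w1 w2) (hnz t ht) hg hg'
  obtain ⟨g0, hg0⟩ := h0
  have hind : ∀ t ≤ s, ∀ g ∈ C (x t), 0 < lam w1 w2 g0 * lam w1 w2 g *
      (chi (alist t ep a) w1 * chi (alist t ep a) w2) := by
    intro t
    induction t with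
    | zero =>
      intro _ g hg
      have : alist 0 ep a = [] := by simp [alist]
      rw [this]
      have hc : ∀ w, chi [] w = 1 := by intro w; simp [chi]
      rw [hc, hc, mul_one, mul_one]
      exact hsame 0 (Nat.zero_le _) g0 hg0 g hg
    | succ t ih =>
      intro ht g hg
      have iht := ih (by omega)
      cases hep : ep t with
      | false =>
        rw [alist_succ_even hep]
        obtain ⟨y, hy1, hy2⟩ := h.even t (by omega) hep
        have e1 := iht y hy1
        have e2 := hsame (t + 1) ht y hy2 g hg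
        have hy0 : lam w1 w2 y ≠ 0 := hnz (t + 1) ht y hy2
        have hsq : 0 < lam w1 w2 y * lam w1 w2 y := mul_self_pos.mpr hy0
        have e3 := mul_pos e1 e2
        have : lam w1 w2 g0 * lam w1 w2 y * (chi (alist t ep a) w1 * chi (alist t ep a) w2) *
            (lam w1 w2 y * lam w1 w2 g) = (lam w1 w2 y * lam w1 w2 y) *
            (lam w1 w2 g0 * lam w1 w2 g * (chi (alist t ep a) w1 * chi (alist t ep a) w2)) := by
          ring
        rw [this] at e3
        exact (pos_iff_pos_of_mul_pos e3).mp hsq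
      | true =>
        rw [alist_succ_odd hep, chi_append, chi_append, chi_single, chi_single]
        obtain ⟨ha1, ha2, ha3⟩ := h.odd t (by omega) hep
        have e1 := iht (a t) ha2
        have e2 := hsame (t + 1) ht (-(a t)) ha3 g hg
        have e3 := lam_mul ha1 h1 h2
        have n1 : lam w1 w2 (a t) ≠ 0 := hnz t (by omega) _ ha2
        have n2 : lam w1 w2 (-(a t)) ≠ 0 := hnz (t + 1) ht _ ha3
        have n3 : crs (a t) w1 * crs (a t) w2 ≠ 0 := by
          intro h0
          rw [h0, mul_zero] at e3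
          exact mul_ne_zero n1 n2 e3
        have hw : 0 < ‖w1 - w2‖ ^ 2 := by
          have : 0 < ‖w1 - w2‖ := norm_pos_iff.mpr (sub_ne_zero.mpr hne)
          positivity
        have e4 : 0 < (lam w1 w2 (a t) * lam w1 w2 (-(a t))) * (crs (a t) w1 * crs (a t) w2) := by
          rw [e3]
          have : 0 < (crs (a t) w1 * crs (a t) w2) * (crs (a t) w1 * crs (a t) w2) :=
            mul_self_pos.mpr n3
          calc (0 : ℝ) < ‖w1 - w2‖ ^ 2 *
              ((crs (a t) w1 * crs (a t) w2) * (crs (a t) w1 * crs (a t) w2)) := mul_pos hw this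
            _ = _ := by ring
        have hsq : 0 < (lam w1 w2 (a t) * lam w1 w2 (a t)) *
            (lam w1 w2 (-(a t)) * lam w1 w2 (-(a t))) :=
          mul_pos (mul_self_pos.mpr n1) (mul_self_pos.mpr n2)
        have e5 := mul_pos (mul_pos e1 e2) e4
        have : lam w1 w2 g0 * lam w1 w2 (a t) * (chi (alist t ep a) w1 * chi (alist t ep a) w2) *
            (lam w1 w2 (-(a t)) * lam w1 w2 g) *
            ((lam w1 w2 (a t) * lam w1 w2 (-(a t))) * (crs (a t) w1 * crs (a t) w2)) =
            ((lam w1 w2 (a t) * lam w1 w2 (a t)) *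
              (lam w1 w2 (-(a t)) * lam w1 w2 (-(a t)))) *
            (lam w1 w2 g0 * lam w1 w2 g * (chi (alist t ep a) w1 * crs (a t) w1 *
              (chi (alist t ep a) w2 * crs (a t) w2))) := by
          ring
        rw [this] at e5
        exact (pos_iff_pos_of_mul_pos e5).mp hsq
  have hfin := hind s le_rfl g0 (by rw [h.close]; exact hg0)
  have hsq : 0 < lam w1 w2 g0 * lam w1 w2 g0 := mul_self_pos.mpr (hnz 0 (Nat.zero_le _) g0 hg0)
  exact (pos_iff_pos_of_mul_pos hfin).mp hsq

theorem zeta_comb {ι : Type} (c : ι → Plane) (r : ι → ℝ) (i : ι) (w1 w2 : Plane) {p q : ℝ}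
    (hpq : p + q = 1) :
    zeta c r i (p • w1 + q • w2) = p * zeta c r i w1 + q * zeta c r i w2 := by
  unfold zeta
  rw [inner_add_left, real_inner_smul_left, real_inner_smul_left]
  have : r i = (p + q) * r i := by rw [hpq, one_mul]
  linear_combination (-1 : ℝ) * this

theorem cell_preconnected {ι : Type} (c : ι → Plane) (r : ι → ℝ) (K : Finset ι) (i : ι) :
    IsPreconnected (cell c r K i) := by
  have hconv : Convex ℝ (cell c r K i) := by
    intro g hg g' hg' p q hp hq hpq
    refine ⟨?_, fun j hj => ?_⟩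
    · calc ‖p • g + q • g'‖ ≤ ‖p • g‖ + ‖q • g'‖ := norm_add_le _ _
        _ = p * ‖g‖ + q * ‖g'‖ := by
          rw [norm_smul, norm_smul, Real.norm_of_nonneg hp, Real.norm_of_nonneg hq]
        _ ≤ p * 1 + q * 1 := by
          have := mul_le_mul_of_nonneg_left hg.1 hp
          have := mul_le_mul_of_nonneg_left hg'.1 hq
          linarith
        _ = 1 := by linarith
    · rw [zeta_comb c r j g g' hpq, zeta_comb c r i g g' hpq]
      have h1 := mul_le_mul_of_nonneg_left (hg.2 j hj) hp
      have h2 := mul_le_mul_of_nonneg_left (hg'.2 j hj) hq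
      linarith
  exact hconv.isPreconnected

theorem typed_cells {ι : Type} (c : ι → Plane) (r : ι → ℝ) (K X : Finset ι)
    (hK : (diskGraph c r).IsClique (K : Set ι)) (hX : X ⊆ K) {s : ℕ} {x : ℕ → Front c r K}
    {ep : ℕ → Bool} {a : ℕ → Plane} (h : IsLoop (fcell c r K) s x ep a)
    (hxX : ∀ t ≤ s, (x t).1 ∈ X) {e : ι} (he : e ∈ K) :
    e ∈ Plus c r X (alist s ep a) ∪ Minus c r X (alist s ep a) := by
  have hmeet : ∀ y ∈ X, y = e ∨ (diskGraph c r).Adj y e := by
    intro y hy
    by_cases hye : y = e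
    · exact Or.inl hye
    · exact Or.inr (hK (Finset.mem_coe.mpr (hX hy)) (Finset.mem_coe.mpr he) hye)
  by_contra hcon
  rw [Set.mem_union, not_or] at hcon
  obtain ⟨hp, hm⟩ := hcon
  have hp' : ∃ w : Plane, ‖w‖ = 1 ∧ chi (alist s ep a) w < 0 ∧
      ∀ y ∈ X, zeta c r y w < zeta c r e w := by
    by_contra hno
    push Not at hno
    exact hp ⟨hmeet, fun w hw hc => hno w hw hc⟩
  have hm' : ∃ w : Plane, ‖w‖ = 1 ∧ 0 < chi (alist s ep a) w ∧
      ∀ y ∈ X, zeta c r y w < zeta c r e w := by
    by_contra hno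
    push Not at hno
    exact hm ⟨hmeet, fun w hw hc => hno w hw hc⟩
  obtain ⟨w1, hw1, hc1, hz1⟩ := hp'
  obtain ⟨w2, hw2, hc2, hz2⟩ := hm'
  have hne : w1 ≠ w2 := by
    rintro rfl
    exact absurd hc1 (not_lt.mpr hc2.le)
  have key := typed_sets (fcell c r K) (fun v => cell_preconnected c r K v.1)
    (fun v g hg => hg.1) h (x 0).2.2 hw1 hw2 hne (by
      intro t ht
      rw [Set.disjoint_left]
      rintro g ⟨p, q, hp, hq, hpq, rfl⟩ hg
      have h1 := hz1 _ (hxX t ht)
      have h2 := hz2 _ (hxX t ht)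
      have h3 := hg.2 e he
      rw [zeta_comb c r _ w1 w2 hpq, zeta_comb c r _ w1 w2 hpq] at h3
      rcases hp.lt_or_eq with hp0 | hp0
      · have := mul_lt_mul_of_pos_left h1 hp0
        have := mul_le_mul_of_nonneg_left h2.le hq
        linarith
      · have hq1 : q = 1 := by linarith
        rw [← hp0, hq1] at h3
        linarith)
  have := mul_neg_of_neg_of_pos hc1 hc2
  linarith

end Pool.Agent.Work.MP_a5c73b_lc.S
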